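import Mathlib

/-!
# Definitions for the disproof of `S05963` (Lipschitz invariance of WUR renormability)

Nothing is proved here.  See `/team-store/wur_blueprint.md`.
-/

set_option autoImplicit false

namespace Pool.Agent.Helper94.WUR

/-! ## One slice: oscillation, balance functional, token -/

/-- bounded real function -/
def Bdd {J : Type} (f : J → ℝ) : Prop := ∃ M : ℝ, ∀ j, |f j| ≤ M

/-- oscillation of a (bounded) sequence -/
noncomputable def osc (z : ℕ → ℝ) : ℝ := (⨆ m, z m) - ⨅ m, z m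

/-- the balance functional with penalties `p` -/
noncomputable def Lam (p z : ℕ → ℝ) : ℝ :=
  (⨆ m, (z m - p m * osc z)) + ⨅ m, (z m + p m * osc z)

/-- admissible windows: weights `k`, penalties `p` -/
structure Win (k p : ℕ → ℝ) : Prop where
  k0 : ∀ m, 0 ≤ k m
  k1 : ∀ m, k m ≤ 1
  p0 : ∀ m, 0 ≤ p m
  p1 : ∀ m, p m ≤ 1
  pk : ∀ m, k m < 1 → p m = 1
  full : ∃ m, k m = 1 ∧ p m = 0

open Classical in
/-- the token of the slice `u`: the unique `t` with `Lam p (u - t k) = 0` -/
noncomputable def tok (k p u : ℕ → ℝ) : ℝ :=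
  if h : ∃ t : ℝ, Lam p (fun m => u m - t * k m) = 0 then h.choose else 0

/-! ## One fibre -/

/-- index set of a fibre: one extra scalar and the double sequence (slice, block) -/
abbrev J : Type := Option (ℕ × ℕ)

/-- the slice number `i` of a fibre vector -/
def row (f : J → ℝ) (i : ℕ) : ℕ → ℝ := fun m => f (some (i, m))

/-- decomposition of a fibre vector: extra scalar, tokens, balanced parts -/
noncomputable def dc (k p : ℕ → ℝ) (f : J → ℝ) : Option (ℕ × Option ℕ) → ℝ
  | none => f none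
  | some (i, none) => tok k p (row f i)
  | some (i, some m) => f (some (i, m)) - tok k p (row f i) * k m

/-- the shift invariant functional -/
noncomputable def NF (k p : ℕ → ℝ) (f : J → ℝ) : ℝ := ⨆ j, |dc k p f j|

/-! ## The bending function and the gauge -/

/-- `G x = x` for `|x| ≤ 1` and `sign x * |x| ^ 2000` for `|x| ≥ 1` -/
noncomputable def G (x : ℝ) : ℝ := x * max 1 (|x| ^ 1999)

/-- the inverse of `G` -/
noncomputable def H : ℝ → ℝ := Function.invFun G

/-- a Lipschitz constant of `G` on `[-2, 2]` -/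
noncomputable def LG : ℝ := 2000 * 2 ^ 1999

/-- the properties of a functional needed for its gauge -/
structure IsN (I : Type) (N : (I → ℝ) → ℝ) : Prop where
  lip : ∀ f g : I → ℝ, Bdd f → Bdd g → ∀ δ : ℝ, 0 ≤ δ → (∀ j, |f j - g j| ≤ δ) → |N f - N g| ≤ 7 * δ
  hom : ∀ f : I → ℝ, Bdd f → ∀ c : ℝ, 0 ≤ c → N (fun j => c * f j) = c * N f
  low : ∀ f : I → ℝ, Bdd f → ∀ j, |f j| ≤ 2 * N f

open Classical in
/-- the gauge: the unique `T > 0` with `N (G (s / T)) = 14` (and `0` if there is none) -/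
noncomputable def gauge {I : Type} (N : (I → ℝ) → ℝ) (s : I → ℝ) : ℝ :=
  if h : ∃ T : ℝ, 0 < T ∧ N (fun j => G (s j / T)) = 14 then h.choose else 0

/-! ## The fibre maps -/

/-- fibre map: extract the first token into the extra scalar and shift the tokens -/
noncomputable def fwd (k p : ℕ → ℝ) (T : ℝ) (s : J → ℝ) : J → ℝ
  | none => T * H (tok k p (row (fun j => G (s j / T)) 0))
  | some (i, m) => T * H (G (s (some (i, m)) / T) - tok k p (row (fun j => G (s j / T)) i) * k m
      + tok k p (row (fun j => G (s j / T)) (i + 1)) * k m)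

/-- the token which goes into slice `i` in the inverse map -/
noncomputable def inTok (k p : ℕ → ℝ) (T : ℝ) (y : J → ℝ) : ℕ → ℝ
  | 0 => G (y none / T)
  | (i + 1) => tok k p (row (fun j => G (y j / T)) i)

/-- inverse fibre map -/
noncomputable def bwd (k p : ℕ → ℝ) (T : ℝ) (y : J → ℝ) : J → ℝ
  | none => 0
  | some (i, m) => T * H (G (y (some (i, m)) / T) - tok k p (row (fun j => G (y j / T)) i) * k m
      + inTok k p T y i * k m)

/-! ## The index set `2 ^ ω` and the windows -/

/-- binary sequences with the discrete topology -/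
def Gam : Type := ℕ → Bool

instance : TopologicalSpace Gam := ⊥

instance : DiscreteTopology Gam := ⟨rfl⟩

/-- the first `m` digits agree -/
def agree (m : ℕ) (β γ : Gam) : Prop := ∀ j : ℕ, j < m → β j = γ j

open Classical in
/-- largest scale of a competitor of `γ` in its node of level `m` -/
noncomputable def om (T : Gam → ℝ) (γ : Gam) (m : ℕ) : ℝ :=
  ⨆ β : Gam, if β ≠ γ ∧ agree m β γ then T β else 0

/-- relative scale of the competitors, truncated at `1` -/
noncomputable def th (T : Gam → ℝ) (γ : Gam) (m : ℕ) : ℝ := min (om T γ m / T γ) 1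

/-- the value of `th` one level up (`1` at the root) -/
noncomputable def thp (T : Gam → ℝ) (γ : Gam) : ℕ → ℝ
  | 0 => 1
  | (m + 1) => th T γ m

/-- position of block `m` relative to the window of `γ` -/
noncomputable def vv (T : Gam → ℝ) (γ : Gam) (m : ℕ) : ℝ :=
  min (3 / 4 - th T γ m) (thp T γ m - 1 / 4)

/-- weights -/
noncomputable def kk (T : Gam → ℝ) (γ : Gam) (m : ℕ) : ℝ := max 0 (min 1 (8 * vv T γ m))

/-- penalties -/
noncomputable def pp (T : Gam → ℝ) (γ : Gam) (m : ℕ) : ℝ := max 0 (min 1 (2 - 8 * vv T γ m))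

/-- nonnegative and vanishing at infinity -/
structure C0p (T : Gam → ℝ) : Prop where
  nonneg : ∀ γ, 0 ≤ T γ
  van : ∀ ε : ℝ, 0 < ε → {γ : Gam | ε ≤ T γ}.Finite

/-- bounded, and the sup norms of the fibres vanish at infinity -/
structure Van (s : Gam → J → ℝ) : Prop where
  bdd : ∃ M : ℝ, ∀ γ j, |s γ j| ≤ M
  van : ∀ ε : ℝ, 0 < ε → {γ : Gam | ∃ j, ε ≤ |s γ j|}.Finite

/-- the coupled system for the scales -/
structure IsSys (s : Gam → J → ℝ) (T : Gam → ℝ) : Prop where
  c0 : C0p T
  eq : ∀ γ, T γ = gauge (NF (kk T γ) (pp T γ)) (s γ)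

/-! ## The Banach spaces -/

/-- the Hilbert space `ℓ₂(Γ)` -/
abbrev L2 : Type := lp (fun _ : Gam => ℝ) 2

/-- the ambient space of `X` -/
abbrev Amb : Type :=
  ZeroAtInftyContinuousMap (ℕ × ℕ) L2 × ZeroAtInftyContinuousMap (ℕ × ℕ × Gam) ℝ

/-- `X`: pairs `(b, a)` with `a (i, m, γ) = 2 ^ m * b (i, m) γ`.
The norm is `max (sup ‖b (i, m)‖₂) (sup |a|)`. -/
noncomputable def XS : Submodule ℝ Amb where
  carrier := {x | ∀ (i m : ℕ) (γ : Gam), x.2 (i, m, γ) = 2 ^ m * (x.1 (i, m) : Gam → ℝ) γ}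
  add_mem' := by
    intro x y hx hy i m γ
    have h1 := hx i m γ
    have h2 := hy i m γ
    simp only [Prod.snd_add, Prod.fst_add, ZeroAtInftyContinuousMap.coe_add, Pi.add_apply,
      lp.coeFn_add] at *
    rw [h1, h2]; ring
  zero_mem' := by
    intro i m γ
    simp
  smul_mem' := by
    intro c x hx i m γ
    have h1 := hx i m γ
    simp only [Prod.smul_snd, Prod.smul_fst, ZeroAtInftyContinuousMap.coe_smul, Pi.smul_apply,
      lp.coeFn_smul, smul_eq_mul] at *
    rw [h1]; ring

/-- the space `X` -/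
abbrev X : Type := ↥XS

/-- the space `Y = c₀(Γ) ⊕ X` -/
abbrev Y : Type := ZeroAtInftyContinuousMap Gam ℝ × X

/-- the coordinates of an element of `X` -/
noncomputable def co (x : X) (i m : ℕ) (γ : Gam) : ℝ := x.1.2 (i, m, γ)

/-- weakly uniformly rotund renormability, exactly as in the frozen statement -/
def HasWUR (Z : Type) [NormedAddCommGroup Z] [NormedSpace ℝ Z] : Prop :=
  ∃ N : Z → ℝ, (∀ x y : Z, N (x + y) ≤ N x + N y) ∧
          (∀ (a : ℝ) (x : Z), N (a • x) = |a| * N x) ∧
          (∃ c C : ℝ, 0 < c ∧ 0 < C ∧ ∀ x : Z, c * ‖x‖ ≤ N x ∧ N x ≤ C * ‖x‖) ∧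
          ∀ u v : ℕ → Z, (∀ n, N (u n) = 1) → (∀ n, N (v n) = 1) →
            Filter.Tendsto (fun n => N (u n + v n)) Filter.atTop (nhds 2) →
            ∀ f : Z →L[ℝ] ℝ, Filter.Tendsto (fun n => f (u n - v n)) Filter.atTop (nhds 0)

end Pool.Agent.Helper94.WUR
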