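import Pool.Agent.Helper94.WUR.Tok

set_option autoImplicit false

/-!
# Module FIB : the shift invariant functional of a fibre
-/

namespace Pool.Agent.Helper94.WUR

theorem fb_row_bdd {f : J → ℝ} (hf : Bdd f) (i : ℕ) : Bdd (row f i) := by
  obtain ⟨M, hM⟩ := hf
  exact ⟨M, fun m => hM _⟩

theorem fb_dc_diff {k p : ℕ → ℝ} (hw : Win k p) {f g : J → ℝ} (hf : Bdd f) (hg : Bdd g) {δ : ℝ}
    (hδ : 0 ≤ δ) (h : ∀ j, |f j - g j| ≤ δ) (j : Option (ℕ × Option ℕ)) :
    |dc k p f j - dc k p g j| ≤ 7 * δ := by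
  have ht : ∀ i, |tok k p (row f i) - tok k p (row g i)| ≤ 6 * δ := fun i =>
    tok_lip hw (fb_row_bdd hf i) (fb_row_bdd hg i) hδ (fun m => h _)
  rcases j with _ | ⟨i, _ | m⟩
  · have := h none
    simp only [dc]
    linarith
  · have := ht i
    simp only [dc]
    linarith
  · have h1 := ht i
    have h2 := h (some (i, m))
    simp only [dc]
    have e : f (some (i, m)) - tok k p (row f i) * k m - (g (some (i, m)) - tok k p (row g i) * k m)
        = (f (some (i, m)) - g (some (i, m))) - (tok k p (row f i) - tok k p (row g i)) * k m := by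
      ring
    rw [e]
    have h3 : |(tok k p (row f i) - tok k p (row g i)) * k m| ≤ 6 * δ := by
      rw [abs_mul, abs_of_nonneg (hw.k0 m)]
      calc |tok k p (row f i) - tok k p (row g i)| * k m
          ≤ |tok k p (row f i) - tok k p (row g i)| * 1 :=
            mul_le_mul_of_nonneg_left (hw.k1 m) (abs_nonneg _)
        _ ≤ 6 * δ := by rw [mul_one]; exact h1
    calc _ ≤ |f (some (i, m)) - g (some (i, m))| +
          |(tok k p (row f i) - tok k p (row g i)) * k m| := abs_sub _ _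
      _ ≤ 7 * δ := by linarith

theorem fb_dc_zero {k p : ℕ → ℝ} (hw : Win k p) (j : Option (ℕ × Option ℕ)) :
    dc k p (fun _ => 0) j = 0 := by
  have ht : ∀ i, tok k p (row (fun _ => 0) i) = 0 := fun i => tok_zero hw
  rcases j with _ | ⟨i, _ | m⟩
  · simp [dc]
  · simp only [dc]
    exact ht i
  · simp only [dc]
    rw [ht i]
    ring

theorem fb_dc_bdd {k p : ℕ → ℝ} (hw : Win k p) {f : J → ℝ} {M : ℝ} (hM : ∀ j, |f j| ≤ M)
    (j : Option (ℕ × Option ℕ)) : |dc k p f j| ≤ 7 * M := by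
  have h0 : 0 ≤ M := (abs_nonneg _).trans (hM none)
  have h := fb_dc_diff hw (f := f) (g := fun _ => 0) ⟨M, hM⟩ ⟨0, fun _ => by simp⟩ h0
    (fun j => by simpa using hM j) j
  rwa [fb_dc_zero hw, sub_zero] at h

theorem fb_above {k p : ℕ → ℝ} (hw : Win k p) {f : J → ℝ} (hf : Bdd f) :
    BddAbove (Set.range fun j => |dc k p f j|) := by
  obtain ⟨M, hM⟩ := hf
  refine ⟨7 * M, ?_⟩
  rintro _ ⟨j, rfl⟩
  exact fb_dc_bdd hw hM j

theorem dc_le_NF {k p : ℕ → ℝ} (hw : Win k p) {f : J → ℝ} (hf : Bdd f)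
    (j : Option (ℕ × Option ℕ)) : |dc k p f j| ≤ NF k p f :=
  le_ciSup (fb_above hw hf) j

theorem fb_NF_nonneg {k p : ℕ → ℝ} (hw : Win k p) {f : J → ℝ} (hf : Bdd f) : 0 ≤ NF k p f :=
  (abs_nonneg _).trans (dc_le_NF hw hf none)

theorem fb_NF_diff {k p : ℕ → ℝ} (hw : Win k p) {f g : J → ℝ} (hf : Bdd f) (hg : Bdd g) {δ : ℝ}
    (hδ : 0 ≤ δ) (h : ∀ j, |f j - g j| ≤ δ) : NF k p f ≤ NF k p g + 7 * δ := by
  refine ciSup_le fun j => ?_
  have h1 := fb_dc_diff hw hf hg hδ h j
  have h2 := dc_le_NF hw hg j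
  have h3 := abs_sub_abs_le_abs_sub (dc k p f j) (dc k p g j)
  linarith

theorem fb_dc_smul {k p : ℕ → ℝ} (hw : Win k p) {f : J → ℝ} (hf : Bdd f) {c : ℝ} (hc : 0 ≤ c)
    (j : Option (ℕ × Option ℕ)) : dc k p (fun j => c * f j) j = c * dc k p f j := by
  have ht : ∀ i, tok k p (row (fun j => c * f j) i) = c * tok k p (row f i) := fun i =>
    tok_smul hw (fb_row_bdd hf i) hc
  rcases j with _ | ⟨i, _ | m⟩
  · simp only [dc]
  · simp only [dc]
    exact ht i
  · simp only [dc]
    rw [ht i]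
    ring

theorem NF_isN {k p : ℕ → ℝ} (hw : Win k p) : IsN J (NF k p) := by
  refine ⟨?_, ?_, ?_⟩
  · intro f g hf hg δ hδ h
    have h1 := fb_NF_diff hw hf hg hδ h
    have h2 := fb_NF_diff hw hg hf hδ (fun j => by rw [abs_sub_comm]; exact h j)
    exact abs_le.2 ⟨by linarith, by linarith⟩
  · intro f hf c hc
    unfold NF
    rw [Real.mul_iSup_of_nonneg hc]
    congr 1
    funext j
    rw [fb_dc_smul hw hf hc, abs_mul, abs_of_nonneg hc]
  · intro f hf j
    have h0 := fb_NF_nonneg hw hf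
    rcases j with _ | ⟨i, m⟩
    · have := dc_le_NF hw hf none
      simp only [dc] at this
      linarith
    · have h1 := dc_le_NF hw hf (some (i, none))
      have h2 := dc_le_NF hw hf (some (i, some m))
      simp only [dc] at h1 h2
      have e : f (some (i, m)) = (f (some (i, m)) - tok k p (row f i) * k m)
          + tok k p (row f i) * k m := by ring
      have h3 : |tok k p (row f i) * k m| ≤ NF k p f := by
        rw [abs_mul, abs_of_nonneg (hw.k0 m)]
        calc |tok k p (row f i)| * k m ≤ |tok k p (row f i)| * 1 :=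
              mul_le_mul_of_nonneg_left (hw.k1 m) (abs_nonneg _)
          _ ≤ NF k p f := by rw [mul_one]; exact h1
      rw [e]
      calc _ ≤ |f (some (i, m)) - tok k p (row f i) * k m| + |tok k p (row f i) * k m| :=
            abs_add_le _ _
        _ ≤ 2 * NF k p f := by linarith

theorem NF_win {k p k' p' : ℕ → ℝ} (hw : Win k p) (hw' : Win k' p') {η : ℝ}
    (hk : ∀ m, |k m - k' m| ≤ η) (hp : ∀ m, |p m - p' m| ≤ η) {f : J → ℝ} (hf : Bdd f) :
    NF k p f ≤ (1 + 11 * η) * NF k' p' f := by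
  have hη : 0 ≤ η := (abs_nonneg _).trans (hk 0)
  set M := NF k' p' f with hM
  have hM0 : 0 ≤ M := fb_NF_nonneg hw' hf
  have hηM : 0 ≤ η * M := mul_nonneg hη hM0
  have htt : ∀ i, |tok k p (row f i) - tok k' p' (row f i)| ≤ 10 * η * M := fun i =>
    tok_win hw hw' (fb_row_bdd hf i) hk hp (dc_le_NF hw' hf (some (i, none)))
      (fun m => dc_le_NF hw' hf (some (i, some m)))
  refine ciSup_le fun j => ?_
  rcases j with _ | ⟨i, _ | m⟩
  · have h1 := dc_le_NF hw' hf none
    simp only [dc] at h1 ⊢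
    rw [← hM] at h1
    nlinarith
  · have h1 := dc_le_NF hw' hf (some (i, none))
    simp only [dc] at h1 ⊢
    rw [← hM] at h1
    have h2 := htt i
    have h3 := abs_sub_abs_le_abs_sub (tok k p (row f i)) (tok k' p' (row f i))
    nlinarith
  · have h1 := dc_le_NF hw' hf (some (i, none))
    have h2 := dc_le_NF hw' hf (some (i, some m))
    simp only [dc] at h1 h2 ⊢
    rw [← hM] at h1 h2
    have h3 := htt i
    set t := tok k p (row f i)
    set t' := tok k' p' (row f i)
    have e : f (some (i, m)) - t * k m = (f (some (i, m)) - t' * k' m) + (t' * (k' m - k m)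
        + (t' - t) * k m) := by ring
    have h4 : |t' * (k' m - k m)| ≤ M * η := by
      rw [abs_mul]
      exact mul_le_mul h1 (by rw [abs_sub_comm]; exact hk m) (abs_nonneg _) hM0
    have h5 : |(t' - t) * k m| ≤ 10 * η * M := by
      rw [abs_mul, abs_of_nonneg (hw.k0 m), abs_sub_comm]
      calc |t - t'| * k m ≤ |t - t'| * 1 := mul_le_mul_of_nonneg_left (hw.k1 m) (abs_nonneg _)
        _ ≤ 10 * η * M := by rw [mul_one]; exact h3
    rw [e]
    calc _ ≤ |f (some (i, m)) - t' * k' m| + |t' * (k' m - k m) + (t' - t) * k m| :=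
          abs_add_le _ _
      _ ≤ |f (some (i, m)) - t' * k' m| + (|t' * (k' m - k m)| + |(t' - t) * k m|) := by
          linarith [abs_add_le (t' * (k' m - k m)) ((t' - t) * k m)]
      _ ≤ (1 + 11 * η) * M := by nlinarith

end Pool.Agent.Helper94.WUR
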