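import Pool.Agent.Helper94.WUR.Defs

/-!
# The bending function `G` and its inverse
-/

set_option autoImplicit false

namespace Pool.Agent.Helper94.WUR

theorem G_zero : G 0 = 0 := by simp [G]

theorem G_neg (x : ℝ) : G (-x) = - G x := by
  unfold G
  rw [abs_neg]; ring

theorem G_eq_self {x : ℝ} (hx : |x| ≤ 1) : G x = x := by
  unfold G
  rw [max_eq_left (pow_le_one₀ (abs_nonneg x) hx), mul_one]

theorem G_eq_pow {x : ℝ} (hx : 1 ≤ x) : G x = x ^ 2000 := by
  unfold G
  rw [abs_of_nonneg (by linarith), max_eq_right (one_le_pow₀ hx)]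
  ring

theorem abs_G (x : ℝ) : |G x| = |x| * max 1 (|x| ^ 1999) := by
  unfold G
  rw [abs_mul, abs_of_nonneg (a := max 1 (|x| ^ 1999)) (le_trans zero_le_one (le_max_left _ _))]

/-- the excess `G x - x` is monotone on the nonnegative reals -/
theorem G_mono_aux {x y : ℝ} (hy : 0 ≤ y) (hxy : y ≤ x) : x - y ≤ G x - G y := by
  have hx : 0 ≤ x := le_trans hy hxy
  unfold G
  rw [abs_of_nonneg hx, abs_of_nonneg hy]
  have h1 : max 1 (y ^ 1999) ≤ max 1 (x ^ 1999) :=
    max_le_max le_rfl (pow_le_pow_left₀ hy hxy 1999)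
  have h2 : (1 : ℝ) ≤ max 1 (y ^ 1999) := le_max_left _ _
  nlinarith [mul_nonneg (sub_nonneg.2 hxy) (sub_nonneg.2 (le_trans h2 h1)),
    mul_nonneg hy (sub_nonneg.2 h1)]

theorem G_mono_gap {x y : ℝ} (hxy : y ≤ x) : x - y ≤ G x - G y := by
  rcases le_total 0 y with hy | hy
  · exact G_mono_aux hy hxy
  · rcases le_total 0 x with hx | hx
    · have h1 := G_mono_aux (le_refl 0) hx
      have h2 := G_mono_aux (le_refl 0) (neg_nonneg.2 hy)
      rw [G_neg] at h2
      rw [G_zero] at h1 h2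
      linarith
    · have h1 := G_mono_aux (neg_nonneg.2 hx) (neg_le_neg hxy)
      rw [G_neg, G_neg] at h1
      linarith

theorem G_strictMono : StrictMono G := by
  intro x y h
  have := G_mono_gap h.le
  linarith

theorem G_continuous : Continuous G := by
  unfold G
  fun_prop

theorem G_surjective : Function.Surjective G := by
  apply G_continuous.surjective
  · refine Filter.tendsto_atTop_mono' _ ?_ Filter.tendsto_id
    filter_upwards [Filter.eventually_ge_atTop (0 : ℝ)] with x hx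
    have := G_mono_gap hx
    rw [G_zero] at this
    simp only [id]
    linarith
  · refine Filter.tendsto_atBot_mono' _ ?_ Filter.tendsto_id
    filter_upwards [Filter.eventually_le_atBot (0 : ℝ)] with x hx
    have := G_mono_gap hx
    rw [G_zero] at this
    simp only [id]
    linarith

theorem H_G (x : ℝ) : H (G x) = x := Function.leftInverse_invFun G_strictMono.injective x

theorem G_H (y : ℝ) : G (H y) = y := Function.rightInverse_invFun G_surjective y

theorem H_zero : H 0 = 0 := by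
  have := H_G 0
  rwa [G_zero] at this

theorem G_expand (x y : ℝ) : |x - y| ≤ |G x - G y| := by
  rcases le_total y x with h | h
  · have := G_mono_gap h
    rw [abs_of_nonneg (sub_nonneg.2 h)]
    exact le_trans this (le_abs_self _)
  · have := G_mono_gap h
    rw [abs_sub_comm x y, abs_sub_comm (G x), abs_of_nonneg (sub_nonneg.2 h)]
    exact le_trans this (le_abs_self _)

theorem H_lip (x y : ℝ) : |H x - H y| ≤ |x - y| := by
  have := G_expand (H x) (H y)
  rwa [G_H, G_H] at this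

theorem abs_le_abs_G (x : ℝ) : |x| ≤ |G x| := by
  have := G_expand x 0
  rwa [G_zero, sub_zero, sub_zero] at this

theorem LG_ge : 100 ≤ LG := by
  unfold LG
  have h : (1 : ℝ) ≤ 2 ^ 1999 := one_le_pow₀ (by norm_num)
  calc (100 : ℝ) ≤ 2000 * 1 := by norm_num
    _ ≤ 2000 * 2 ^ 1999 := mul_le_mul_of_nonneg_left h (by norm_num)

theorem G_lip_one {x y : ℝ} (hy : 1 ≤ y) (hxy : y ≤ x) (hx : x ≤ 2) :
    G x - G y ≤ LG * (x - y) := by
  have hx1 : 1 ≤ x := le_trans hy hxy
  rw [G_eq_pow hx1, G_eq_pow hy]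
  have h := abs_pow_sub_pow_le x y 2000
  have h1 : max |x| |y| ≤ 2 := by
    apply max_le
    · rw [abs_of_nonneg (by linarith)]; exact hx
    · rw [abs_of_nonneg (by linarith)]; linarith
  have h2 : (max |x| |y|) ^ 1999 ≤ 2 ^ 1999 :=
    pow_le_pow_left₀ (le_trans (abs_nonneg x) (le_max_left _ _)) h1 1999
  have h3 : |x - y| = x - y := abs_of_nonneg (by linarith)
  rw [h3] at h
  calc x ^ 2000 - y ^ 2000 ≤ |x ^ 2000 - y ^ 2000| := le_abs_self _
    _ ≤ (x - y) * (2000 : ℕ) * (max |x| |y|) ^ (2000 - 1) := h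
    _ ≤ (x - y) * (2000 : ℕ) * 2 ^ 1999 := by
        apply mul_le_mul_of_nonneg_left h2
        apply mul_nonneg (by linarith)
        positivity
    _ = LG * (x - y) := by
        unfold LG
        rw [Nat.cast_ofNat]
        generalize (2 : ℝ) ^ 1999 = A
        ring

theorem G_lip_aux {x y : ℝ} (hy : 0 ≤ y) (hxy : y ≤ x) (hx : x ≤ 2) :
    G x - G y ≤ LG * (x - y) := by
  have hLG := LG_ge
  rcases le_total x 1 with h1 | h1
  · rw [G_eq_self (abs_le.2 ⟨by linarith, h1⟩), G_eq_self (abs_le.2 ⟨by linarith, by linarith⟩)]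
    nlinarith
  · rcases le_total y 1 with h2 | h2
    · have h3 := G_lip_one (le_refl 1) h1 hx
      have h4 : G y = y := G_eq_self (abs_le.2 ⟨by linarith, h2⟩)
      have h5 : G 1 = 1 := G_eq_self (by norm_num)
      rw [h5] at h3
      rw [h4]
      nlinarith
    · exact G_lip_one h2 hxy hx

theorem G_lip_aux2 {x y : ℝ} (hxy : y ≤ x) (hx : |x| ≤ 2) (hy : |y| ≤ 2) :
    G x - G y ≤ LG * (x - y) := by
  obtain ⟨hx1, hx2⟩ := abs_le.1 hx
  obtain ⟨hy1, hy2⟩ := abs_le.1 hy
  rcases le_total 0 y with h | h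
  · exact G_lip_aux h hxy hx2
  · rcases le_total 0 x with h' | h'
    · have h1 := G_lip_aux (le_refl 0) h' hx2
      have h2 := G_lip_aux (le_refl 0) (neg_nonneg.2 h) (by linarith)
      rw [G_neg] at h2
      rw [G_zero] at h1 h2
      have : LG * (x - y) = LG * (x - 0) + LG * (-y - 0) := by ring
      linarith
    · have h1 := G_lip_aux (neg_nonneg.2 h') (neg_le_neg hxy) (by linarith)
      rw [G_neg, G_neg] at h1
      have : LG * (x - y) = LG * (-y - -x) := by ring
      linarith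

theorem G_lip {x y : ℝ} (hx : |x| ≤ 2) (hy : |y| ≤ 2) : |G x - G y| ≤ LG * |x - y| := by
  rcases le_total y x with h | h
  · rw [abs_of_nonneg (sub_nonneg.2 h), abs_of_nonneg (sub_nonneg.2 (G_strictMono.monotone h))]
    exact G_lip_aux2 h hx hy
  · rw [abs_sub_comm x y, abs_sub_comm (G x), abs_of_nonneg (sub_nonneg.2 h),
      abs_of_nonneg (sub_nonneg.2 (G_strictMono.monotone h))]
    exact G_lip_aux2 h hy hx

theorem G_le_one {x : ℝ} (hx : |x| ≤ 1) : |G x| ≤ 1 := by
  rw [G_eq_self hx]; exact hx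

theorem H_eq_self {x : ℝ} (hx : |x| ≤ 1) : H x = x := by
  have := H_G x
  rwa [G_eq_self hx] at this

theorem abs_G_ge {x b : ℝ} (hb : 1 ≤ b) (hx : b ≤ |x|) (n : ℕ) (hn : n ≤ 1999) :
    b * b ^ n ≤ |G x| := by
  rw [abs_G]
  have h1 : b ^ n ≤ b ^ 1999 := pow_le_pow_right₀ hb hn
  have h2 : b ^ 1999 ≤ |x| ^ 1999 := pow_le_pow_left₀ (by linarith) hx 1999
  have h3 : b ^ n ≤ max 1 (|x| ^ 1999) := le_trans (le_trans h1 h2) (le_max_right _ _)
  exact mul_le_mul hx h3 (by positivity) (abs_nonneg x)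

theorem G_two_le {x : ℝ} (hx : 2 ≤ |x|) : 28 ≤ |G x| := by
  have := abs_G_ge (by norm_num : (1 : ℝ) ≤ 2) hx 4 (by norm_num)
  norm_num at this
  linarith

theorem abs_le_of_G {x : ℝ} (hx : |G x| ≤ 28) : |x| ≤ 3 / 2 := by
  by_contra hcon
  push Not at hcon
  have := abs_G_ge (by norm_num : (1 : ℝ) ≤ 3 / 2) hcon.le 9 (by norm_num)
  norm_num at this
  linarith

theorem H_le_of_le {y : ℝ} (hy : |y| ≤ 28) : |H y| ≤ 3 / 2 := by
  apply abs_le_of_G
  rw [G_H]; exact hy

theorem G_scale_aux {l : ℝ} (hl : 1 ≤ l) {x : ℝ} (hx : 0 ≤ x) :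
    |G (l * x) - l ^ 2000 * G x| ≤ l ^ 2000 - l := by
  have hll : l ≤ l ^ 2000 := le_self_pow₀ hl (by norm_num)
  have hl0 : 0 < l := by linarith
  rcases le_total 1 x with h | h
  · rw [G_eq_pow h, G_eq_pow (one_le_mul_of_one_le_of_one_le hl h), mul_pow, sub_self, abs_zero]
    linarith
  · have hGx : G x = x := G_eq_self (abs_le.2 ⟨by linarith, h⟩)
    rw [hGx]
    rcases le_total 1 (l * x) with h' | h'
    · rw [G_eq_pow h', mul_pow]
      have h1 : x ^ 2000 ≤ x := pow_le_of_le_one hx h (by norm_num)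
      have h2 : (0 : ℝ) < l ^ 2000 := by positivity
      rw [← mul_sub, abs_mul, abs_of_pos h2, abs_sub_comm, abs_of_nonneg (sub_nonneg.2 h1)]
      have h3 : (1 : ℝ) ≤ (l * x) ^ 1999 := one_le_pow₀ h'
      have h4 : x - x ^ 2000 ≤ 1 - x ^ 1999 := by
        have h5 : x - x ^ 2000 = x * (1 - x ^ 1999) := by ring
        rw [h5]
        have h6 : 0 ≤ 1 - x ^ 1999 := sub_nonneg.2 (pow_le_one₀ hx h)
        exact mul_le_of_le_one_left h6 h
      calc l ^ 2000 * (x - x ^ 2000) ≤ l ^ 2000 * (1 - x ^ 1999) :=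
            mul_le_mul_of_nonneg_left h4 h2.le
        _ = l ^ 2000 - l * (l * x) ^ 1999 := by rw [mul_pow]; ring
        _ ≤ l ^ 2000 - l * 1 := by
            have := mul_le_mul_of_nonneg_left h3 hl0.le
            linarith
        _ = l ^ 2000 - l := by ring
    · rw [G_eq_self (abs_le.2 ⟨by nlinarith, h'⟩)]
      have h1 : l * x - l ^ 2000 * x = -((l ^ 2000 - l) * x) := by ring
      rw [h1, abs_neg, abs_of_nonneg (mul_nonneg (sub_nonneg.2 hll) hx)]
      exact mul_le_of_le_one_right (sub_nonneg.2 hll) h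

theorem G_scale {l : ℝ} (hl : 1 ≤ l) (x : ℝ) :
    |G (l * x) - l ^ 2000 * G x| ≤ l ^ 2000 - l := by
  rcases le_total 0 x with h | h
  · exact G_scale_aux hl h
  · have h1 := G_scale_aux hl (neg_nonneg.2 h)
    have h2 : l * -x = -(l * x) := by ring
    rw [h2, G_neg, G_neg] at h1
    have h3 : -G (l * x) - l ^ 2000 * -G x = -(G (l * x) - l ^ 2000 * G x) := by ring
    rw [h3, abs_neg] at h1
    exact h1

theorem G_bdd {I : Type} {s : I → ℝ} (hs : Bdd s) {T : ℝ} : Bdd (fun j => G (s j / T)) := by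
  obtain ⟨M, hM⟩ := hs
  refine ⟨(M / |T|) * max 1 ((M / |T|) ^ 1999), fun j => ?_⟩
  have h1 : |s j / T| ≤ M / |T| := by
    rw [abs_div]
    exact div_le_div_of_nonneg_right (hM j) (abs_nonneg T)
  rw [abs_G]
  have h2 : |s j / T| ^ 1999 ≤ (M / |T|) ^ 1999 := pow_le_pow_left₀ (abs_nonneg _) h1 1999
  have h3 : max 1 (|s j / T| ^ 1999) ≤ max 1 ((M / |T|) ^ 1999) := max_le_max le_rfl h2
  exact mul_le_mul h1 h3 (le_trans zero_le_one (le_max_left _ _)) (le_trans (abs_nonneg _) h1)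

end Pool.Agent.Helper94.WUR
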