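import Pool.Agent.Helper94.WUR.Defs
import Pool.Agent.Helper94.WUR.GFun

/-!
# Module GAUGE: the gauge of a homogeneous Lipschitz functional
-/

set_option autoImplicit false

namespace Pool.Agent.Helper94.WUR

/-- a homogeneous functional vanishes at `0` -/
private theorem isN_zero {I : Type} {N : (I → ℝ) → ℝ} (hN : IsN I N) :
    N (fun _ => (0 : ℝ)) = 0 := by
  have h := hN.hom (fun _ => (0 : ℝ)) ⟨0, fun _ => by simp⟩ 0 le_rfl
  simpa using h

private theorem isN_bound {I : Type} {N : (I → ℝ) → ℝ} (hN : IsN I N) {f : I → ℝ} {M : ℝ}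
    (hM : 0 ≤ M) (hf : ∀ j, |f j| ≤ M) : N f ≤ 7 * M := by
  have h := hN.lip f (fun _ => 0) ⟨M, hf⟩ ⟨0, fun _ => by simp⟩ M hM
    (fun j => by simpa using hf j)
  rw [isN_zero hN, sub_zero] at h
  exact (le_abs_self _).trans h

/-- monotonicity along rays -/
private theorem gauge_star {I : Type} {N : (I → ℝ) → ℝ} (hN : IsN I N) {x : I → ℝ}
    (hx : Bdd (fun j => G (x j))) {l : ℝ} (hl : 1 ≤ l) (hlx : Bdd (fun j => G (l * x j))) :
    l ^ 2000 * N (fun j => G (x j)) - 7 * (l ^ 2000 - l) ≤ N (fun j => G (l * x j)) := by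
  have hl0 : (0 : ℝ) ≤ l ^ 2000 := by positivity
  have hb : Bdd (fun j => l ^ 2000 * G (x j)) := by
    obtain ⟨M, hM⟩ := hx
    refine ⟨l ^ 2000 * M, fun j => ?_⟩
    rw [abs_mul, abs_of_nonneg hl0]
    exact mul_le_mul_of_nonneg_left (hM j) hl0
  have hll : 0 ≤ l ^ 2000 - l := by
    have := le_self_pow₀ hl (n := 2000) (by norm_num)
    linarith
  have h := hN.lip _ _ hlx hb (l ^ 2000 - l) hll (fun j => G_scale hl (x j))
  rw [hN.hom _ hx _ hl0] at h
  have := (abs_le.1 h).1
  linarith

private theorem bdd_div {I : Type} {s : I → ℝ} (hs : Bdd s) (T : ℝ) :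
    Bdd (fun j => s j / T) := by
  obtain ⟨M, hM⟩ := hs
  refine ⟨M / |T|, fun j => ?_⟩
  rw [abs_div]
  exact div_le_div_of_nonneg_right (hM j) (abs_nonneg _)

/-- two scales cannot both be solutions -/
private theorem gauge_lt {I : Type} {N : (I → ℝ) → ℝ} (hN : IsN I N) {s : I → ℝ} (hs : Bdd s)
    {T T' : ℝ} (hT : 0 < T) (hTT : T < T') (h : N (fun j => G (s j / T')) = 14) :
    14 < N (fun j => G (s j / T)) := by
  have hT' : 0 < T' := hT.trans hTT
  have hl : 1 < T' / T := by rwa [one_lt_div hT]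
  have he : ∀ j, T' / T * (s j / T') = s j / T := fun j => by
    field_simp
  have h1 := gauge_star hN (x := fun j => s j / T') (G_bdd hs) hl.le
    (by simp only [he]; exact G_bdd hs)
  simp only [he] at h1
  rw [h] at h1
  have h2 : 1 < (T' / T) ^ 2000 := one_lt_pow₀ hl (by norm_num)
  linarith

theorem gauge_spec {I : Type} {N : (I → ℝ) → ℝ} (hN : IsN I N) {s : I → ℝ} (hs : Bdd s)
    (h0 : ∃ j, s j ≠ 0) : 0 < gauge N s ∧ N (fun j => G (s j / gauge N s)) = 14 := by
  have hex : ∃ T : ℝ, 0 < T ∧ N (fun j => G (s j / T)) = 14 := by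
    obtain ⟨j0, hj0⟩ := h0
    have : Nonempty I := ⟨j0⟩
    obtain ⟨B, hB⟩ := hs
    have hbd : BddAbove (Set.range (fun j => |s j|)) := ⟨B, by rintro _ ⟨j, rfl⟩; exact hB j⟩
    set M : ℝ := ⨆ j, |s j| with hMdef
    have hle : ∀ j, |s j| ≤ M := fun j => le_ciSup hbd j
    have hM : 0 < M := (abs_pos.2 hj0).trans_le (hle j0)
    have hs : Bdd s := ⟨B, hB⟩
    -- continuity
    have hcont : ContinuousOn (fun T : ℝ => N (fun j => G (s j / T))) (Set.Icc (M / 2) M) := by
      have hK : 0 ≤ 7 * (LG * (4 / M)) := by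
        have := LG_ge
        have h1 : 0 ≤ LG := by linarith
        positivity
      refine (LipschitzOnWith.of_dist_le_mul (K := ⟨7 * (LG * (4 / M)), hK⟩) ?_).continuousOn
      intro T hT T' hT'
      have hTp : 0 < T := by have := hT.1; linarith
      have hTp' : 0 < T' := by have := hT'.1; linarith
      have h2 : ∀ (R : ℝ), M / 2 ≤ R → ∀ j, |s j / R| ≤ 2 := by
        intro R hR j
        have hRp : 0 < R := by linarith
        rw [abs_div, abs_of_pos hRp, div_le_iff₀ hRp]
        have := hle j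
        linarith
      have hd : ∀ j, |s j / T - s j / T'| ≤ 4 / M * |T - T'| := by
        intro j
        have e : s j / T - s j / T' = s j * (T' - T) / (T * T') := by
          field_simp
        rw [e, abs_div, abs_mul, abs_of_pos (mul_pos hTp hTp'), div_le_iff₀ (mul_pos hTp hTp'),
          abs_sub_comm T' T]
        have h3 : M / 2 * (M / 2) ≤ T * T' :=
          mul_le_mul hT.1 hT'.1 (by linarith) hTp.le
        have h4 : M ≤ 4 / M * (T * T') := by
          calc M = 4 / M * (M / 2 * (M / 2)) := by field_simp; norm_num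
            _ ≤ 4 / M * (T * T') := mul_le_mul_of_nonneg_left h3 (by positivity)
        calc |s j| * |T - T'| ≤ M * |T - T'| :=
              mul_le_mul_of_nonneg_right (hle j) (abs_nonneg _)
          _ ≤ (4 / M * (T * T')) * |T - T'| := mul_le_mul_of_nonneg_right h4 (abs_nonneg _)
          _ = 4 / M * |T - T'| * (T * T') := by ring
      have hLG : 0 ≤ LG := by have := LG_ge; linarith
      have h5 := hN.lip (fun j => G (s j / T)) (fun j => G (s j / T')) (G_bdd hs) (G_bdd hs)
        (LG * (4 / M * |T - T'|)) (by positivity)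
        (fun j => (G_lip (h2 T hT.1 j) (h2 T' hT'.1 j)).trans
          (mul_le_mul_of_nonneg_left (hd j) hLG))
      rw [Real.dist_eq, Real.dist_eq]
      calc |N (fun j => G (s j / T)) - N (fun j => G (s j / T'))|
          ≤ 7 * (LG * (4 / M * |T - T'|)) := h5
        _ = 7 * (LG * (4 / M)) * |T - T'| := by ring
    have hb : N (fun j => G (s j / M)) ≤ 14 := by
      have h1 := isN_bound hN (f := fun j => G (s j / M)) zero_le_one (fun j => G_le_one (by
        rw [abs_div, abs_of_pos hM, div_le_one hM]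
        exact hle j))
      linarith
    have ha : 14 ≤ N (fun j => G (s j / (M / 2))) := by
      obtain ⟨j, hj⟩ := exists_lt_of_lt_ciSup (show 3 / 4 * M < ⨆ j, |s j| by
        rw [← hMdef]; linarith)
      by_contra hlt
      push Not at hlt
      have h1 := hN.low _ (G_bdd hs (T := M / 2)) j
      have h2 : |s j / (M / 2)| ≤ 3 / 2 := abs_le_of_G (by linarith)
      rw [abs_div, abs_of_pos (half_pos hM), div_le_iff₀ (half_pos hM)] at h2
      linarith
    obtain ⟨T, hT, hT14⟩ := intermediate_value_Icc' (by linarith : M / 2 ≤ M) hcont ⟨hb, ha⟩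
    exact ⟨T, by have := hT.1; linarith, hT14⟩
  unfold gauge
  rw [dif_pos hex]
  exact hex.choose_spec

theorem gauge_unique {I : Type} {N : (I → ℝ) → ℝ} (hN : IsN I N) {s : I → ℝ} (hs : Bdd s)
    {T : ℝ} (hT : 0 < T) (h : N (fun j => G (s j / T)) = 14) : gauge N s = T := by
  have hex : ∃ T : ℝ, 0 < T ∧ N (fun j => G (s j / T)) = 14 := ⟨T, hT, h⟩
  unfold gauge
  rw [dif_pos hex]
  obtain ⟨h1, h2⟩ := hex.choose_spec
  rcases lt_trichotomy hex.choose T with h3 | h3 | h3
  · have := gauge_lt hN hs h1 h3 h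
    linarith
  · exact h3
  · have := gauge_lt hN hs hT h3 h2
    linarith

theorem gauge_zero {I : Type} {N : (I → ℝ) → ℝ} (hN : IsN I N) {s : I → ℝ}
    (h0 : ∀ j, s j = 0) : gauge N s = 0 := by
  unfold gauge
  rw [dif_neg]
  rintro ⟨T, -, hT⟩
  simp only [h0, zero_div, G_zero] at hT
  rw [isN_zero hN] at hT
  norm_num at hT

theorem gauge_nonneg {I : Type} (N : (I → ℝ) → ℝ) (s : I → ℝ) : 0 ≤ gauge N s := by
  unfold gauge
  split_ifs with h
  · exact h.choose_spec.1.le
  · exact le_rfl

theorem gauge_le {I : Type} {N : (I → ℝ) → ℝ} (hN : IsN I N) {s : I → ℝ} {M : ℝ}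
    (hM : 0 ≤ M) (h : ∀ j, |s j| ≤ M) : gauge N s ≤ M := by
  by_cases h0 : ∃ j, s j ≠ 0
  · obtain ⟨h1, h2⟩ := gauge_spec hN ⟨M, h⟩ h0
    by_contra hlt
    push Not at hlt
    have h3 := isN_bound hN (f := fun j => G (s j / gauge N s)) zero_le_one
      (fun j => G_le_one (by
        rw [abs_div, abs_of_pos h1, div_le_one h1]
        exact (h j).trans hlt.le))
    linarith
  · push Not at h0
    rw [gauge_zero hN h0]
    exact hM

private theorem le_gauge_aux {I : Type} {N : (I → ℝ) → ℝ} (hN : IsN I N) {s : I → ℝ}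
    (hs : Bdd s) (j : I) : |s j| ≤ 3 / 2 * gauge N s := by
  by_cases h0 : ∃ j, s j ≠ 0
  · obtain ⟨h1, h2⟩ := gauge_spec hN hs h0
    have h3 := hN.low _ (G_bdd hs (T := gauge N s)) j
    rw [h2] at h3
    have h4 : |s j / gauge N s| ≤ 3 / 2 := abs_le_of_G (by linarith)
    rwa [abs_div, abs_of_pos h1, div_le_iff₀ h1] at h4
  · push Not at h0
    rw [h0 j, abs_zero]
    have := gauge_nonneg N s
    linarith

theorem le_gauge {I : Type} {N : (I → ℝ) → ℝ} (hN : IsN I N) {s : I → ℝ} (hs : Bdd s)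
    (j : I) : |s j| ≤ 2 * gauge N s := by
  have h1 := le_gauge_aux hN hs j
  have h2 := gauge_nonneg N s
  linarith

/-- comparison lemma -/
theorem gauge_cmp {I : Type} {N N' : (I → ℝ) → ℝ} (hN : IsN I N) (hN' : IsN I N')
    {s s' : I → ℝ} (hs : Bdd s) (hs' : Bdd s') {ε δ : ℝ} (hε : 0 ≤ ε) (hδ : 0 ≤ δ)
    (h : ∀ f : I → ℝ, Bdd f → N' f ≤ (1 + ε) * N f)
    (hd : ∀ j, |s j - s' j| ≤ δ) :
    gauge N' s' ≤ gauge N s + ε / 1000 * gauge N s + LG * δ := by
  have hLG := LG_ge
  have hLδ : 3 * δ ≤ LG * δ := mul_le_mul_of_nonneg_right (by linarith) hδ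
  have hT0 := gauge_nonneg N s
  have hεT : 0 ≤ ε / 1000 * gauge N s := by positivity
  have h32 := le_gauge_aux hN hs
  have hs3 : ∀ j, |s' j| ≤ |s j| + δ := by
    intro j
    have h1 := abs_sub_abs_le_abs_sub (s' j) (s j)
    rw [abs_sub_comm] at h1
    have := hd j
    linarith
  by_cases hle : gauge N' s' ≤ gauge N s
  · linarith
  push Not at hle
  by_cases hδT : gauge N s < 4 * δ
  · -- large perturbation
    have h1 : gauge N' s' ≤ 3 / 2 * gauge N s + δ :=
      gauge_le hN' (by positivity) (fun j => by have := h32 j; have := hs3 j; linarith)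
    linarith
  push Not at hδT
  rcases hT0.eq_or_lt with hz | hT
  · -- `T = 0`
    have hδ0 : δ = 0 := by linarith
    have h1 : gauge N' s' ≤ 3 / 2 * gauge N s + δ :=
      gauge_le hN' (by positivity) (fun j => by have := h32 j; have := hs3 j; linarith)
    linarith
  · have hT' : 0 < gauge N' s' := hT.trans hle
    have hne : ∃ j, s j ≠ 0 := by
      by_contra hcon
      push Not at hcon
      rw [gauge_zero hN hcon] at hT
      exact lt_irrefl _ hT
    have hne' : ∃ j, s' j ≠ 0 := by
      by_contra hcon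
      push Not at hcon
      rw [gauge_zero hN' hcon] at hT'
      exact lt_irrefl _ hT'
    have h14 := (gauge_spec hN hs hne).2
    have h14' := (gauge_spec hN' hs' hne').2
    set T := gauge N s with hTdef
    set T' := gauge N' s' with hTdef'
    have hl : 1 < T' / T := by rwa [one_lt_div hT]
    have he : ∀ j, T' / T * (s' j / T') = s' j / T := fun j => by
      field_simp
    have h1 := gauge_star hN' (x := fun j => s' j / T') (G_bdd hs') hl.le
      (by simp only [he]; exact G_bdd hs')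
    simp only [he] at h1
    rw [h14'] at h1
    have hdT : ∀ j, |s' j / T - s j / T| ≤ δ / T := by
      intro j
      rw [← sub_div, abs_div, abs_of_pos hT]
      refine div_le_div_of_nonneg_right ?_ hT.le
      rw [abs_sub_comm]
      exact hd j
    have hsT : ∀ j, |s j / T| ≤ 2 := by
      intro j
      rw [abs_div, abs_of_pos hT, div_le_iff₀ hT]
      have := h32 j
      linarith
    have hsT' : ∀ j, |s' j / T| ≤ 2 := by
      intro j
      rw [abs_div, abs_of_pos hT, div_le_iff₀ hT]
      have := h32 j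
      have := hs3 j
      linarith
    have hLG0 : 0 ≤ LG := by linarith
    have h2 := hN'.lip (fun j => G (s' j / T)) (fun j => G (s j / T)) (G_bdd hs') (G_bdd hs)
      (LG * (δ / T)) (by positivity)
      (fun j => (G_lip (hsT' j) (hsT j)).trans (mul_le_mul_of_nonneg_left (hdT j) hLG0))
    have h3 := h (fun j => G (s j / T)) (G_bdd hs)
    rw [h14] at h3
    have h4 := (abs_le.1 h2).2
    have h5 : 1 + ((2000 : ℕ) : ℝ) * (T' / T - 1) ≤ (1 + (T' / T - 1)) ^ 2000 :=
      one_add_mul_le_pow (by linarith) 2000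
    have h6 : (1 + (T' / T - 1)) = T' / T := by ring
    rw [h6] at h5
    push_cast at h5
    have h7 : 2000 * (T' / T - 1) ≤ 2 * ε + LG * (δ / T) := by linarith
    have h8 : 2000 * (T' / T - 1) * T ≤ (2 * ε + LG * (δ / T)) * T :=
      mul_le_mul_of_nonneg_right h7 hT.le
    have h9 : 2000 * (T' / T - 1) * T = 2000 * (T' - T) := by
      field_simp
    have h10 : (2 * ε + LG * (δ / T)) * T = 2 * ε * T + LG * δ := by
      field_simp
    rw [h9, h10] at h8
    have h11 : 0 ≤ LG * δ := by positivity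
    have h12 : ε / 1000 * T = 2 * ε * T / 2000 := by ring
    rw [h12]
    linarith

end Pool.Agent.Helper94.WUR
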