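import Pool.Agent.Helper94.WUR.Defs

set_option autoImplicit false

/-!
# Module TOK : the balance functional and the token of a slice
-/

namespace Pool.Agent.Helper94.WUR

/-! ### bounded sequences -/

theorem tk_above {f : ℕ → ℝ} (hf : Bdd f) : BddAbove (Set.range f) := by
  obtain ⟨M, hM⟩ := hf
  refine ⟨M, ?_⟩
  rintro _ ⟨m, rfl⟩
  exact (abs_le.1 (hM m)).2

theorem tk_below {f : ℕ → ℝ} (hf : Bdd f) : BddBelow (Set.range f) := by
  obtain ⟨M, hM⟩ := hf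
  refine ⟨-M, ?_⟩
  rintro _ ⟨m, rfl⟩
  exact (abs_le.1 (hM m)).1

theorem tk_sup_diff {f g : ℕ → ℝ} (hf : Bdd f) (hg : Bdd g) {δ : ℝ}
    (h : ∀ m, |f m - g m| ≤ δ) : |(⨆ m, f m) - ⨆ m, g m| ≤ δ := by
  have h1 : (⨆ m, f m) ≤ (⨆ m, g m) + δ := ciSup_le fun m => by
    have e1 := (abs_le.1 (h m)).2
    have e2 := le_ciSup (tk_above hg) m
    linarith
  have h2 : (⨆ m, g m) ≤ (⨆ m, f m) + δ := ciSup_le fun m => by
    have e1 := (abs_le.1 (h m)).1
    have e2 := le_ciSup (tk_above hf) m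
    linarith
  exact abs_le.2 ⟨by linarith, by linarith⟩

theorem tk_inf_diff {f g : ℕ → ℝ} (hf : Bdd f) (hg : Bdd g) {δ : ℝ}
    (h : ∀ m, |f m - g m| ≤ δ) : |(⨅ m, f m) - ⨅ m, g m| ≤ δ := by
  have h1 : (⨅ m, g m) - δ ≤ ⨅ m, f m := le_ciInf fun m => by
    have e1 := (abs_le.1 (h m)).1
    have e2 := ciInf_le (tk_below hg) m
    linarith
  have h2 : (⨅ m, f m) - δ ≤ ⨅ m, g m := le_ciInf fun m => by
    have e1 := (abs_le.1 (h m)).2
    have e2 := ciInf_le (tk_below hf) m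
    linarith
  exact abs_le.2 ⟨by linarith, by linarith⟩

theorem tk_osc_nonneg {z : ℕ → ℝ} (hz : Bdd z) : 0 ≤ osc z := by
  unfold osc
  have e1 := le_ciSup (tk_above hz) 0
  have e2 := ciInf_le (tk_below hz) 0
  linarith

theorem tk_osc_diff {z z' : ℕ → ℝ} (hz : Bdd z) (hz' : Bdd z') {δ : ℝ}
    (h : ∀ m, |z m - z' m| ≤ δ) : |osc z - osc z'| ≤ 2 * δ := by
  have e1 := abs_le.1 (tk_sup_diff hz hz' h)
  have e2 := abs_le.1 (tk_inf_diff hz hz' h)
  unfold osc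
  exact abs_le.2 ⟨by linarith [e1.1, e2.2], by linarith [e1.2, e2.1]⟩

theorem tk_osc_le {z : ℕ → ℝ} {M : ℝ} (hz : ∀ m, |z m| ≤ M) : osc z ≤ 2 * M := by
  have e1 : (⨆ m, z m) ≤ M := ciSup_le fun m => (abs_le.1 (hz m)).2
  have e2 : -M ≤ ⨅ m, z m := le_ciInf fun m => (abs_le.1 (hz m)).1
  unfold osc
  linarith

theorem tk_add {f g : ℕ → ℝ} (hf : Bdd f) (hg : Bdd g) : Bdd (fun m => f m + g m) := by
  obtain ⟨M, hM⟩ := hf
  obtain ⟨M', hM'⟩ := hg
  exact ⟨M + M', fun m => (abs_add_le _ _).trans (add_le_add (hM m) (hM' m))⟩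

theorem tk_sub {f g : ℕ → ℝ} (hf : Bdd f) (hg : Bdd g) : Bdd (fun m => f m - g m) := by
  obtain ⟨M, hM⟩ := hf
  obtain ⟨M', hM'⟩ := hg
  exact ⟨M + M', fun m => (abs_sub _ _).trans (add_le_add (hM m) (hM' m))⟩

theorem tk_mul {p : ℕ → ℝ} (hp0 : ∀ m, 0 ≤ p m) (hp1 : ∀ m, p m ≤ 1) (c : ℝ) :
    Bdd (fun m => p m * c) := by
  refine ⟨|c|, fun m => ?_⟩
  rw [abs_mul, abs_of_nonneg (hp0 m)]
  exact mul_le_of_le_one_left (abs_nonneg _) (hp1 m)

theorem tk_mul' {p : ℕ → ℝ} (hp0 : ∀ m, 0 ≤ p m) (hp1 : ∀ m, p m ≤ 1) (c : ℝ) :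
    Bdd (fun m => c * p m) := by
  have := tk_mul hp0 hp1 c
  simpa only [mul_comm] using this

/-! ### the balance functional -/

theorem lam_lip {p z z' : ℕ → ℝ} (hp0 : ∀ m, 0 ≤ p m) (hp1 : ∀ m, p m ≤ 1)
    (hz : Bdd z) (hz' : Bdd z') {δ : ℝ} (hδ : 0 ≤ δ) (h : ∀ m, |z m - z' m| ≤ δ) :
    |Lam p z - Lam p z'| ≤ 6 * δ := by
  have h0 := tk_osc_diff hz hz' h
  have hpp : ∀ m, |p m * osc z - p m * osc z'| ≤ 2 * δ := by
    intro m
    rw [← mul_sub, abs_mul, abs_of_nonneg (hp0 m)]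
    calc p m * |osc z - osc z'| ≤ 1 * |osc z - osc z'| := by gcongr; exact hp1 m
      _ ≤ 2 * δ := by rw [one_mul]; exact h0
  have h1 : |(⨆ m, (z m - p m * osc z)) - ⨆ m, (z' m - p m * osc z')| ≤ 3 * δ := by
    refine tk_sup_diff (tk_sub hz (tk_mul hp0 hp1 _)) (tk_sub hz' (tk_mul hp0 hp1 _)) fun m => ?_
    have e1 := abs_le.1 (h m)
    have e2 := abs_le.1 (hpp m)
    exact abs_le.2 ⟨by linarith [e1.1, e2.2], by linarith [e1.2, e2.1]⟩
  have h2 : |(⨅ m, (z m + p m * osc z)) - ⨅ m, (z' m + p m * osc z')| ≤ 3 * δ := by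
    refine tk_inf_diff (tk_add hz (tk_mul hp0 hp1 _)) (tk_add hz' (tk_mul hp0 hp1 _)) fun m => ?_
    have e1 := abs_le.1 (h m)
    have e2 := abs_le.1 (hpp m)
    exact abs_le.2 ⟨by linarith [e1.1, e2.1], by linarith [e1.2, e2.2]⟩
  have e1 := abs_le.1 h1
  have e2 := abs_le.1 h2
  unfold Lam
  exact abs_le.2 ⟨by linarith [e1.1, e2.1], by linarith [e1.2, e2.2]⟩

theorem lam_smul {p z : ℕ → ℝ} (hz : Bdd z) {c : ℝ} (hc : 0 ≤ c) :
    Lam p (fun m => c * z m) = c * Lam p z := by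
  have h0 : osc (fun m => c * z m) = c * osc z := by
    unfold osc
    rw [mul_sub, Real.mul_iSup_of_nonneg hc, Real.mul_iInf_of_nonneg hc]
  unfold Lam
  rw [h0, mul_add, Real.mul_iSup_of_nonneg hc, Real.mul_iInf_of_nonneg hc]
  congr 1
  · congr 1
    ext m
    ring
  · congr 1
    ext m
    ring

theorem tk_key_sup {k p z : ℕ → ℝ} (hw : Win k p) (hz : Bdd z) {ε : ℝ} (hε : 0 < ε) :
    ∃ m, k m = 1 ∧ (⨆ m, (z m - p m * osc z)) - ε ≤ z m - p m * osc z := by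
  obtain ⟨m, hm⟩ := exists_lt_of_lt_ciSup
    (show (⨆ m, (z m - p m * osc z)) - ε < ⨆ m, (z m - p m * osc z) by linarith)
  rcases (hw.k1 m).lt_or_eq with hk | hk
  · obtain ⟨n, hn, hn'⟩ := hw.full
    refine ⟨n, hn, ?_⟩
    have hp := hw.pk m hk
    rw [hp, one_mul] at hm
    rw [hn', zero_mul, sub_zero]
    have e1 := le_ciSup (tk_above hz) m
    have e2 := ciInf_le (tk_below hz) n
    unfold osc at hm
    unfold osc
    linarith
  · exact ⟨m, hk, hm.le⟩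

theorem tk_key_inf {k p z : ℕ → ℝ} (hw : Win k p) (hz : Bdd z) {ε : ℝ} (hε : 0 < ε) :
    ∃ m, k m = 1 ∧ z m + p m * osc z ≤ (⨅ m, (z m + p m * osc z)) + ε := by
  obtain ⟨m, hm⟩ := exists_lt_of_ciInf_lt
    (show (⨅ m, (z m + p m * osc z)) < (⨅ m, (z m + p m * osc z)) + ε by linarith)
  rcases (hw.k1 m).lt_or_eq with hk | hk
  · obtain ⟨n, hn, hn'⟩ := hw.full
    refine ⟨n, hn, ?_⟩
    have hp := hw.pk m hk
    rw [hp, one_mul] at hm
    rw [hn', zero_mul, add_zero]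
    have e1 := ciInf_le (tk_below hz) m
    have e2 := le_ciSup (tk_above hz) n
    unfold osc at hm
    unfold osc
    linarith
  · exact ⟨m, hk, hm.le⟩

theorem lam_slope {k p z : ℕ → ℝ} (hw : Win k p) (hz : Bdd z) {s : ℝ} (hs : 0 ≤ s) :
    Lam p z + s ≤ Lam p (fun m => z m + s * k m) := by
  have hz' : Bdd (fun m => z m + s * k m) := tk_add hz (tk_mul' hw.k0 hw.k1 s)
  -- the oscillation changes by at most `s`
  have a1 : (⨆ m, z m) ≤ ⨆ m, (z m + s * k m) := ciSup_le fun m => by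
    have e1 := le_ciSup (tk_above hz') m
    have e2 := mul_nonneg hs (hw.k0 m)
    linarith
  have a2 : (⨆ m, (z m + s * k m)) ≤ (⨆ m, z m) + s := ciSup_le fun m => by
    have e1 := le_ciSup (tk_above hz) m
    have e2 := mul_le_mul_of_nonneg_left (hw.k1 m) hs
    linarith
  have a3 : (⨅ m, z m) ≤ ⨅ m, (z m + s * k m) := le_ciInf fun m => by
    have e1 := ciInf_le (tk_below hz) m
    have e2 := mul_nonneg hs (hw.k0 m)
    linarith
  have a4 : (⨅ m, (z m + s * k m)) - s ≤ ⨅ m, z m := le_ciInf fun m => by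
    have e1 := ciInf_le (tk_below hz') m
    have e2 := mul_le_mul_of_nonneg_left (hw.k1 m) hs
    linarith
  have hO : |osc (fun m => z m + s * k m) - osc z| ≤ s := by
    unfold osc
    exact abs_le.2 ⟨by linarith, by linarith⟩
  set O := osc z with hOd
  set O' := osc (fun m => z m + s * k m) with hO'd
  refine le_of_forall_pos_le_add fun ε hε => ?_
  obtain ⟨m, hm1, hm2⟩ := tk_key_sup hw hz (half_pos hε)
  obtain ⟨n, hn1, hn2⟩ := tk_key_inf hw hz' (half_pos hε)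
  rw [← hOd] at hm2
  rw [← hO'd] at hn2
  simp only [hn1, mul_one] at hn2
  have b1 := le_ciSup (tk_above (tk_sub hz' (tk_mul hw.p0 hw.p1 O'))) m
  simp only [hm1, mul_one] at b1
  have b2 := ciInf_le (tk_below (tk_add hz (tk_mul hw.p0 hw.p1 O))) n
  have b3 : |(p n - p m) * (O' - O)| ≤ 1 * s := by
    rw [abs_mul]
    refine mul_le_mul ?_ hO (abs_nonneg _) zero_le_one
    exact abs_le.2 ⟨by linarith [hw.p0 n, hw.p1 m], by linarith [hw.p0 m, hw.p1 n]⟩
  have b4 := (abs_le.1 b3).1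
  unfold Lam
  rw [← hOd, ← hO'd]
  nlinarith

theorem lam_pen {p p' z : ℕ → ℝ} (hp0 : ∀ m, 0 ≤ p m) (hp1 : ∀ m, p m ≤ 1)
    (hp0' : ∀ m, 0 ≤ p' m) (hp1' : ∀ m, p' m ≤ 1) {η M : ℝ}
    (hη : ∀ m, |p m - p' m| ≤ η) (hz : ∀ m, |z m| ≤ M) :
    |Lam p z - Lam p' z| ≤ 4 * η * M := by
  have hzb : Bdd z := ⟨M, hz⟩
  have hη0 : 0 ≤ η := (abs_nonneg _).trans (hη 0)
  have ho := tk_osc_le hz
  have ho0 := tk_osc_nonneg hzb
  have hpp : ∀ m, |p m * osc z - p' m * osc z| ≤ 2 * η * M := by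
    intro m
    rw [← sub_mul, abs_mul, abs_of_nonneg ho0]
    calc |p m - p' m| * osc z ≤ η * (2 * M) :=
          mul_le_mul (hη m) ho ho0 hη0
      _ = 2 * η * M := by ring
  have h1 : |(⨆ m, (z m - p m * osc z)) - ⨆ m, (z m - p' m * osc z)| ≤ 2 * η * M := by
    refine tk_sup_diff (tk_sub hzb (tk_mul hp0 hp1 _)) (tk_sub hzb (tk_mul hp0' hp1' _))
      fun m => ?_
    have e2 := abs_le.1 (hpp m)
    exact abs_le.2 ⟨by linarith [e2.2], by linarith [e2.1]⟩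
  have h2 : |(⨅ m, (z m + p m * osc z)) - ⨅ m, (z m + p' m * osc z)| ≤ 2 * η * M := by
    refine tk_inf_diff (tk_add hzb (tk_mul hp0 hp1 _)) (tk_add hzb (tk_mul hp0' hp1' _))
      fun m => ?_
    have e2 := abs_le.1 (hpp m)
    exact abs_le.2 ⟨by linarith [e2.1], by linarith [e2.2]⟩
  have e1 := abs_le.1 h1
  have e2 := abs_le.1 h2
  unfold Lam
  exact abs_le.2 ⟨by linarith [e1.1, e2.1], by linarith [e1.2, e2.2]⟩

/-! ### the token -/

theorem tk_bdd {k p u : ℕ → ℝ} (hw : Win k p) (hu : Bdd u) (t : ℝ) :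
    Bdd (fun m => u m - t * k m) := tk_sub hu (tk_mul' hw.k0 hw.k1 t)

theorem tk_mono {k p u : ℕ → ℝ} (hw : Win k p) (hu : Bdd u) {t t' : ℝ} (h : t ≤ t') :
    Lam p (fun m => u m - t' * k m) + (t' - t) ≤ Lam p (fun m => u m - t * k m) := by
  have h1 := lam_slope hw (tk_bdd hw hu t') (sub_nonneg.2 h)
  have h2 : (fun m => (u m - t' * k m) + (t' - t) * k m) = fun m => u m - t * k m := by
    ext m
    ring
  rw [h2] at h1
  exact h1

theorem tk_slope {k p u : ℕ → ℝ} (hw : Win k p) (hu : Bdd u) (t t' : ℝ) :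
    |t - t'| ≤ |Lam p (fun m => u m - t * k m) - Lam p (fun m => u m - t' * k m)| := by
  rcases le_total t t' with h | h
  · have := tk_mono hw hu h
    rw [abs_of_nonpos (by linarith)]
    refine le_trans ?_ (le_abs_self _)
    linarith
  · have := tk_mono hw hu h
    rw [abs_of_nonneg (by linarith), abs_sub_comm]
    refine le_trans ?_ (le_abs_self _)
    linarith

theorem tok_spec {k p u : ℕ → ℝ} (hw : Win k p) (hu : Bdd u) :
    Lam p (fun m => u m - tok k p u * k m) = 0 := by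
  have hex : ∃ t : ℝ, Lam p (fun m => u m - t * k m) = 0 := by
    set f : ℝ → ℝ := fun t => Lam p (fun m => u m - t * k m) with hf
    have hcont : Continuous f := by
      have : LipschitzWith 6 f := by
        refine LipschitzWith.of_dist_le_mul fun t t' => ?_
        rw [Real.dist_eq, Real.dist_eq]
        refine lam_lip hw.p0 hw.p1 (tk_bdd hw hu t) (tk_bdd hw hu t') (abs_nonneg _) fun m => ?_
        have e : (u m - t * k m) - (u m - t' * k m) = -((t - t') * k m) := by ring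
        rw [e, abs_neg, abs_mul, abs_of_nonneg (hw.k0 m)]
        exact mul_le_of_le_one_right (abs_nonneg _) (hw.k1 m)
      exact this.continuous
    have h1 : f |f 0| ≤ 0 := by
      have := tk_mono hw hu (abs_nonneg (f 0))
      have e : f |f 0| + (|f 0| - 0) ≤ f 0 := this
      linarith [le_abs_self (f 0)]
    have h2 : 0 ≤ f (-|f 0|) := by
      have := tk_mono hw hu (show -|f 0| ≤ 0 by linarith [abs_nonneg (f 0)])
      have e : f 0 + (0 - -|f 0|) ≤ f (-|f 0|) := this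
      linarith [neg_abs_le (f 0)]
    obtain ⟨t, -, ht⟩ := intermediate_value_Icc'
      (show -|f 0| ≤ |f 0| by linarith [abs_nonneg (f 0)]) hcont.continuousOn ⟨h1, h2⟩
    exact ⟨t, ht⟩
  unfold tok
  rw [dif_pos hex]
  exact hex.choose_spec

theorem tok_unique {k p u : ℕ → ℝ} (hw : Win k p) (hu : Bdd u) {t : ℝ}
    (h : Lam p (fun m => u m - t * k m) = 0) : tok k p u = t := by
  have h1 := tk_slope hw hu (tok k p u) t
  rw [tok_spec hw hu, h, sub_zero, abs_zero] at h1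
  exact sub_eq_zero.1 (abs_eq_zero.1 (le_antisymm h1 (abs_nonneg _)))

theorem tok_lip {k p u u' : ℕ → ℝ} (hw : Win k p) (hu : Bdd u) (hu' : Bdd u') {δ : ℝ}
    (hδ : 0 ≤ δ) (h : ∀ m, |u m - u' m| ≤ δ) : |tok k p u - tok k p u'| ≤ 6 * δ := by
  have h1 := tk_slope hw hu (tok k p u) (tok k p u')
  rw [tok_spec hw hu] at h1
  have h2 := lam_lip hw.p0 hw.p1 (tk_bdd hw hu (tok k p u')) (tk_bdd hw hu' (tok k p u')) hδ
    (fun m => by
      have e : (u m - tok k p u' * k m) - (u' m - tok k p u' * k m) = u m - u' m := by ring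
      rw [e]
      exact h m)
  rw [tok_spec hw hu', sub_zero] at h2
  rw [zero_sub, abs_neg] at h1
  exact h1.trans h2

theorem tok_zero {k p : ℕ → ℝ} (hw : Win k p) : tok k p (fun _ => 0) = 0 := by
  refine tok_unique hw ⟨0, fun _ => by simp⟩ ?_
  have h := lam_smul (p := p) (z := fun _ => 0) ⟨0, fun _ => by simp⟩ (le_refl (0 : ℝ))
  have h := h.trans (zero_mul _)
  have e : (fun m => (0 : ℝ) - 0 * k m) = fun _ => (0 : ℝ) * 0 := by
    ext m
    ring
  rw [e]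
  exact h

theorem tok_smul {k p u : ℕ → ℝ} (hw : Win k p) (hu : Bdd u) {c : ℝ} (hc : 0 ≤ c) :
    tok k p (fun m => c * u m) = c * tok k p u := by
  obtain ⟨M, hM⟩ := hu
  refine tok_unique hw ⟨c * M, fun m => ?_⟩ ?_
  · rw [abs_mul, abs_of_nonneg hc]
    exact mul_le_mul_of_nonneg_left (hM m) hc
  · have h := lam_smul (p := p) (tk_bdd hw ⟨M, hM⟩ (tok k p u)) hc
    rw [tok_spec hw ⟨M, hM⟩, mul_zero] at h
    have e : (fun m => c * u m - c * tok k p u * k m) =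
        fun m => c * (u m - tok k p u * k m) := by
      ext m
      ring
    rw [e]
    exact h

/-- dependence of the token on the window -/
theorem tok_win {k p k' p' u : ℕ → ℝ} (hw : Win k p) (hw' : Win k' p') (hu : Bdd u)
    {η M : ℝ} (hk : ∀ m, |k m - k' m| ≤ η) (hp : ∀ m, |p m - p' m| ≤ η)
    (ht : |tok k' p' u| ≤ M) (hz : ∀ m, |u m - tok k' p' u * k' m| ≤ M) :
    |tok k p u - tok k' p' u| ≤ 10 * η * M := by
  have hη0 : 0 ≤ η := (abs_nonneg _).trans (hk 0)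
  have hM0 : 0 ≤ M := (abs_nonneg _).trans ht
  have h1 := tk_slope hw hu (tok k p u) (tok k' p' u)
  rw [tok_spec hw hu, zero_sub, abs_neg] at h1
  have h2 := lam_lip hw.p0 hw.p1 (tk_bdd hw hu (tok k' p' u)) (tk_bdd hw' hu (tok k' p' u))
    (mul_nonneg hM0 hη0) (fun m => by
      have e : (u m - tok k' p' u * k m) - (u m - tok k' p' u * k' m) =
        -(tok k' p' u * (k m - k' m)) := by ring
      rw [e, abs_neg, abs_mul]
      exact mul_le_mul ht (hk m) (abs_nonneg _) hM0)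
  have h3 := lam_pen hw.p0 hw.p1 hw'.p0 hw'.p1 hp hz
  rw [tok_spec hw' hu, sub_zero] at h3
  have e1 := abs_le.1 h2
  have e2 := abs_le.1 h3
  refine h1.trans (abs_le.2 ⟨?_, ?_⟩)
  · nlinarith [e1.1, e2.1]
  · nlinarith [e1.2, e2.2]

end Pool.Agent.Helper94.WUR
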