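import Pool.Agent.Helper94.WUR.Defs
import Pool.Agent.Helper94.WUR.Tok
import Pool.Agent.Helper94.WUR.GFun

/-!
# The fibre maps: algebra (module MAPA)
-/

set_option autoImplicit false

namespace Pool.Agent.Helper94.WUR

/-- the bent fibre vector -/
noncomputable def bent (T : ℝ) (s : J → ℝ) : J → ℝ := fun j => G (s j / T)

theorem bdd_bent {T : ℝ} {s : J → ℝ} (hs : Bdd s) : Bdd (bent T s) := G_bdd hs

theorem bdd_row {f : J → ℝ} (hf : Bdd f) (i : ℕ) : Bdd (row f i) := by
  obtain ⟨M, hM⟩ := hf
  exact ⟨M, fun m => hM _⟩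

theorem bdd_lin {k p : ℕ → ℝ} (hw : Win k p) {u : ℕ → ℝ} (hu : Bdd u) (t : ℝ) :
    Bdd (fun m => u m - t * k m) := by
  obtain ⟨M, hM⟩ := hu
  refine ⟨M + |t|, fun m => ?_⟩
  have h1 : |k m| ≤ 1 := abs_le.2 ⟨by linarith [hw.k0 m], hw.k1 m⟩
  calc |u m - t * k m| ≤ |u m| + |t * k m| := abs_sub _ _
    _ ≤ M + |t| := by
      rw [abs_mul]
      have := mul_le_mul_of_nonneg_left h1 (abs_nonneg t)
      rw [mul_one] at this
      exact add_le_add (hM m) this

/-- If the row is a balanced part plus `t k`, then its token is `t`. -/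
theorem tok_of_shift {k p : ℕ → ℝ} (hw : Win k p) {u w : ℕ → ℝ} (hu : Bdd u) {t : ℝ}
    (h : ∀ m, w m = u m - tok k p u * k m + t * k m) : tok k p w = t := by
  have hwb : Bdd w := by
    have h1 := bdd_lin hw hu (tok k p u - t)
    have h2 : w = fun m => u m - (tok k p u - t) * k m := by
      funext m
      rw [h m]; ring
    rw [h2]; exact h1
  apply tok_unique hw hwb
  have h3 : (fun m => w m - t * k m) = fun m => u m - tok k p u * k m := by
    funext m
    rw [h m]; ring
  rw [h3]
  exact tok_spec hw hu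

theorem G_div_H {T : ℝ} (hT : 0 < T) (x : ℝ) : G (T * H x / T) = x := by
  rw [mul_div_cancel_left₀ _ hT.ne', G_H]

theorem T_H_G {T : ℝ} (hT : 0 < T) (x : ℝ) : T * H (G (x / T)) = x := by
  rw [H_G, mul_div_cancel₀ _ hT.ne']

section

variable {k p : ℕ → ℝ} {T : ℝ}

theorem bent_fwd_none (hT : 0 < T) (s : J → ℝ) :
    bent T (fwd k p T s) none = tok k p (row (bent T s) 0) := G_div_H hT _

theorem bent_fwd_some (hT : 0 < T) (s : J → ℝ) (i m : ℕ) :
    bent T (fwd k p T s) (some (i, m)) = bent T s (some (i, m))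
      - tok k p (row (bent T s) i) * k m + tok k p (row (bent T s) (i + 1)) * k m :=
  G_div_H hT _

theorem tok_fwd (hw : Win k p) (hT : 0 < T) {s : J → ℝ} (hs : Bdd s) (i : ℕ) :
    tok k p (row (bent T (fwd k p T s)) i) = tok k p (row (bent T s) (i + 1)) :=
  tok_of_shift hw (bdd_row (bdd_bent hs) i) fun m => bent_fwd_some hT s i m

theorem inTok_fwd (hw : Win k p) (hT : 0 < T) {s : J → ℝ} (hs : Bdd s) (i : ℕ) :
    inTok k p T (fwd k p T s) i = tok k p (row (bent T s) i) := by
  cases i with
  | zero => exact bent_fwd_none hT s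
  | succ i => exact tok_fwd hw hT hs i

theorem bent_bwd_none (y : J → ℝ) : bent T (bwd k p T y) none = 0 := by
  change G (0 / T) = 0
  rw [zero_div, G_zero]

theorem bent_bwd_some (hT : 0 < T) (y : J → ℝ) (i m : ℕ) :
    bent T (bwd k p T y) (some (i, m)) = bent T y (some (i, m))
      - tok k p (row (bent T y) i) * k m + inTok k p T y i * k m :=
  G_div_H hT _

theorem tok_bwd (hw : Win k p) (hT : 0 < T) {y : J → ℝ} (hy : Bdd y) (i : ℕ) :
    tok k p (row (bent T (bwd k p T y)) i) = inTok k p T y i :=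
  tok_of_shift hw (bdd_row (bdd_bent hy) i) fun m => bent_bwd_some hT y i m

end

theorem bwd_fwd {k p : ℕ → ℝ} (hw : Win k p) {T : ℝ} (hT : 0 < T) {s : J → ℝ} (hs : Bdd s)
    (h0 : s none = 0) : bwd k p T (fwd k p T s) = s := by
  funext j
  match j with
  | none => exact h0.symm
  | some (i, m) =>
    change T * H (bent T (fwd k p T s) (some (i, m))
      - tok k p (row (bent T (fwd k p T s)) i) * k m
      + inTok k p T (fwd k p T s) i * k m) = s (some (i, m))
    rw [bent_fwd_some hT, tok_fwd hw hT hs, inTok_fwd hw hT hs]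
    have h1 : bent T s (some (i, m)) - tok k p (row (bent T s) i) * k m
        + tok k p (row (bent T s) (i + 1)) * k m - tok k p (row (bent T s) (i + 1)) * k m
        + tok k p (row (bent T s) i) * k m = G (s (some (i, m)) / T) := by
      change bent T s (some (i, m)) - tok k p (row (bent T s) i) * k m
        + tok k p (row (bent T s) (i + 1)) * k m - tok k p (row (bent T s) (i + 1)) * k m
        + tok k p (row (bent T s) i) * k m = bent T s (some (i, m))
      ring
    rw [h1, T_H_G hT]

theorem fwd_bwd {k p : ℕ → ℝ} (hw : Win k p) {T : ℝ} (hT : 0 < T) {y : J → ℝ} (hy : Bdd y) :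
    fwd k p T (bwd k p T y) = y := by
  funext j
  match j with
  | none =>
    change T * H (tok k p (row (bent T (bwd k p T y)) 0)) = y none
    rw [tok_bwd hw hT hy]
    exact T_H_G hT _
  | some (i, m) =>
    change T * H (bent T (bwd k p T y) (some (i, m))
      - tok k p (row (bent T (bwd k p T y)) i) * k m
      + tok k p (row (bent T (bwd k p T y)) (i + 1)) * k m) = y (some (i, m))
    rw [bent_bwd_some hT, tok_bwd hw hT hy, tok_bwd hw hT hy]
    have h1 : bent T y (some (i, m)) - tok k p (row (bent T y) i) * k m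
        + inTok k p T y i * k m - inTok k p T y i * k m
        + inTok k p T y (i + 1) * k m = G (y (some (i, m)) / T) := by
      change bent T y (some (i, m)) - tok k p (row (bent T y) i) * k m
        + inTok k p T y i * k m - inTok k p T y i * k m
        + tok k p (row (bent T y) i) * k m = bent T y (some (i, m))
      ring
    rw [h1, T_H_G hT]

/-- the decomposition of a bounded vector is bounded -/
theorem bdd_dc {k p : ℕ → ℝ} (hw : Win k p) {f : J → ℝ} (hf : Bdd f) :
    BddAbove (Set.range fun j => |dc k p f j|) := by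
  obtain ⟨M, hM⟩ := hf
  have hM0 : 0 ≤ M := (abs_nonneg _).trans (hM none)
  have ht : ∀ i, |tok k p (row f i)| ≤ 6 * M := by
    intro i
    have h1 := tok_lip hw (u := row f i) (u' := fun _ => 0) ⟨M, fun m => hM _⟩
      ⟨0, fun m => by simp⟩ hM0 (fun m => by
        rw [sub_zero]
        exact hM (some (i, m)))
    rwa [tok_zero hw, sub_zero] at h1
  refine ⟨7 * M, ?_⟩
  rintro _ ⟨j, rfl⟩
  match j with
  | none =>
    change |f none| ≤ 7 * M
    linarith [hM none]
  | some (i, none) =>
    change |tok k p (row f i)| ≤ 7 * M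
    linarith [ht i]
  | some (i, some m) =>
    change |f (some (i, m)) - tok k p (row f i) * k m| ≤ 7 * M
    have h1 : |k m| ≤ 1 := abs_le.2 ⟨by linarith [hw.k0 m], hw.k1 m⟩
    have h2 := mul_le_mul_of_nonneg_left h1 (abs_nonneg (tok k p (row f i)))
    calc |f (some (i, m)) - tok k p (row f i) * k m|
        ≤ |f (some (i, m))| + |tok k p (row f i) * k m| := abs_sub _ _
      _ ≤ M + 6 * M := by
        rw [abs_mul]
        linarith [hM (some (i, m)), ht i]
      _ = 7 * M := by ring

theorem NF_nonneg' {k p : ℕ → ℝ} (f : J → ℝ) : 0 ≤ NF k p f :=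
  Real.iSup_nonneg fun _ => abs_nonneg _

theorem NF_le_of {k p : ℕ → ℝ} (hw : Win k p) {f g : J → ℝ} (hg : Bdd g)
    (h : ∀ j, dc k p f j = 0 ∨ ∃ j', dc k p f j = dc k p g j') : NF k p f ≤ NF k p g := by
  apply ciSup_le
  intro j
  rcases h j with h | ⟨j', h⟩
  · rw [h, abs_zero]
    exact NF_nonneg' g
  · rw [h]
    exact le_ciSup (bdd_dc hw hg) j'

theorem bdd_of_bent_some {k p : ℕ → ℝ} (hw : Win k p) {u w : J → ℝ} (hu : Bdd u) {τ : ℕ → ℝ}
    {c M : ℝ} (hn : |w none| ≤ c) (hτ : ∀ i, |τ i| ≤ M)
    (h : ∀ i m, w (some (i, m)) = u (some (i, m)) - tok k p (row u i) * k m + τ i * k m) :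
    Bdd w := by
  obtain ⟨B, hB⟩ := bdd_dc hw hu
  have hB' : ∀ j, |dc k p u j| ≤ B := fun j => hB ⟨j, rfl⟩
  have hM0 : 0 ≤ M := (abs_nonneg _).trans (hτ 0)
  refine ⟨max c (B + M), fun j => ?_⟩
  match j with
  | none => exact hn.trans (le_max_left _ _)
  | some (i, m) =>
    refine le_trans ?_ (le_max_right _ _)
    rw [h i m]
    have h1 : |k m| ≤ 1 := abs_le.2 ⟨by linarith [hw.k0 m], hw.k1 m⟩
    have h2 := mul_le_mul (hτ i) h1 (abs_nonneg _) hM0
    have h3 := hB' (some (i, some m))
    change |u (some (i, m)) - tok k p (row u i) * k m| ≤ B at h3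
    calc |u (some (i, m)) - tok k p (row u i) * k m + τ i * k m|
        ≤ |u (some (i, m)) - tok k p (row u i) * k m| + |τ i * k m| := abs_add_le _ _
      _ ≤ B + M := by
        rw [abs_mul]
        linarith

theorem tok_bdd {k p : ℕ → ℝ} (hw : Win k p) {f : J → ℝ} (hf : Bdd f) :
    ∃ B, 0 ≤ B ∧ ∀ i, |tok k p (row f i)| ≤ B := by
  obtain ⟨B, hB⟩ := bdd_dc hw hf
  have hB' : ∀ j, |dc k p f j| ≤ B := fun j => hB ⟨j, rfl⟩
  exact ⟨B, (abs_nonneg _).trans (hB' none), fun i => hB' (some (i, none))⟩

theorem NF_fwd {k p : ℕ → ℝ} (hw : Win k p) {T : ℝ} (hT : 0 < T) {s : J → ℝ} (hs : Bdd s)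
    (h0 : s none = 0) :
    NF k p (fun j => G (fwd k p T s j / T)) = NF k p (fun j => G (s j / T)) := by
  change NF k p (bent T (fwd k p T s)) = NF k p (bent T s)
  obtain ⟨B, hB0, hB⟩ := tok_bdd hw (bdd_bent (T := T) hs)
  have hb : Bdd (bent T (fwd k p T s)) :=
    bdd_of_bent_some hw (bdd_bent hs) (τ := fun i => tok k p (row (bent T s) (i + 1)))
      (c := B) (M := B) (by rw [bent_fwd_none hT]; exact hB 0) (fun i => hB _)
      (fun i m => bent_fwd_some hT s i m)
  have hn : bent T s none = 0 := by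
    change G (s none / T) = 0
    rw [h0, zero_div, G_zero]
  apply le_antisymm
  · apply NF_le_of hw (bdd_bent hs)
    intro j
    match j with
    | none => exact Or.inr ⟨some (0, none), bent_fwd_none hT s⟩
    | some (i, none) => exact Or.inr ⟨some (i + 1, none), tok_fwd hw hT hs i⟩
    | some (i, some m) =>
      refine Or.inr ⟨some (i, some m), ?_⟩
      change bent T (fwd k p T s) (some (i, m)) - tok k p (row (bent T (fwd k p T s)) i) * k m
        = bent T s (some (i, m)) - tok k p (row (bent T s) i) * k m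
      rw [bent_fwd_some hT, tok_fwd hw hT hs]
      ring
  · apply NF_le_of hw hb
    intro j
    match j with
    | none => exact Or.inl hn
    | some (0, none) => exact Or.inr ⟨none, (bent_fwd_none hT s).symm⟩
    | some (i + 1, none) => exact Or.inr ⟨some (i, none), (tok_fwd hw hT hs i).symm⟩
    | some (i, some m) =>
      refine Or.inr ⟨some (i, some m), ?_⟩
      change bent T s (some (i, m)) - tok k p (row (bent T s) i) * k m =
        bent T (fwd k p T s) (some (i, m)) - tok k p (row (bent T (fwd k p T s)) i) * k m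
      rw [bent_fwd_some hT, tok_fwd hw hT hs]
      ring

theorem NF_bwd {k p : ℕ → ℝ} (hw : Win k p) {T : ℝ} (hT : 0 < T) {y : J → ℝ} (hy : Bdd y) :
    NF k p (fun j => G (bwd k p T y j / T)) = NF k p (fun j => G (y j / T)) := by
  change NF k p (bent T (bwd k p T y)) = NF k p (bent T y)
  obtain ⟨B, hB0, hB⟩ := tok_bdd hw (bdd_bent (T := T) hy)
  have hin : ∀ i, |inTok k p T y i| ≤ max |bent T y none| B := by
    intro i
    cases i with
    | zero => exact le_max_left _ _
    | succ i => exact (hB i).trans (le_max_right _ _)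
  have hb : Bdd (bent T (bwd k p T y)) :=
    bdd_of_bent_some hw (bdd_bent hy) (τ := inTok k p T y)
      (c := 0) (M := max |bent T y none| B) (by rw [bent_bwd_none, abs_zero]) hin
      (fun i m => bent_bwd_some hT y i m)
  apply le_antisymm
  · apply NF_le_of hw (bdd_bent hy)
    intro j
    match j with
    | none => exact Or.inl (bent_bwd_none y)
    | some (0, none) => exact Or.inr ⟨none, tok_bwd hw hT hy 0⟩
    | some (i + 1, none) => exact Or.inr ⟨some (i, none), tok_bwd hw hT hy (i + 1)⟩
    | some (i, some m) =>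
      refine Or.inr ⟨some (i, some m), ?_⟩
      change bent T (bwd k p T y) (some (i, m)) - tok k p (row (bent T (bwd k p T y)) i) * k m
        = bent T y (some (i, m)) - tok k p (row (bent T y) i) * k m
      rw [bent_bwd_some hT, tok_bwd hw hT hy]
      ring
  · apply NF_le_of hw hb
    intro j
    match j with
    | none => exact Or.inr ⟨some (0, none), (tok_bwd hw hT hy 0).symm⟩
    | some (i, none) => exact Or.inr ⟨some (i + 1, none), (tok_bwd hw hT hy (i + 1)).symm⟩
    | some (i, some m) =>
      refine Or.inr ⟨some (i, some m), ?_⟩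
      change bent T y (some (i, m)) - tok k p (row (bent T y) i) * k m =
        bent T (bwd k p T y) (some (i, m)) - tok k p (row (bent T (bwd k p T y)) i) * k m
      rw [bent_bwd_some hT, tok_bwd hw hT hy]
      ring

theorem fwd_of_k {k p : ℕ → ℝ} {T : ℝ} (hT : 0 < T) (s : J → ℝ) {m : ℕ} (hm : k m = 0) (i : ℕ) :
    fwd k p T s (some (i, m)) = s (some (i, m)) := by
  change T * H (G (s (some (i, m)) / T) - tok k p (row (bent T s) i) * k m
      + tok k p (row (bent T s) (i + 1)) * k m) = s (some (i, m))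
  rw [hm, mul_zero, mul_zero, sub_zero, add_zero, T_H_G hT]

theorem bwd_of_k {k p : ℕ → ℝ} {T : ℝ} (hT : 0 < T) (s : J → ℝ) {m : ℕ} (hm : k m = 0) (i : ℕ) :
    bwd k p T s (some (i, m)) = s (some (i, m)) := by
  change T * H (G (s (some (i, m)) / T) - tok k p (row (bent T s) i) * k m
      + inTok k p T s i * k m) = s (some (i, m))
  rw [hm, mul_zero, mul_zero, sub_zero, add_zero, T_H_G hT]

end Pool.Agent.Helper94.WUR
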