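import Pool.Agent.Helper94.WUR.Defs
import Pool.Agent.Helper94.WUR.Tok
import Pool.Agent.Helper94.WUR.GFun
import Pool.Agent.Helper94.WUR.Fib

/-!
# Module MAPB: bounds and Lipschitz estimates for the fibre maps
-/

set_option autoImplicit false

namespace Pool.Agent.Helper94.WUR

/-- a bounded fibre vector has bounded rows -/
private theorem row_bdd {f : J → ℝ} (hf : Bdd f) (i : ℕ) : Bdd (row f i) := by
  obtain ⟨M, hM⟩ := hf
  exact ⟨M, fun m => hM (some (i, m))⟩

/-- tokens, balanced parts and entries are controlled by `NF` -/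
private theorem parts_le {k p : ℕ → ℝ} (hw : Win k p) {f : J → ℝ} (hf : Bdd f)
    (hN : NF k p f ≤ 14) :
    |f none| ≤ 14 ∧ (∀ i, |tok k p (row f i)| ≤ 14) ∧
      (∀ i m, |f (some (i, m)) - tok k p (row f i) * k m| ≤ 14) := by
  refine ⟨?_, ?_, ?_⟩
  · exact (dc_le_NF hw hf none).trans hN
  · intro i
    exact (dc_le_NF hw hf (some (i, none))).trans hN
  · intro i m
    exact (dc_le_NF hw hf (some (i, some m))).trans hN

private theorem abs_mul_k {k p : ℕ → ℝ} (hw : Win k p) (t : ℝ) (m : ℕ) : |t * k m| ≤ |t| := by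
  rw [abs_mul, abs_of_nonneg (hw.k0 m)]
  exact mul_le_of_le_one_right (abs_nonneg t) (hw.k1 m)

/-- all entries are at most `28` -/
private theorem entry_le {k p : ℕ → ℝ} (hw : Win k p) {f : J → ℝ} (hf : Bdd f)
    (hN : NF k p f ≤ 14) (j : J) : |f j| ≤ 28 := by
  obtain ⟨h0, h1, h2⟩ := parts_le hw hf hN
  rcases j with _ | ⟨i, m⟩
  · linarith
  · have a := h2 i m
    have b := (abs_mul_k hw (tok k p (row f i)) m).trans (h1 i)
    have c : f (some (i, m)) = (f (some (i, m)) - tok k p (row f i) * k m)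
        + tok k p (row f i) * k m := by ring
    rw [c]
    exact (abs_add_le _ _).trans (by linarith)

/-- `T * H v` is bounded by `2 T` -/
private theorem mul_H_le {T v : ℝ} (hT : 0 ≤ T) (hv : |v| ≤ 28) : |T * H v| ≤ 2 * T := by
  have h := H_le_of_le hv
  rw [abs_mul, abs_of_nonneg hT]
  nlinarith [abs_nonneg (H v)]

theorem fwd_bound {k p : ℕ → ℝ} (hw : Win k p) {T : ℝ} (hT : 0 ≤ T) {s : J → ℝ} (hs : Bdd s)
    (hN : NF k p (fun j => G (s j / T)) ≤ 14) (j : J) : |fwd k p T s j| ≤ 2 * T := by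
  have hf : Bdd (fun j => G (s j / T)) := G_bdd hs
  obtain ⟨h0, h1, h2⟩ := parts_le hw hf hN
  rcases j with _ | ⟨i, m⟩
  · simp only [fwd]
    exact mul_H_le hT ((h1 0).trans (by norm_num))
  · simp only [fwd]
    refine mul_H_le hT ((abs_add_le _ _).trans ?_)
    have a := h2 i m
    have b := (abs_mul_k hw (tok k p (row (fun j => G (s j / T)) (i + 1))) m).trans (h1 (i + 1))
    linarith

private theorem inTok_le {k p : ℕ → ℝ} (hw : Win k p) {T : ℝ} {s : J → ℝ} (hs : Bdd s)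
    (hN : NF k p (fun j => G (s j / T)) ≤ 14) (i : ℕ) : |inTok k p T s i| ≤ 14 := by
  have hf : Bdd (fun j => G (s j / T)) := G_bdd hs
  obtain ⟨h0, h1, h2⟩ := parts_le hw hf hN
  rcases i with _ | i
  · exact h0
  · exact h1 i

theorem bwd_bound {k p : ℕ → ℝ} (hw : Win k p) {T : ℝ} (hT : 0 ≤ T) {s : J → ℝ} (hs : Bdd s)
    (hN : NF k p (fun j => G (s j / T)) ≤ 14) (j : J) : |bwd k p T s j| ≤ 2 * T := by
  have hf : Bdd (fun j => G (s j / T)) := G_bdd hs
  obtain ⟨h0, h1, h2⟩ := parts_le hw hf hN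
  rcases j with _ | ⟨i, m⟩
  · simp only [bwd, abs_zero]
    linarith
  · simp only [bwd]
    refine mul_H_le hT ((abs_add_le _ _).trans ?_)
    have a := h2 i m
    have b := (abs_mul_k hw (inTok k p T s i) m).trans (inTok_le hw hs hN i)
    linarith

/-- the estimate for the bent entries -/
private theorem G_diff {T T' : ℝ} (hT : 0 < T) (hT' : 0 < T') {a a' D δ : ℝ}
    (ha : |G (a / T)| ≤ 28) (ha' : |G (a' / T')| ≤ 28) (hD : |T - T'| ≤ D) (hd : |a - a'| ≤ δ) :
    T' * |G (a / T) - G (a' / T')| ≤ LG * (δ + 3 / 2 * D) := by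
  have hx := abs_le_of_G ha
  have hx' := abs_le_of_G ha'
  have hl := G_lip (x := a / T) (y := a' / T') (by linarith) (by linarith)
  have hLG : 0 ≤ LG := by linarith [LG_ge]
  have key : T' * |a / T - a' / T'| ≤ δ + 3 / 2 * D := by
    have e : T' * (a / T - a' / T') = (T' - T) * (a / T) + (a - a') := by
      field_simp
      ring
    rw [← abs_of_pos hT', ← abs_mul, abs_of_pos hT', e]
    refine (abs_add_le _ _).trans ?_
    rw [abs_mul, abs_sub_comm T' T]
    have : |T - T'| * |a / T| ≤ D * (3 / 2) :=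
      mul_le_mul hD hx (abs_nonneg _) ((abs_nonneg _).trans hD)
    linarith
  calc T' * |G (a / T) - G (a' / T')| ≤ T' * (LG * |a / T - a' / T'|) :=
        mul_le_mul_of_nonneg_left hl hT'.le
    _ = LG * (T' * |a / T - a' / T'|) := by ring
    _ ≤ LG * (δ + 3 / 2 * D) := mul_le_mul_of_nonneg_left key hLG

/-- the estimate for `T * H v` -/
private theorem mul_H_diff {T T' : ℝ} (hT' : 0 < T') {v v' D B : ℝ}
    (hv : |v| ≤ 28) (hD : |T - T'| ≤ D) (hB : T' * |v - v'| ≤ B) :
    |T * H v - T' * H v'| ≤ B + 3 / 2 * D := by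
  have e : T * H v - T' * H v' = T' * (H v - H v') + (T - T') * H v := by ring
  rw [e]
  refine (abs_add_le _ _).trans ?_
  rw [abs_mul, abs_mul, abs_of_pos hT']
  have h1 : T' * |H v - H v'| ≤ T' * |v - v'| := mul_le_mul_of_nonneg_left (H_lip v v') hT'.le
  have h2 : |T - T'| * |H v| ≤ D * (3 / 2) :=
    mul_le_mul hD (H_le_of_le hv) (abs_nonneg _) ((abs_nonneg _).trans hD)
  linarith

/-- the product of a token and a weight -/
private theorem tk_diff {k p k' : ℕ → ℝ} (hw : Win k p) {T' t t' η D B : ℝ} (hT' : 0 < T')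
    (ht' : |t'| ≤ 14) (hη : η * T' ≤ D) {m : ℕ} (hk : |k m - k' m| ≤ η)
    (hB : T' * |t - t'| ≤ B) : T' * |t * k m - t' * k' m| ≤ B + 14 * D := by
  have e : t * k m - t' * k' m = (t - t') * k m + t' * (k m - k' m) := by ring
  have h1 : |(t - t') * k m| ≤ |t - t'| := abs_mul_k hw _ m
  have h2 : |t' * (k m - k' m)| ≤ 14 * η := by
    rw [abs_mul]
    exact mul_le_mul ht' hk (abs_nonneg _) (by norm_num)
  have h3 : |t * k m - t' * k' m| ≤ |t - t'| + 14 * η := by
    rw [e]
    exact (abs_add_le _ _).trans (by linarith)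
  calc T' * |t * k m - t' * k' m| ≤ T' * (|t - t'| + 14 * η) :=
        mul_le_mul_of_nonneg_left h3 hT'.le
    _ = T' * |t - t'| + 14 * (η * T') := by ring
    _ ≤ B + 14 * D := by linarith

/-- the tokens of two bent fibre vectors -/
private theorem tok_diff {k p k' p' : ℕ → ℝ} (hw : Win k p) (hw' : Win k' p') {T T' : ℝ}
    (hT : 0 < T) (hT' : 0 < T') {s s' : J → ℝ} (hs : Bdd s) (hs' : Bdd s')
    (hN : NF k p (fun j => G (s j / T)) ≤ 14) (hN' : NF k' p' (fun j => G (s' j / T')) ≤ 14)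
    {η D δ : ℝ} (hδ : 0 ≤ δ) (hk : ∀ m, |k m - k' m| ≤ η) (hp : ∀ m, |p m - p' m| ≤ η)
    (hη : η * T' ≤ D) (hD : |T - T'| ≤ D) (hd : ∀ j, |s j - s' j| ≤ δ) (i : ℕ) :
    T' * |tok k p (row (fun j => G (s j / T)) i) - tok k' p' (row (fun j => G (s' j / T')) i)|
      ≤ 6 * (LG * (δ + 3 / 2 * D)) + 140 * D := by
  have hf : Bdd (fun j => G (s j / T)) := G_bdd hs
  have hf' : Bdd (fun j => G (s' j / T')) := G_bdd hs'
  obtain ⟨h0', h1', h2'⟩ := parts_le hw' hf' hN'
  have hLG : 0 ≤ LG := by linarith [LG_ge]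
  have hD0 : 0 ≤ D := (abs_nonneg _).trans hD
  set E : ℝ := LG * (δ + 3 / 2 * D) with hE
  have hE0 : 0 ≤ E := by positivity
  have hu : ∀ m, |row (fun j => G (s j / T)) i m - row (fun j => G (s' j / T')) i m| ≤ E / T' := by
    intro m
    rw [le_div_iff₀ hT', mul_comm]
    exact G_diff hT hT' (entry_le hw hf hN (some (i, m))) (entry_le hw' hf' hN' (some (i, m)))
      hD (hd (some (i, m)))
  have a := tok_lip hw (row_bdd hf i) (row_bdd hf' i) (div_nonneg hE0 hT'.le) hu
  have b := tok_win hw hw' (row_bdd hf' i) hk hp (h1' i) (fun m => h2' i m)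
  have c : |tok k p (row (fun j => G (s j / T)) i) - tok k' p' (row (fun j => G (s' j / T')) i)|
      ≤ 6 * (E / T') + 10 * η * 14 := by
    refine (abs_sub_le _ (tok k p (row (fun j => G (s' j / T')) i)) _).trans ?_
    linarith
  calc T' * |tok k p (row (fun j => G (s j / T)) i)
        - tok k' p' (row (fun j => G (s' j / T')) i)|
        ≤ T' * (6 * (E / T') + 10 * η * 14) := mul_le_mul_of_nonneg_left c hT'.le
    _ = 6 * E + 140 * (η * T') := by
        field_simp
        ring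
    _ ≤ 6 * E + 140 * D := by linarith

/-- the final numerical estimate -/
private theorem fin_est {D δ : ℝ} (hD : 0 ≤ D) (hδ : 0 ≤ δ) :
    (LG * (δ + 3 / 2 * D)) + (6 * (LG * (δ + 3 / 2 * D)) + 140 * D + 14 * D)
      + (6 * (LG * (δ + 3 / 2 * D)) + 140 * D + 14 * D) + 3 / 2 * D ≤ 100 * LG * (D + δ) := by
  have h := LG_ge
  have h1 : 100 * D ≤ LG * D := mul_le_mul_of_nonneg_right h hD
  have h2 : 0 ≤ LG * D := by positivity
  have h3 : 0 ≤ LG * δ := mul_nonneg (by linarith) hδ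
  nlinarith

/-- the balanced parts plus a new token: the difference of the arguments of `H` -/
private theorem arg_diff {k k' : ℕ → ℝ} {T' a a' t t' r r' B₁ B₂ B₃ : ℝ} (hT' : 0 < T')
    {m : ℕ} (h1 : T' * |a - a'| ≤ B₁) (h2 : T' * |t * k m - t' * k' m| ≤ B₂)
    (h3 : T' * |r * k m - r' * k' m| ≤ B₃) :
    T' * |(a - t * k m + r * k m) - (a' - t' * k' m + r' * k' m)| ≤ B₁ + B₂ + B₃ := by
  have e : (a - t * k m + r * k m) - (a' - t' * k' m + r' * k' m)
      = (a - a') - (t * k m - t' * k' m) + (r * k m - r' * k' m) := by ring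
  have h : |(a - a') - (t * k m - t' * k' m) + (r * k m - r' * k' m)|
      ≤ |a - a'| + |t * k m - t' * k' m| + |r * k m - r' * k' m| := by
    refine (abs_add_le _ _).trans ?_
    have := abs_sub (a - a') (t * k m - t' * k' m)
    linarith
  rw [e]
  calc T' * |(a - a') - (t * k m - t' * k' m) + (r * k m - r' * k' m)|
      ≤ T' * (|a - a'| + |t * k m - t' * k' m| + |r * k m - r' * k' m|) :=
        mul_le_mul_of_nonneg_left h hT'.le
    _ = T' * |a - a'| + T' * |t * k m - t' * k' m| + T' * |r * k m - r' * k' m| := by ring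
    _ ≤ B₁ + B₂ + B₃ := by linarith

theorem fwd_lip {k p k' p' : ℕ → ℝ} (hw : Win k p) (hw' : Win k' p') {T T' : ℝ}
    (hT : 0 < T) (hT' : 0 < T') {s s' : J → ℝ} (hs : Bdd s) (hs' : Bdd s')
    (hN : NF k p (fun j => G (s j / T)) ≤ 14) (hN' : NF k' p' (fun j => G (s' j / T')) ≤ 14)
    {η D δ : ℝ} (hδ : 0 ≤ δ) (hk : ∀ m, |k m - k' m| ≤ η) (hp : ∀ m, |p m - p' m| ≤ η)
    (hη : η * max T T' ≤ D) (hD : |T - T'| ≤ D) (hd : ∀ j, |s j - s' j| ≤ δ) (j : J) :
    |fwd k p T s j - fwd k' p' T' s' j| ≤ 100 * LG * (D + δ) := by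
  have hη0 : 0 ≤ η := (abs_nonneg _).trans (hk 0)
  have hD0 : 0 ≤ D := (abs_nonneg _).trans hD
  have hηT : η * T' ≤ D := (mul_le_mul_of_nonneg_left (le_max_right T T') hη0).trans hη
  have hLG : 0 ≤ LG := by linarith [LG_ge]
  have hf : Bdd (fun j => G (s j / T)) := G_bdd hs
  have hf' : Bdd (fun j => G (s' j / T')) := G_bdd hs'
  obtain ⟨h0, h1, h2⟩ := parts_le hw hf hN
  obtain ⟨h0', h1', h2'⟩ := parts_le hw' hf' hN'
  have htok := tok_diff hw hw' hT hT' hs hs' hN hN' hδ hk hp hηT hD hd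
  have hfin := fin_est hD0 hδ
  have hE0 : 0 ≤ LG * (δ + 3 / 2 * D) := by positivity
  rcases j with _ | ⟨i, m⟩
  · simp only [fwd]
    refine (mul_H_diff hT' ((h1 0).trans (by norm_num)) hD (htok 0)).trans ?_
    linarith
  · simp only [fwd]
    have hv : |G (s (some (i, m)) / T) - tok k p (row (fun j => G (s j / T)) i) * k m
        + tok k p (row (fun j => G (s j / T)) (i + 1)) * k m| ≤ 28 := by
      refine (abs_add_le _ _).trans ?_
      have a := h2 i m
      have b := (abs_mul_k hw (tok k p (row (fun j => G (s j / T)) (i + 1))) m).trans (h1 (i + 1))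
      linarith
    refine (mul_H_diff hT' hv hD (arg_diff hT'
      (G_diff hT hT' (entry_le hw hf hN (some (i, m))) (entry_le hw' hf' hN' (some (i, m)))
        hD (hd (some (i, m))))
      (tk_diff hw hT' (h1' i) hηT (hk m) (htok i))
      (tk_diff hw hT' (h1' (i + 1)) hηT (hk m) (htok (i + 1))))).trans ?_
    linarith

theorem bwd_lip {k p k' p' : ℕ → ℝ} (hw : Win k p) (hw' : Win k' p') {T T' : ℝ}
    (hT : 0 < T) (hT' : 0 < T') {s s' : J → ℝ} (hs : Bdd s) (hs' : Bdd s')
    (hN : NF k p (fun j => G (s j / T)) ≤ 14) (hN' : NF k' p' (fun j => G (s' j / T')) ≤ 14)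
    {η D δ : ℝ} (hδ : 0 ≤ δ) (hk : ∀ m, |k m - k' m| ≤ η) (hp : ∀ m, |p m - p' m| ≤ η)
    (hη : η * max T T' ≤ D) (hD : |T - T'| ≤ D) (hd : ∀ j, |s j - s' j| ≤ δ) (j : J) :
    |bwd k p T s j - bwd k' p' T' s' j| ≤ 100 * LG * (D + δ) := by
  have hη0 : 0 ≤ η := (abs_nonneg _).trans (hk 0)
  have hD0 : 0 ≤ D := (abs_nonneg _).trans hD
  have hηT : η * T' ≤ D := (mul_le_mul_of_nonneg_left (le_max_right T T') hη0).trans hη
  have hLG : 0 ≤ LG := by linarith [LG_ge]
  have hf : Bdd (fun j => G (s j / T)) := G_bdd hs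
  have hf' : Bdd (fun j => G (s' j / T')) := G_bdd hs'
  obtain ⟨h0, h1, h2⟩ := parts_le hw hf hN
  obtain ⟨h0', h1', h2'⟩ := parts_le hw' hf' hN'
  have htok := tok_diff hw hw' hT hT' hs hs' hN hN' hδ hk hp hηT hD hd
  have hfin := fin_est hD0 hδ
  have hE0 : 0 ≤ LG * (δ + 3 / 2 * D) := by positivity
  have hin : ∀ i, T' * |inTok k p T s i - inTok k' p' T' s' i|
      ≤ 6 * (LG * (δ + 3 / 2 * D)) + 140 * D := by
    intro i
    rcases i with _ | i
    · have := G_diff hT hT' (entry_le hw hf hN none) (entry_le hw' hf' hN' none) hD (hd none)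
      simp only [inTok]
      linarith
    · exact htok i
  rcases j with _ | ⟨i, m⟩
  · simp only [bwd, sub_zero, abs_zero]
    positivity
  · simp only [bwd]
    have hv : |G (s (some (i, m)) / T) - tok k p (row (fun j => G (s j / T)) i) * k m
        + inTok k p T s i * k m| ≤ 28 := by
      refine (abs_add_le _ _).trans ?_
      have a := h2 i m
      have b := (abs_mul_k hw (inTok k p T s i) m).trans (inTok_le hw hs hN i)
      linarith
    refine (mul_H_diff hT' hv hD (arg_diff hT'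
      (G_diff hT hT' (entry_le hw hf hN (some (i, m))) (entry_le hw' hf' hN' (some (i, m)))
        hD (hd (some (i, m))))
      (tk_diff hw hT' (h1' i) hηT (hk m) (htok i))
      (tk_diff hw hT' (inTok_le hw' hs' hN' i) hηT (hk m) (hin i)))).trans ?_
    linarith

end Pool.Agent.Helper94.WUR
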