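import Pool.Agent.Helper94.WUR.Defs
import Pool.Agent.Helper94.WUR.Tok
import Pool.Agent.Helper94.WUR.GFun
import Pool.Agent.Helper94.WUR.MapA

/-!
# The fibre maps preserve vanishing at infinity (module MAPC)
-/

set_option autoImplicit false

namespace Pool.Agent.Helper94.WUR

theorem row_small {T : ℝ} (hT : 0 < T) {s : J → ℝ} {a : ℝ} (haT : a ≤ T) {i : ℕ}
    (h : ∀ m, |s (some (i, m))| ≤ a) (m : ℕ) : |bent T s (some (i, m))| ≤ a / T := by
  have h1 : |s (some (i, m)) / T| ≤ a / T := by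
    rw [abs_div, abs_of_pos hT]
    exact div_le_div_of_nonneg_right (h m) hT.le
  have h2 : a / T ≤ 1 := (div_le_one hT).2 haT
  change |G (s (some (i, m)) / T)| ≤ a / T
  rw [G_eq_self (h1.trans h2)]
  exact h1

theorem tok_small {k p : ℕ → ℝ} (hw : Win k p) {T : ℝ} (hT : 0 < T) {s : J → ℝ} (hs : Bdd s)
    {a : ℝ} (ha : 0 ≤ a) (haT : a ≤ T) {i : ℕ}
    (h : ∀ m, |s (some (i, m))| ≤ a) : |tok k p (row (bent T s) i)| ≤ 6 * (a / T) := by
  have h1 := tok_lip hw (u := row (bent T s) i) (u' := fun _ => 0) (bdd_row (bdd_bent hs) i)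
    ⟨0, fun m => by simp⟩ (δ := a / T) (div_nonneg ha hT.le) (fun m => by
      rw [sub_zero]
      exact row_small hT haT h m)
  rwa [tok_zero hw, sub_zero] at h1

/-- the value of a fibre map in a slice with small entries and small tokens -/
theorem val_small {k p : ℕ → ℝ} (hw : Win k p) {T : ℝ} (hT : 0 < T) {s : J → ℝ} (hs : Bdd s)
    {a : ℝ} (ha : 0 ≤ a) (haT : 13 * a ≤ T) {i : ℕ}
    (h : ∀ m, |s (some (i, m))| ≤ a) {τ : ℝ} (hτ : |τ| ≤ 6 * (a / T)) (m : ℕ) :
    |T * H (G (s (some (i, m)) / T) - tok k p (row (bent T s) i) * k m + τ * k m)| ≤ 13 * a := by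
  have haT' : a ≤ T := by linarith
  have h1 : |k m| ≤ 1 := abs_le.2 ⟨by linarith [hw.k0 m], hw.k1 m⟩
  have h2 := row_small hT haT' h m
  have h3 := tok_small hw hT hs ha haT' h
  have ha0 : 0 ≤ a / T := div_nonneg ha hT.le
  have h4 := mul_le_mul h3 h1 (abs_nonneg _) (by positivity)
  have h5 := mul_le_mul hτ h1 (abs_nonneg _) (by positivity)
  rw [← abs_mul, mul_one] at h4 h5
  set v := G (s (some (i, m)) / T) - tok k p (row (bent T s) i) * k m + τ * k m with hv
  have h6 : |v| ≤ 13 * (a / T) := by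
    calc |v| ≤ |G (s (some (i, m)) / T) - tok k p (row (bent T s) i) * k m| + |τ * k m| :=
          abs_add_le _ _
      _ ≤ |G (s (some (i, m)) / T)| + |tok k p (row (bent T s) i) * k m| + |τ * k m| := by
          have := abs_sub (G (s (some (i, m)) / T)) (tok k p (row (bent T s) i) * k m)
          linarith
      _ ≤ 13 * (a / T) := by
          change |G (s (some (i, m)) / T)| ≤ a / T at h2
          linarith
  have h7 : 13 * (a / T) ≤ 1 := by
    rw [← mul_div_assoc]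
    exact (div_le_one hT).2 haT
  rw [H_eq_self (h6.trans h7), abs_mul, abs_of_pos hT]
  calc T * |v| ≤ T * (13 * (a / T)) := mul_le_mul_of_nonneg_left h6 hT.le
    _ = 13 * a := by field_simp

/-- a bound for the large slices -/
theorem exists_big {s : J → ℝ} (hv : ∀ ε : ℝ, 0 < ε → {j : J | ε ≤ |s j|}.Finite) {a : ℝ}
    (ha : 0 < a) : ∃ I : ℕ, ∀ i, I ≤ i → ∀ m, |s (some (i, m))| ≤ a := by
  have h1 := hv a ha
  obtain ⟨I, hI⟩ := (h1.image fun j : J => match j with
    | none => 0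
    | some (i, _) => i).bddAbove
  refine ⟨I + 1, fun i hi m => ?_⟩
  by_contra h
  push Not at h
  have h2 : i ≤ I := hI ⟨some (i, m), h.le, rfl⟩
  omega

theorem finite_of_parts {s g : J → ℝ} {k : ℕ → ℝ} (hk : ∃ M : ℕ, ∀ m, M ≤ m → k m = 0)
    (hv : ∀ ε : ℝ, 0 < ε → {j : J | ε ≤ |s j|}.Finite)
    (hg : ∀ m, k m = 0 → ∀ i, g (some (i, m)) = s (some (i, m))) {ε : ℝ} (hε : 0 < ε)
    (hI : ∃ I : ℕ, ∀ i, I ≤ i → ∀ m, |g (some (i, m))| < ε) :
    {j : J | ε ≤ |g j|}.Finite := by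
  obtain ⟨M, hM⟩ := hk
  obtain ⟨I, hI⟩ := hI
  have h1 : ({(none : J)} : Set J).Finite := Set.finite_singleton _
  have h2 : ((fun q : ℕ × ℕ => (some q : J)) '' (Set.Iio I ×ˢ Set.Iio M)).Finite :=
    ((Set.finite_Iio I).prod (Set.finite_Iio M)).image _
  refine ((h1.union h2).union (hv ε hε)).subset ?_
  intro j hj
  match j with
  | none => exact Or.inl (Or.inl rfl)
  | some (i, m) =>
    by_cases hm : M ≤ m
    · right
      have h3 := hg m (hM m hm) i
      change ε ≤ |s (some (i, m))|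
      rw [← h3]
      exact hj
    · left
      right
      refine ⟨(i, m), ⟨?_, ?_⟩, rfl⟩
      · change i < I
        by_contra h
        exact absurd hj (not_le.2 (hI i (not_lt.1 h) m))
      · exact not_le.1 hm

theorem fwd_van {k p : ℕ → ℝ} (hw : Win k p) (hk : ∃ M : ℕ, ∀ m, M ≤ m → k m = 0)
    {T : ℝ} (hT : 0 < T) {s : J → ℝ} (hs : Bdd s)
    (hv : ∀ ε : ℝ, 0 < ε → {j : J | ε ≤ |s j|}.Finite) {ε : ℝ} (hε : 0 < ε) :
    {j : J | ε ≤ |fwd k p T s j|}.Finite := by
  apply finite_of_parts hk hv (fun m hm i => fwd_of_k hT s hm i) hε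
  have ha : 0 < min T ε / 14 := by positivity
  obtain ⟨I, hI⟩ := exists_big hv ha
  refine ⟨I, fun i hi m => ?_⟩
  have haT : 13 * (min T ε / 14) ≤ T := by
    have := min_le_left T ε
    linarith
  have h1 := val_small hw hT hs ha.le haT (fun m => hI i hi m)
    (tok_small hw hT hs ha.le (by linarith) (fun m => hI (i + 1) (by omega) m)) m
  have h2 : 13 * (min T ε / 14) < ε := by
    have := min_le_right T ε
    linarith
  exact lt_of_le_of_lt h1 h2

theorem bwd_van {k p : ℕ → ℝ} (hw : Win k p) (hk : ∃ M : ℕ, ∀ m, M ≤ m → k m = 0)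
    {T : ℝ} (hT : 0 < T) {s : J → ℝ} (hs : Bdd s)
    (hv : ∀ ε : ℝ, 0 < ε → {j : J | ε ≤ |s j|}.Finite) {ε : ℝ} (hε : 0 < ε) :
    {j : J | ε ≤ |bwd k p T s j|}.Finite := by
  apply finite_of_parts hk hv (fun m hm i => bwd_of_k hT s hm i) hε
  have ha : 0 < min T ε / 14 := by positivity
  obtain ⟨I, hI⟩ := exists_big hv ha
  refine ⟨I + 1, fun i hi m => ?_⟩
  have haT : 13 * (min T ε / 14) ≤ T := by
    have := min_le_left T ε
    linarith
  obtain ⟨i, rfl⟩ : ∃ i', i = i' + 1 := ⟨i - 1, by omega⟩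
  have h1 := val_small hw hT hs ha.le haT (fun m => hI (i + 1) (by omega) m)
    (tok_small hw hT hs ha.le (by linarith) (fun m => hI i (by omega) m)) m
  have h2 : 13 * (min T ε / 14) < ε := by
    have := min_le_right T ε
    linarith
  exact lt_of_le_of_lt h1 h2

end Pool.Agent.Helper94.WUR
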