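import Pool.Agent.Helper94.WUR.Defs

/-!
Module SPACE for MP_bd2462_an (S05964).
-/

set_option autoImplicit false

namespace Pool.Agent.Helper94.WUR

open Filter Topology

theorem c0_apply_le {α E : Type} [TopologicalSpace α] [NormedAddCommGroup E]
    (f : ZeroAtInftyContinuousMap α E) (a : α) : ‖f a‖ ≤ ‖f‖ := by
  have h := f.toBCF.norm_coe_le_norm a
  rw [ZeroAtInftyContinuousMap.norm_toBCF_eq_norm] at h
  exact h

theorem c0_norm_le {α E : Type} [TopologicalSpace α] [NormedAddCommGroup E]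
    (f : ZeroAtInftyContinuousMap α E) {C : ℝ} (hC : 0 ≤ C) (h : ∀ a, ‖f a‖ ≤ C) : ‖f‖ ≤ C := by
  rw [← ZeroAtInftyContinuousMap.norm_toBCF_eq_norm]
  exact (BoundedContinuousFunction.norm_le hC).2 h

theorem c0_continuous_eval {α E : Type} [TopologicalSpace α] [NormedAddCommGroup E]
    (a : α) : Continuous (fun f : ZeroAtInftyContinuousMap α E => f a) := by
  refine (LipschitzWith.of_dist_le_mul (K := 1) fun f g => ?_).continuous
  rw [dist_eq_norm, dist_eq_norm, NNReal.coe_one, one_mul]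
  exact c0_apply_le (f - g) a

theorem l2_continuous_eval (γ : Gam) : Continuous (fun b : L2 => (b : Gam → ℝ) γ) := by
  refine (LipschitzWith.of_dist_le_mul (K := 1) fun f g => ?_).continuous
  rw [dist_eq_norm, dist_eq_norm, NNReal.coe_one, one_mul]
  exact lp.norm_apply_le_norm (by norm_num) (f - g) γ

theorem XS_closed : IsClosed (XS : Set Amb) := by
  have h : (XS : Set Amb) = ⋂ (i : ℕ) (m : ℕ) (γ : Gam),
      {x : Amb | x.2 (i, m, γ) = 2 ^ m * (x.1 (i, m) : Gam → ℝ) γ} := by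
    ext x
    simp only [Set.mem_iInter, Set.mem_ofPred_eq]
    rfl
  rw [h]
  refine isClosed_iInter fun i => isClosed_iInter fun m => isClosed_iInter fun γ => ?_
  refine isClosed_eq ?_ ?_
  · exact (c0_continuous_eval (E := ℝ) (i, m, γ)).comp continuous_snd
  · exact continuous_const.mul ((l2_continuous_eval γ).comp
      ((c0_continuous_eval (E := L2) (i, m)).comp continuous_fst))

theorem XS_complete : CompleteSpace X :=
  XS_closed.completeSpace_coe

theorem co_eq (x : X) (i m : ℕ) (γ : Gam) :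
    co x i m γ = 2 ^ m * (x.1.1 (i, m) : Gam → ℝ) γ := x.2 i m γ

theorem co_ext {x y : X} (h : ∀ i m γ, co x i m γ = co y i m γ) : x = y := by
  apply Subtype.ext
  refine Prod.ext ?_ ?_
  · refine ZeroAtInftyContinuousMap.ext ?_
    rintro ⟨i, m⟩
    refine lp.ext (funext fun γ => ?_)
    have h1 := h i m γ
    rw [co_eq, co_eq] at h1
    exact mul_left_cancel₀ (pow_ne_zero m (two_ne_zero)) h1
  · refine ZeroAtInftyContinuousMap.ext ?_
    rintro ⟨i, m, γ⟩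
    exact h i m γ

theorem co_add (x y : X) (i m : ℕ) (γ : Gam) :
    co (x + y) i m γ = co x i m γ + co y i m γ := rfl

theorem co_sub (x y : X) (i m : ℕ) (γ : Gam) :
    co (x - y) i m γ = co x i m γ - co y i m γ := rfl

theorem co_le (x : X) (i m : ℕ) (γ : Gam) : |co x i m γ| ≤ ‖x‖ := by
  have h1 : ‖x.1.2 (i, m, γ)‖ ≤ ‖x.1.2‖ := c0_apply_le x.1.2 (i, m, γ)
  have h2 : ‖x.1.2‖ ≤ ‖x.1‖ := by
    rw [Prod.norm_def]; exact le_max_right _ _
  have h3 : ‖x‖ = ‖x.1‖ := rfl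
  rw [h3]
  exact (Real.norm_eq_abs _).symm.le.trans (h1.trans h2)

theorem c0_van {α : Type} [TopologicalSpace α] [DiscreteTopology α]
    (f : ZeroAtInftyContinuousMap α ℝ) {ε : ℝ} (hε : 0 < ε) : {q : α | ε ≤ |f q|}.Finite := by
  have h := f.zero_at_infty'
  rw [Filter.cocompact_eq_cofinite] at h
  have h1 := (Metric.tendsto_nhds.1 h) ε hε
  rw [Filter.eventually_cofinite] at h1
  refine h1.subset ?_
  intro q hq
  have hq' : ε ≤ |f q| := hq
  show ¬ dist (f.toFun q) 0 < ε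
  rw [Real.dist_eq, sub_zero, not_lt]
  exact hq'

/-- the coordinates vanish at infinity, fibrewise and uniformly -/
theorem co_van (x : X) {ε : ℝ} (hε : 0 < ε) :
    {q : ℕ × ℕ × Gam | ε ≤ |co x q.1 q.2.1 q.2.2|}.Finite :=
  c0_van x.1.2 hε

theorem tendsto_of_fin {α E : Type} [TopologicalSpace α] [DiscreteTopology α]
    [NormedAddCommGroup E] (f : α → E)
    (h : ∀ ε : ℝ, 0 < ε → {q : α | ε ≤ ‖f q‖}.Finite) :
    Tendsto f (cocompact α) (𝓝 0) := by
  rw [Filter.cocompact_eq_cofinite]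
  refine Metric.tendsto_nhds.2 fun ε hε => ?_
  rw [Filter.eventually_cofinite]
  refine (h ε hε).subset ?_
  intro q hq
  have hq' : ¬ dist (f q) 0 < ε := hq
  rw [dist_zero_right, not_lt] at hq'
  exact hq'

theorem l2_normsq (b : L2) (S : Finset Gam) (h : ∀ γ, γ ∉ S → (b : Gam → ℝ) γ = 0) :
    ‖b‖ ^ 2 = ∑ γ ∈ S, ((b : Gam → ℝ) γ) ^ 2 := by
  have h1 := lp.norm_rpow_eq_tsum (p := 2) (by norm_num) b
  simp only [ENNReal.toReal_ofNat, Real.rpow_ofNat] at h1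
  rw [h1, tsum_eq_sum (s := S)]
  · refine Finset.sum_congr rfl fun γ _ => ?_
    rw [Real.norm_eq_abs, sq_abs]
  · intro γ hγ
    rw [h γ hγ]; simp

theorem sum_le_aux (b : Gam → ℝ) (S : Finset Gam) (m : ℕ) {C : ℝ} {K : ℝ}
    (hC : ∀ γ, |2 ^ m * b γ| ≤ C) (hS : (S.card : ℝ) ≤ K * 2 ^ m) :
    ∑ γ ∈ S, (b γ) ^ 2 ≤ K * C ^ 2 := by
  have hC0 : 0 ≤ C := (abs_nonneg _).trans (hC (fun _ => false))
  have h2 : (1 : ℝ) ≤ 2 ^ m := one_le_pow₀ (by norm_num)
  have hpos : (0 : ℝ) < 2 ^ m := by positivity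
  have hK : 0 ≤ K := by
    have : (0 : ℝ) ≤ K * 2 ^ m := (Nat.cast_nonneg _).trans hS
    exact nonneg_of_mul_nonneg_left this hpos
  have h1 : ∀ γ ∈ S, (b γ) ^ 2 ≤ (C / 2 ^ m) ^ 2 := by
    intro γ _
    have h3 : |b γ| ≤ C / 2 ^ m := by
      rw [le_div_iff₀ hpos]
      have := hC γ
      rw [abs_mul, abs_of_pos hpos] at this
      linarith
    rw [← sq_abs]
    exact pow_le_pow_left₀ (abs_nonneg _) h3 2
  calc ∑ γ ∈ S, (b γ) ^ 2 ≤ ∑ γ ∈ S, (C / 2 ^ m) ^ 2 := Finset.sum_le_sum h1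
    _ = S.card * (C / 2 ^ m) ^ 2 := by rw [Finset.sum_const, nsmul_eq_mul]
    _ ≤ (K * 2 ^ m) * (C / 2 ^ m) ^ 2 := mul_le_mul_of_nonneg_right hS (sq_nonneg _)
    _ = K * C ^ 2 / 2 ^ m := by field_simp
    _ ≤ K * C ^ 2 := div_le_self (by positivity) h2

open Classical in
/-- elements of `X` with few nonzero coordinates in each block -/
theorem exists_few (d : ℕ → ℕ → Gam → ℝ)
    (hc : ∀ i m, ∃ S : Finset Gam, S.card ≤ 2 ^ m ∧ ∀ γ, γ ∉ S → d i m γ = 0)
    (hv : ∀ ε : ℝ, 0 < ε → {q : ℕ × ℕ × Gam | ε ≤ |d q.1 q.2.1 q.2.2|}.Finite) :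
    ∃ x : X, ∀ i m γ, co x i m γ = d i m γ := by
  have hmem : ∀ q : ℕ × ℕ, Memℓp (fun γ : Gam => d q.1 q.2 γ / 2 ^ q.2) 2 := by
    intro q
    obtain ⟨S, -, hS⟩ := hc q.1 q.2
    have h0 : Memℓp (fun γ : Gam => d q.1 q.2 γ / 2 ^ q.2) 0 := by
      apply memℓp_zero
      refine S.finite_toSet.subset ?_
      intro γ hγ
      by_contra hn
      apply hγ
      show d q.1 q.2 γ / 2 ^ q.2 = 0
      rw [hS γ (fun h => hn h), zero_div]
    exact h0.of_exponent_ge zero_le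
  set b : ℕ × ℕ → L2 := fun q => ⟨fun γ : Gam => d q.1 q.2 γ / 2 ^ q.2, hmem q⟩ with hb
  have hb_apply : ∀ q γ, ((b q : L2) : Gam → ℝ) γ = d q.1 q.2 γ / 2 ^ q.2 := fun q γ => rfl
  have hbt : Tendsto b (cocompact (ℕ × ℕ)) (𝓝 0) := by
    refine tendsto_of_fin b fun ε hε => ?_
    refine ((hv ε hε).image (fun q : ℕ × ℕ × Gam => (q.1, q.2.1))).subset ?_
    rintro ⟨i, m⟩ hq
    have hq' : ε ≤ ‖b (i, m)‖ := hq
    by_contra hn
    have hlt : ∀ γ, |d i m γ| < ε := by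
      intro γ
      by_contra hγ
      exact hn ⟨(i, m, γ), not_lt.1 hγ, rfl⟩
    obtain ⟨S, hScard, hS⟩ := hc i m
    -- the maximum over the finite set `S` is smaller than `ε`
    have hmax : ∃ C : ℝ, 0 ≤ C ∧ C < ε ∧ ∀ γ, |d i m γ| ≤ C := by
      have : ∀ F : Finset Gam, ∃ C : ℝ, 0 ≤ C ∧ C < ε ∧ ∀ γ ∈ F, |d i m γ| ≤ C := by
        intro F
        induction F using Finset.induction_on with
        | empty => exact ⟨0, le_refl _, hε, by simp⟩
        | insert a F _ ih =>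
          obtain ⟨C, h1, h2, h3⟩ := ih
          refine ⟨max C |d i m a|, le_max_of_le_left h1, max_lt h2 (hlt a), ?_⟩
          intro γ hγ
          rcases Finset.mem_insert.1 hγ with rfl | hγ
          · exact le_max_right _ _
          · exact (h3 γ hγ).trans (le_max_left _ _)
      obtain ⟨C, h1, h2, h3⟩ := this S
      refine ⟨C, h1, h2, fun γ => ?_⟩
      by_cases hγ : γ ∈ S
      · exact h3 γ hγ
      · rw [hS γ hγ, abs_zero]; exact h1
    obtain ⟨C, hC0, hCε, hC⟩ := hmax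
    have hn2 := l2_normsq (b (i, m)) S (fun γ hγ => by
      rw [hb_apply]; simp only; rw [hS γ hγ, zero_div])
    have hle := sum_le_aux (b (i, m) : Gam → ℝ) S m (C := C) (K := 1)
      (fun γ => by
        rw [hb_apply]
        simp only
        rw [mul_div_cancel₀ _ (by positivity)]
        exact hC γ)
      (by rw [one_mul]; exact_mod_cast hScard)
    rw [← hn2, one_mul] at hle
    have h5 : ‖b (i, m)‖ ≤ C := by
      exact le_of_sq_le_sq hle hC0
    linarith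
  have hat : Tendsto (fun q : ℕ × ℕ × Gam => d q.1 q.2.1 q.2.2)
      (cocompact (ℕ × ℕ × Gam)) (𝓝 0) := tendsto_of_fin _ hv
  let B : ZeroAtInftyContinuousMap (ℕ × ℕ) L2 :=
    ⟨⟨b, continuous_of_discreteTopology⟩, hbt⟩
  let A : ZeroAtInftyContinuousMap (ℕ × ℕ × Gam) ℝ :=
    ⟨⟨fun q : ℕ × ℕ × Gam => d q.1 q.2.1 q.2.2, continuous_of_discreteTopology⟩, hat⟩
  refine ⟨⟨(B, A), ?_⟩, fun i m γ => rfl⟩
  intro i m γ
  show d i m γ = 2 ^ m * (d i m γ / 2 ^ m)
  rw [mul_div_cancel₀ _ (by positivity)]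

theorem norm_few (x : X) {C : ℝ} (hC : ∀ i m γ, |co x i m γ| ≤ C)
    (hc : ∀ i m, ∃ S : Finset Gam, S.card ≤ 2 * 2 ^ m ∧ ∀ γ, γ ∉ S → co x i m γ = 0) :
    ‖x‖ ≤ 2 * C := by
  have hC0 : 0 ≤ C := (abs_nonneg _).trans (hC 0 0 (fun _ => false))
  have h3 : ‖x‖ = ‖x.1‖ := rfl
  rw [h3, Prod.norm_def]
  refine max_le ?_ ?_
  · refine c0_norm_le _ (by positivity) ?_
    rintro ⟨i, m⟩
    obtain ⟨S, hScard, hS⟩ := hc i m
    have hn2 := l2_normsq (x.1.1 (i, m)) S (fun γ hγ => by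
      have h := hS γ hγ
      rw [co_eq] at h
      exact (mul_eq_zero.1 h).resolve_left (by positivity))
    have hle := sum_le_aux (x.1.1 (i, m) : Gam → ℝ) S m (C := C) (K := 2)
      (fun γ => by rw [← co_eq]; exact hC i m γ) (by exact_mod_cast hScard)
    rw [← hn2] at hle
    refine le_of_sq_le_sq ?_ (by positivity)
    nlinarith [sq_nonneg C]
  · refine (c0_norm_le _ hC0 ?_).trans (by linarith)
    rintro ⟨i, m, γ⟩
    exact hC i m γ

end Pool.Agent.Helper94.WUR
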