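import Pool.Agent.Helper94.WUR.Defs

/-!
Module WIN: windows over `2 ^ ω`.
-/

set_option autoImplicit false

namespace Pool.Agent.Helper94.WUR

namespace WinAux

theorem bdd {T : Gam → ℝ} (hT : C0p T) : ∃ M : ℝ, 0 ≤ M ∧ ∀ γ, T γ ≤ M := by
  have hf := hT.van 1 one_pos
  rcases (hf.image T).bddAbove with ⟨M, hM⟩
  refine ⟨max 1 M, le_max_of_le_left zero_le_one, fun γ => ?_⟩
  by_cases h : 1 ≤ T γ
  · exact le_trans (hM ⟨γ, h, rfl⟩) (le_max_right _ _)
  · exact le_trans (not_le.mp h).le (le_max_left _ _)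

open Classical in
theorem bddAbove {T : Gam → ℝ} (hT : C0p T) (γ : Gam) (m : ℕ) :
    BddAbove (Set.range fun β : Gam => if β ≠ γ ∧ agree m β γ then T β else 0) := by
  obtain ⟨M, hM0, hM⟩ := bdd hT
  refine ⟨M, ?_⟩
  rintro _ ⟨β, rfl⟩
  dsimp only
  split_ifs
  · exact hM β
  · exact hM0

theorem om_nonneg {T : Gam → ℝ} (hT : C0p T) (γ : Gam) (m : ℕ) : 0 ≤ om T γ m := by
  unfold om
  refine Real.iSup_nonneg fun β => ?_
  split_ifs
  · exact hT.nonneg β
  · exact le_rfl

theorem le_om {T : Gam → ℝ} (hT : C0p T) {γ β : Gam} {m : ℕ} (h : β ≠ γ) (h2 : agree m β γ) :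
    T β ≤ om T γ m := by
  unfold om
  refine le_trans (le_of_eq ?_) (le_ciSup (bddAbove hT γ m) β)
  rw [if_pos ⟨h, h2⟩]

theorem om_le {T : Gam → ℝ} {γ : Gam} {m : ℕ} {a : ℝ} (ha : 0 ≤ a)
    (h : ∀ β, β ≠ γ → agree m β γ → T β ≤ a) : om T γ m ≤ a := by
  unfold om
  have : Nonempty Gam := ⟨γ⟩
  refine ciSup_le fun β => ?_
  split_ifs with h1
  · exact h β h1.1 h1.2
  · exact ha

theorem exists_small {T : Gam → ℝ} (hT : C0p T) (γ : Gam) {ε : ℝ} (hε : 0 < ε) :
    ∃ M : ℕ, ∀ m, M ≤ m → om T γ m ≤ ε := by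
  have hf := hT.van ε hε
  have hsep : ∀ β : Gam, ∃ j : ℕ, β ≠ γ → β j ≠ γ j := by
    intro β
    by_cases h : β = γ
    · exact ⟨0, fun h' => absurd h h'⟩
    · obtain ⟨j, hj⟩ := Function.ne_iff.mp h
      exact ⟨j, fun _ => hj⟩
  choose f hfj using hsep
  rcases (hf.image f).bddAbove with ⟨M, hM⟩
  refine ⟨M + 1, fun m hm => om_le hε.le fun β hβ hag => ?_⟩
  by_contra hlt
  have h1 : f β ≤ M := hM ⟨β, (not_le.mp hlt).le, rfl⟩
  exact hfj β hβ (hag (f β) (by omega))

theorem th_lip_aux {a b t t' D : ℝ} (ha : 0 ≤ a) (ht : 0 < t) (ht' : 0 < t')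
    (h1 : a - b ≤ D) (h2 : |t - t'| ≤ D) :
    min (a / t) 1 - min (b / t') 1 ≤ 2 * D / min t t' := by
  have hD : 0 ≤ D := le_trans (abs_nonneg _) h2
  have hmin : 0 < min t t' := lt_min ht ht'
  have hR : 0 ≤ 2 * D / min t t' := by positivity
  by_cases hb : 1 ≤ b / t'
  · rw [min_eq_right hb]
    have := min_le_right (a / t) 1
    linarith
  · have hb' : b / t' < 1 := not_le.mp hb
    rw [min_eq_left hb'.le]
    set q := min (a / t) 1 with hq
    have hq1 : q ≤ 1 := min_le_right _ _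
    have hq0 : 0 ≤ q := le_min (div_nonneg ha ht.le) zero_le_one
    have hqa : q * t ≤ a := by
      have : q ≤ a / t := min_le_left _ _
      rwa [le_div_iff₀ ht] at this
    have h3 : t' - t ≤ D := by
      have := abs_le.mp h2
      linarith [this.1]
    have h4 : q * (t' - t) ≤ D := by
      by_cases hs : 0 ≤ t' - t
      · nlinarith
      · have : q * (t' - t) ≤ 0 := mul_nonpos_of_nonneg_of_nonpos hq0 (not_le.mp hs).le
        linarith
    have h5 : q - b / t' ≤ 2 * D / t' := by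
      rw [sub_le_iff_le_add, ← add_div, le_div_iff₀ ht']
      nlinarith
    refine le_trans h5 ?_
    exact div_le_div_of_nonneg_left (by positivity) hmin (min_le_right _ _)

theorem abs_om {T T' : Gam → ℝ} (_hT : C0p T) (hT' : C0p T') {D : ℝ}
    (hD : ∀ β, |T β - T' β| ≤ D) (γ : Gam) (m : ℕ) : om T γ m - om T' γ m ≤ D := by
  have hD0 : 0 ≤ D := le_trans (abs_nonneg _) (hD γ)
  have := om_nonneg hT' γ m
  rw [sub_le_iff_le_add]
  refine om_le (by linarith) fun β hβ hag => ?_
  have h1 := le_om hT' hβ hag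
  have h2 := (abs_le.mp (hD β)).2
  linarith

theorem th_lip {T T' : Gam → ℝ} (hT : C0p T) (hT' : C0p T') {D : ℝ}
    (hD : ∀ β, |T β - T' β| ≤ D) {γ : Gam} (h : 0 < T γ) (h' : 0 < T' γ) (m : ℕ) :
    |th T γ m - th T' γ m| ≤ 2 * D / min (T γ) (T' γ) := by
  have hD' : ∀ β, |T' β - T β| ≤ D := fun β => by rw [abs_sub_comm]; exact hD β
  unfold th
  rw [abs_le]
  constructor
  · have := th_lip_aux (om_nonneg hT' γ m) h' h (abs_om hT' hT hD' γ m) (hD' γ)
    rw [min_comm (T' γ)] at this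
    linarith
  · exact th_lip_aux (om_nonneg hT γ m) h h' (abs_om hT hT' hD γ m) (hD γ)

theorem vv_lip {T T' : Gam → ℝ} (hT : C0p T) (hT' : C0p T') {D : ℝ}
    (hD : ∀ β, |T β - T' β| ≤ D) {γ : Gam} (h : 0 < T γ) (h' : 0 < T' γ) (m : ℕ) :
    |vv T γ m - vv T' γ m| ≤ 2 * D / min (T γ) (T' γ) := by
  unfold vv
  refine le_trans (abs_min_sub_min_le_max _ _ _ _) (max_le ?_ ?_)
  · have := th_lip hT hT' hD h h' m
    rw [show 3 / 4 - th T γ m - (3 / 4 - th T' γ m) = -(th T γ m - th T' γ m) by ring, abs_neg]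
    exact this
  · have hD0 : 0 ≤ D := le_trans (abs_nonneg _) (hD γ)
    rw [show thp T γ m - 1 / 4 - (thp T' γ m - 1 / 4) = thp T γ m - thp T' γ m by ring]
    cases m with
    | zero =>
      have hmin : 0 < min (T γ) (T' γ) := lt_min h h'
      simp only [thp, sub_self, abs_zero]
      positivity
    | succ m => exact th_lip hT hT' hD h h' m

theorem clamp_lip (a b : ℝ) : |max 0 (min 1 a) - max 0 (min 1 b)| ≤ |a - b| := by
  refine le_trans (abs_max_sub_max_le_max _ _ _ _) (max_le ?_ ?_)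
  · simp
  · refine le_trans (abs_min_sub_min_le_max _ _ _ _) (max_le ?_ le_rfl)
    simp

theorem kk_eq_one {T : Gam → ℝ} {γ : Gam} {m : ℕ} (h : 1 / 4 ≤ vv T γ m) : kk T γ m = 1 := by
  unfold kk
  rw [min_eq_left (by linarith), max_eq_right zero_le_one]

theorem pp_eq_zero {T : Gam → ℝ} {γ : Gam} {m : ℕ} (h : 1 / 4 ≤ vv T γ m) : pp T γ m = 0 := by
  unfold pp
  rw [min_eq_right (by linarith), max_eq_left (by linarith)]

theorem kk_eq_zero {T : Gam → ℝ} {γ : Gam} {m : ℕ} (h : vv T γ m ≤ 0) : kk T γ m = 0 := by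
  unfold kk
  rw [min_eq_right (by linarith), max_eq_left (by linarith)]

theorem th_zero {T : Gam → ℝ} {γ : Gam} (h : T γ = 0) (m : ℕ) : th T γ m = 0 := by
  unfold th
  rw [h, div_zero]
  exact min_eq_left zero_le_one

end WinAux

open WinAux

theorem win_win {T : Gam → ℝ} (hT : C0p T) (γ : Gam) : Win (kk T γ) (pp T γ) := by
  refine ⟨fun m => le_max_left _ _, fun m => max_le zero_le_one (min_le_left _ _),
    fun m => le_max_left _ _, fun m => max_le zero_le_one (min_le_left _ _), fun m hm => ?_, ?_⟩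
  · have h1 : min 1 (8 * vv T γ m) < 1 := lt_of_le_of_lt (le_max_right _ _) hm
    have h2 : 8 * vv T γ m < 1 := by
      rcases min_lt_iff.mp h1 with h | h
      · exact absurd h (lt_irrefl _)
      · exact h
    unfold pp
    rw [min_eq_left (by linarith), max_eq_right zero_le_one]
  · rcases eq_or_lt_of_le (hT.nonneg γ) with h0 | hpos
    · have hv : 1 / 4 ≤ vv T γ 0 := by
        unfold vv
        rw [th_zero h0.symm]
        simp only [thp]
        norm_num
      exact ⟨0, kk_eq_one hv, pp_eq_zero hv⟩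
    · have hex : ∃ m : ℕ, om T γ m ≤ T γ / 2 := by
        obtain ⟨M, hM⟩ := exists_small hT γ (half_pos hpos)
        exact ⟨M, hM M le_rfl⟩
      classical
      set m := Nat.find hex with hm
      have h1 : om T γ m ≤ T γ / 2 := Nat.find_spec hex
      have h2 : th T γ m ≤ 1 / 2 := by
        unfold th
        refine le_trans (min_le_left _ _) ?_
        rw [div_le_iff₀ hpos]
        linarith
      have h3 : 1 / 2 ≤ thp T γ m := by
        rcases hcase : m with _ | m'
        · simp only [thp]; norm_num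
        · simp only [thp]
          have h4 : ¬ om T γ m' ≤ T γ / 2 := Nat.find_min hex (by omega)
          unfold th
          refine le_min ?_ (by norm_num)
          rw [le_div_iff₀ hpos]
          linarith
      have hv : 1 / 4 ≤ vv T γ m := by
        unfold vv
        exact le_min (by linarith) (by linarith)
      exact ⟨m, kk_eq_one hv, pp_eq_zero hv⟩

theorem win_tail {T : Gam → ℝ} (hT : C0p T) (γ : Gam) : ∃ M : ℕ, ∀ m, M ≤ m → kk T γ m = 0 := by
  rcases eq_or_lt_of_le (hT.nonneg γ) with h0 | hpos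
  · refine ⟨1, fun m hm => ?_⟩
    obtain ⟨m', rfl⟩ : ∃ m', m = m' + 1 := ⟨m - 1, by omega⟩
    apply kk_eq_zero
    unfold vv
    refine le_trans (min_le_right _ _) ?_
    simp only [thp]
    rw [th_zero h0.symm]
    norm_num
  · obtain ⟨M, hM⟩ := exists_small hT γ (show 0 < T γ / 8 by positivity)
    refine ⟨M + 1, fun m hm => ?_⟩
    obtain ⟨m', rfl⟩ : ∃ m', m = m' + 1 := ⟨m - 1, by omega⟩
    apply kk_eq_zero
    unfold vv
    refine le_trans (min_le_right _ _) ?_
    simp only [thp]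
    have h1 := hM m' (by omega)
    have h2 : th T γ m' ≤ 1 / 8 := by
      unfold th
      refine le_trans (min_le_left _ _) ?_
      rw [div_le_iff₀ hpos]
      linarith
    linarith

theorem win_card {T : Gam → ℝ} (hT : C0p T) (m : ℕ) (F : Finset Gam)
    (hF : ∀ γ ∈ F, 0 < T γ ∧ kk T γ m ≠ 0) : F.card ≤ 2 ^ m := by
  have key : ∀ γ ∈ F, om T γ m < T γ := by
    intro γ hγ
    obtain ⟨hpos, hk⟩ := hF γ hγ
    have hv : 0 < vv T γ m := by
      by_contra h
      exact hk (kk_eq_zero (not_lt.mp h))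
    have h1 : 0 < 3 / 4 - th T γ m := lt_of_lt_of_le hv (min_le_left _ _)
    have h2 : min (om T γ m / T γ) 1 < 1 := by
      have : th T γ m < 1 := by linarith
      exact this
    have h3 : om T γ m / T γ < 1 := by
      rcases min_lt_iff.mp h2 with h | h
      · exact h
      · exact absurd h (lt_irrefl _)
    rwa [div_lt_one hpos] at h3
  have hinj : Set.InjOn (fun (γ : Gam) (j : Fin m) => γ (j : ℕ)) (F : Set Gam) := by
    intro β hβ γ hγ hfg
    by_contra hne
    have hag : agree m β γ := fun j hj => congrFun hfg ⟨j, hj⟩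
    have hag' : agree m γ β := fun j hj => (hag j hj).symm
    have h1 := le_om hT hne hag
    have h2 := le_om hT (Ne.symm hne) hag'
    have h3 := key β hβ
    have h4 := key γ hγ
    linarith
  have hc := Finset.card_le_card_of_injOn (s := F) (t := (Finset.univ : Finset (Fin m → Bool)))
    (fun (γ : Gam) (j : Fin m) => γ (j : ℕ)) (fun _ _ => Finset.mem_univ _) hinj
  simpa using hc

theorem win_lip {T T' : Gam → ℝ} (hT : C0p T) (hT' : C0p T') {D : ℝ}
    (hD : ∀ β, |T β - T' β| ≤ D) {γ : Gam} (h : 0 < T γ) (h' : 0 < T' γ) (m : ℕ) :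
    |kk T γ m - kk T' γ m| ≤ 16 * D / min (T γ) (T' γ) ∧
    |pp T γ m - pp T' γ m| ≤ 16 * D / min (T γ) (T' γ) := by
  have hv := vv_lip hT hT' hD h h' m
  have e : 16 * D / min (T γ) (T' γ) = 8 * (2 * D / min (T γ) (T' γ)) := by ring
  rw [e]
  constructor
  · unfold kk
    refine le_trans (clamp_lip _ _) ?_
    rw [← mul_sub, abs_mul, abs_of_pos (by norm_num : (0:ℝ) < 8)]
    linarith
  · unfold pp
    refine le_trans (clamp_lip _ _) ?_
    rw [show 2 - 8 * vv T γ m - (2 - 8 * vv T' γ m) = -(8 * (vv T γ m - vv T' γ m)) by ring,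
      abs_neg, abs_mul, abs_of_pos (by norm_num : (0:ℝ) < 8)]
    linarith

end Pool.Agent.Helper94.WUR
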