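import Pool.Agent.Helper94.WUR.GFun
import Pool.Agent.Helper94.WUR.Gauge
import Pool.Agent.Helper94.WUR.Fib
import Pool.Agent.Helper94.WUR.Windows

/-!
Module SYS of MP_bd2462_an: the coupled system for the scales has a solution and the
solution depends on the data in a Lipschitz way.
-/

set_option autoImplicit false

namespace Pool.Agent.Helper94.WUR

open Filter Topology

namespace Sys

/-- one step of the iteration -/
noncomputable def FT (s : Gam → J → ℝ) (T : Gam → ℝ) (γ : Gam) : ℝ :=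
  gauge (NF (kk T γ) (pp T γ)) (s γ)

/-- the sup norm of the fibre -/
noncomputable def SS (s : Gam → J → ℝ) (γ : Gam) : ℝ := ⨆ j, |s γ j|

theorem bdd_fib {s : Gam → J → ℝ} (hs : Van s) (γ : Gam) : Bdd (s γ) := by
  obtain ⟨M, hM⟩ := hs.bdd
  exact ⟨M, fun j => hM γ j⟩

theorem bddAbove_fib {s : Gam → J → ℝ} (hs : Van s) (γ : Gam) :
    BddAbove (Set.range fun j => |s γ j|) := by
  obtain ⟨M, hM⟩ := hs.bdd
  exact ⟨M, by rintro _ ⟨j, rfl⟩; exact hM γ j⟩

theorem le_SS {s : Gam → J → ℝ} (hs : Van s) (γ : Gam) (j : J) : |s γ j| ≤ SS s γ :=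
  le_ciSup (bddAbove_fib hs γ) j

theorem SS_nonneg {s : Gam → J → ℝ} (hs : Van s) (γ : Gam) : 0 ≤ SS s γ :=
  (abs_nonneg _).trans (le_SS hs γ none)

theorem SS_le {s : Gam → J → ℝ} {M : ℝ} {γ : Gam} (h : ∀ j, |s γ j| ≤ M) : SS s γ ≤ M :=
  ciSup_le h

/-- the order interval in which the iteration takes place -/
def K (s : Gam → J → ℝ) (T : Gam → ℝ) : Prop := ∀ γ, SS s γ / 2 ≤ T γ ∧ T γ ≤ SS s γ

theorem SS_van {s : Gam → J → ℝ} (hs : Van s) {ε : ℝ} (hε : 0 < ε) :
    {γ : Gam | ε ≤ SS s γ}.Finite := by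
  refine (hs.van (ε / 2) (by linarith)).subset ?_
  intro γ hγ
  simp only [Set.mem_ofPred_eq] at hγ ⊢
  by_contra hcon
  push Not at hcon
  have : SS s γ ≤ ε / 2 := SS_le fun j => (hcon j).le
  linarith

theorem K_C0p {s : Gam → J → ℝ} (hs : Van s) {T : Gam → ℝ} (hT : K s T) : C0p T where
  nonneg γ := by
    have := SS_nonneg hs γ
    have h2 := (hT γ).1
    linarith
  van ε hε := by
    refine (SS_van hs hε).subset ?_
    intro γ hγ
    simp only [Set.mem_ofPred_eq] at hγ ⊢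
    exact hγ.trans (hT γ).2

theorem FT_K {s : Gam → J → ℝ} (hs : Van s) {T : Gam → ℝ} (hT : C0p T) : K s (FT s T) := by
  intro γ
  have hN := NF_isN (win_win hT γ)
  constructor
  · have : SS s γ ≤ 2 * FT s T γ := SS_le fun j => le_gauge hN (bdd_fib hs γ) j
    linarith
  · exact gauge_le hN (SS_nonneg hs γ) (le_SS hs γ)

theorem FT_one {s : Gam → J → ℝ} (hs : Van s) {T T' : Gam → ℝ} (hT : K s T) (hT' : K s T')
    {D : ℝ} (hD : ∀ β, |T β - T' β| ≤ D) (γ : Gam) :
    FT s T γ ≤ FT s T' γ + 352 / 1000 * D := by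
  have hC := K_C0p hs hT
  have hC' := K_C0p hs hT'
  have hD0 : 0 ≤ D := (abs_nonneg _).trans (hD γ)
  have hS := SS_nonneg hs γ
  have hK1 := FT_K hs hC γ
  have hK2 := FT_K hs hC' γ
  rcases hS.eq_or_lt with h0 | hpos
  · have h1 : FT s T γ ≤ 0 := by rw [h0]; exact hK1.2
    have h2 : 0 ≤ FT s T' γ := gauge_nonneg _ _
    nlinarith
  · have hTp : 0 < T γ := by have := (hT γ).1; linarith
    have hTp' : 0 < T' γ := by have := (hT' γ).1; linarith
    set η := 16 * D / min (T γ) (T' γ) with hη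
    have hw := win_win hC γ
    have hw' := win_win hC' γ
    have hmin : 0 < min (T γ) (T' γ) := lt_min hTp hTp'
    have hmin2 : SS s γ / 2 ≤ min (T γ) (T' γ) := le_min (hT γ).1 (hT' γ).1
    have hη0 : 0 ≤ η := by positivity
    have hηS : η * SS s γ ≤ 32 * D := by
      rw [hη, div_mul_eq_mul_div, div_le_iff₀ hmin]
      nlinarith
    have hl := fun m => win_lip hC hC' hD hTp hTp' m
    have hc := gauge_cmp (NF_isN hw') (NF_isN hw) (bdd_fib hs γ) (bdd_fib hs γ)
      (ε := 11 * η) (δ := 0) (by positivity) le_rfl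
      (fun f hf => NF_win hw hw' (fun m => (hl m).1) (fun m => (hl m).2) hf)
      (fun j => by simp)
    have hc' : FT s T γ ≤ FT s T' γ + 11 * η / 1000 * FT s T' γ := by
      have : FT s T γ ≤ FT s T' γ + 11 * η / 1000 * FT s T' γ + LG * 0 := hc
      linarith
    have h3 : η * FT s T' γ ≤ 32 * D := (mul_le_mul_of_nonneg_left hK2.2 hη0).trans hηS
    nlinarith

theorem FT_contr {s : Gam → J → ℝ} (hs : Van s) {T T' : Gam → ℝ} (hT : K s T) (hT' : K s T')
    {D : ℝ} (hD : ∀ β, |T β - T' β| ≤ D) (γ : Gam) :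
    |FT s T γ - FT s T' γ| ≤ 352 / 1000 * D := by
  have h1 := FT_one hs hT hT' hD γ
  have h2 := FT_one hs hT' hT (D := D) (fun β => by rw [abs_sub_comm]; exact hD β) γ
  rw [abs_le]
  constructor <;> linarith

/-- the iteration -/
noncomputable def itr (s : Gam → J → ℝ) : ℕ → Gam → ℝ
  | 0 => SS s
  | (n + 1) => FT s (itr s n)

theorem itr_K {s : Gam → J → ℝ} (hs : Van s) (n : ℕ) : K s (itr s n) := by
  induction n with
  | zero =>
    intro γ
    have := SS_nonneg hs γ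
    show SS s γ / 2 ≤ SS s γ ∧ SS s γ ≤ SS s γ
    exact ⟨by linarith, le_rfl⟩
  | succ n ih => exact FT_K hs (K_C0p hs ih)

theorem itr_step {s : Gam → J → ℝ} (hs : Van s) {M : ℝ} (hM : ∀ γ j, |s γ j| ≤ M) (n : ℕ)
    (γ : Gam) : |itr s n γ - itr s (n + 1) γ| ≤ M * (352 / 1000) ^ n := by
  induction n generalizing γ with
  | zero =>
    have h0 := itr_K hs 0 γ
    have h1 := itr_K hs 1 γ
    have h2 : SS s γ ≤ M := SS_le (hM γ)
    have h3 := SS_nonneg hs γ
    rw [abs_le]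
    constructor <;> simp only [pow_zero, mul_one] <;> linarith [h0.1, h0.2, h1.1, h1.2]
  | succ n ih =>
    have := FT_contr hs (itr_K hs n) (itr_K hs (n + 1)) ih γ
    have h2 : |itr s (n + 1) γ - itr s (n + 1 + 1) γ| ≤ 352 / 1000 * (M * (352 / 1000) ^ n) := this
    calc _ ≤ _ := h2
      _ = M * (352 / 1000) ^ (n + 1) := by ring

theorem itr_cauchy {s : Gam → J → ℝ} (hs : Van s) (γ : Gam) :
    CauchySeq (fun n => itr s n γ) := by
  obtain ⟨M, hM⟩ := hs.bdd
  refine cauchySeq_of_le_geometric (352 / 1000) M (by norm_num) ?_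
  intro n
  rw [Real.dist_eq]
  exact itr_step hs hM n γ

/-- the limit of the iteration -/
noncomputable def lim (s : Gam → J → ℝ) (γ : Gam) : ℝ :=
  limUnder atTop (fun n => itr s n γ)

theorem lim_tendsto {s : Gam → J → ℝ} (hs : Van s) (γ : Gam) :
    Tendsto (fun n => itr s n γ) atTop (𝓝 (lim s γ)) :=
  tendsto_nhds_limUnder (cauchySeq_tendsto_of_complete (itr_cauchy hs γ))

theorem lim_dist {s : Gam → J → ℝ} (hs : Van s) {M : ℝ} (hM : ∀ γ j, |s γ j| ≤ M) (n : ℕ)
    (γ : Gam) : |itr s n γ - lim s γ| ≤ M * (352 / 1000) ^ n / (1 - 352 / 1000) := by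
  have := dist_le_of_le_geometric_of_tendsto (352 / 1000) M (by norm_num)
    (fun n => by rw [Real.dist_eq]; exact itr_step hs hM n γ) (lim_tendsto hs γ) n
  rwa [Real.dist_eq] at this

theorem lim_K {s : Gam → J → ℝ} (hs : Van s) : K s (lim s) := fun γ =>
  ⟨ge_of_tendsto' (lim_tendsto hs γ) fun n => (itr_K hs n γ).1,
   le_of_tendsto' (lim_tendsto hs γ) fun n => (itr_K hs n γ).2⟩

theorem lim_fix {s : Gam → J → ℝ} (hs : Van s) (γ : Gam) : FT s (lim s) γ = lim s γ := by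
  obtain ⟨M, hM⟩ := hs.bdd
  have h1 : Tendsto (fun n => itr s (n + 1) γ) atTop (𝓝 (lim s γ)) :=
    (tendsto_add_atTop_iff_nat 1).2 (lim_tendsto hs γ)
  have h2 : Tendsto (fun n => itr s (n + 1) γ) atTop (𝓝 (FT s (lim s) γ)) := by
    rw [tendsto_iff_dist_tendsto_zero]
    have hz : Tendsto (fun n : ℕ => 352 / 1000 * (M * (352 / 1000 : ℝ) ^ n / (1 - 352 / 1000)))
        atTop (𝓝 0) := by
      have h := tendsto_pow_atTop_nhds_zero_of_lt_one (r := (352 / 1000 : ℝ)) (by norm_num)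
        (by norm_num)
      have h' := ((h.const_mul M).div_const (1 - 352 / 1000)).const_mul (352 / 1000)
      simpa using h'
    refine squeeze_zero (fun n => dist_nonneg) (fun n => ?_) hz
    rw [Real.dist_eq]
    exact FT_contr hs (itr_K hs n) (lim_K hs) (lim_dist hs hM n) γ
  exact tendsto_nhds_unique h2 h1

end Sys

open Sys

theorem sys_exists {s : Gam → J → ℝ} (hs : Van s) : ∃ T : Gam → ℝ, IsSys s T :=
  ⟨lim s, K_C0p hs (lim_K hs), fun γ => (lim_fix hs γ).symm⟩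

namespace Sys

theorem sys_bound {s : Gam → J → ℝ} {T : Gam → ℝ} (hT : IsSys s T) {M : ℝ} (hM0 : 0 ≤ M)
    {γ : Gam} (hM : ∀ j, |s γ j| ≤ M) : T γ ≤ M := by
  rw [hT.eq γ]
  exact gauge_le (NF_isN (win_win hT.c0 γ)) hM0 hM

theorem sys_zero {s : Gam → J → ℝ} (hs : Van s) {T : Gam → ℝ} (hT : IsSys s T) {γ : Gam}
    (h : T γ = 0) (j : J) : s γ j = 0 := by
  have h1 := le_gauge (NF_isN (win_win hT.c0 γ)) (bdd_fib hs γ) j
  rw [← hT.eq γ, h] at h1
  exact abs_eq_zero.1 (le_antisymm (by linarith) (abs_nonneg _))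

/-- one half of the Lipschitz estimate -/
theorem sys_half {s s' : Gam → J → ℝ} (hs : Van s) (hs' : Van s') {T T' : Gam → ℝ}
    (hT : IsSys s T) (hT' : IsSys s' T') {δ : ℝ} (hδ : 0 ≤ δ)
    (h : ∀ γ j, |s γ j - s' γ j| ≤ δ) {D : ℝ} (hD : ∀ β, |T β - T' β| ≤ D) (γ : Gam) :
    T' γ ≤ T γ + 176 / 1000 * D + LG * δ := by
  have hLG := LG_ge
  have hD0 : 0 ≤ D := (abs_nonneg _).trans (hD γ)
  have hLGδ : 0 ≤ LG * δ := mul_nonneg (by linarith) hδ
  have hTn := hT.c0.nonneg γ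
  rcases hTn.eq_or_lt with h0 | hpos
  · -- `T γ = 0`
    have hz := sys_zero hs hT h0.symm
    have h1 : T' γ ≤ δ := by
      refine sys_bound hT' hδ fun j => ?_
      have := h γ j
      rw [hz j, zero_sub, abs_neg] at this
      exact this
    nlinarith
  · rcases le_total (T' γ) (T γ) with hle | hle
    · nlinarith
    · have hpos' : 0 < T' γ := lt_of_lt_of_le hpos hle
      have hw := win_win hT.c0 γ
      have hw' := win_win hT'.c0 γ
      have hmin : min (T γ) (T' γ) = T γ := min_eq_left hle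
      set η := 16 * D / min (T γ) (T' γ) with hη
      have hη0 : 0 ≤ η := by rw [hη, hmin]; positivity
      have hηT : η * T γ = 16 * D := by
        rw [hη, hmin]; field_simp
      have hl := fun m => win_lip hT.c0 hT'.c0 hD hpos hpos' m
      have hc := gauge_cmp (NF_isN hw) (NF_isN hw') (bdd_fib hs γ) (bdd_fib hs' γ)
        (ε := 11 * η) (δ := δ) (by positivity) hδ
        (fun f hf => NF_win hw' hw (fun m => by rw [abs_sub_comm]; exact (hl m).1)
          (fun m => by rw [abs_sub_comm]; exact (hl m).2) hf)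
        (fun j => h γ j)
      rw [← hT.eq γ, ← hT'.eq γ] at hc
      have : 11 * η / 1000 * T γ = 176 / 1000 * D := by
        calc 11 * η / 1000 * T γ = 11 / 1000 * (η * T γ) := by ring
          _ = _ := by rw [hηT]; ring
      linarith

end Sys

theorem sys_lip {s s' : Gam → J → ℝ} (hs : Van s) (hs' : Van s') {T T' : Gam → ℝ}
    (hT : IsSys s T) (hT' : IsSys s' T') {δ : ℝ} (hδ : 0 ≤ δ)
    (h : ∀ γ j, |s γ j - s' γ j| ≤ δ) (γ : Gam) : |T γ - T' γ| ≤ 2 * LG * δ := by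
  obtain ⟨M, hM⟩ := hs.bdd
  obtain ⟨M', hM'⟩ := hs'.bdd
  have hM0 : 0 ≤ M := (abs_nonneg _).trans (hM γ none)
  have hM0' : 0 ≤ M' := (abs_nonneg _).trans (hM' γ none)
  have hbdd : BddAbove (Set.range fun β => |T β - T' β|) := by
    refine ⟨M + M', ?_⟩
    rintro _ ⟨β, rfl⟩
    have h1 := sys_bound hT hM0 (hM β)
    have h2 := sys_bound hT' hM0' (hM' β)
    have h3 := hT.c0.nonneg β
    have h4 := hT'.c0.nonneg β
    show |T β - T' β| ≤ M + M'
    rw [abs_le]
    constructor <;> linarith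
  have : Nonempty Gam := ⟨γ⟩
  set D := ⨆ β, |T β - T' β| with hDdef
  have hD : ∀ β, |T β - T' β| ≤ D := fun β => le_ciSup hbdd β
  have hstep : ∀ β, |T β - T' β| ≤ 176 / 1000 * D + LG * δ := by
    intro β
    have h1 := sys_half hs hs' hT hT' hδ h hD β
    have h2 := sys_half hs' hs hT' hT hδ (fun γ j => by rw [abs_sub_comm]; exact h γ j)
      (D := D) (fun β => by rw [abs_sub_comm]; exact hD β) β
    rw [abs_le]
    constructor <;> linarith
  have hD2 : D ≤ 176 / 1000 * D + LG * δ := ciSup_le hstep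
  have hLG := LG_ge
  have hLGδ : 0 ≤ LG * δ := mul_nonneg (by linarith) hδ
  have := hD γ
  nlinarith

end Pool.Agent.Helper94.WUR
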