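import Pool.Agent.Helper94.WUR.Tok
import Pool.Agent.Helper94.WUR.GFun
import Pool.Agent.Helper94.WUR.Gauge
import Pool.Agent.Helper94.WUR.Fib
import Pool.Agent.Helper94.WUR.Windows
import Pool.Agent.Helper94.WUR.Sys
import Pool.Agent.Helper94.WUR.MapA
import Pool.Agent.Helper94.WUR.MapB
import Pool.Agent.Helper94.WUR.MapC
import Pool.Agent.Helper94.WUR.Space

/-!
# `X` and `Y = c₀(Γ) ⊕ X` are Lipschitz homeomorphic
-/

set_option autoImplicit false

namespace Pool.Agent.Helper94.WUR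

/-! ## Fibres of elements of `X` and `Y` -/

/-- the fibres of a pair (function on `Γ`, element of `X`) -/
noncomputable def fib (r : Gam → ℝ) (x : X) (γ : Gam) : J → ℝ
  | none => r γ
  | some (i, m) => co x i m γ

theorem fib_van {r : Gam → ℝ} (x : X) (hb : ∃ M : ℝ, ∀ γ, |r γ| ≤ M)
    (hr : ∀ ε : ℝ, 0 < ε → {γ : Gam | ε ≤ |r γ|}.Finite) : Van (fib r x) := by
  refine ⟨?_, ?_⟩
  · obtain ⟨M, hM⟩ := hb
    refine ⟨max M ‖x‖, ?_⟩
    intro γ j
    rcases j with _ | ⟨i, m⟩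
    · exact (hM γ).trans (le_max_left _ _)
    · exact (co_le x i m γ).trans (le_max_right _ _)
  · intro ε hε
    have h1 := hr ε hε
    have h2 := (co_van x hε).image (fun q : ℕ × ℕ × Gam => q.2.2)
    refine (h1.union h2).subset ?_
    rintro γ ⟨j, hj⟩
    rcases j with _ | ⟨i, m⟩
    · exact Or.inl hj
    · exact Or.inr ⟨(i, m, γ), hj, rfl⟩

/-- the fibre itself vanishes at infinity -/
theorem fib_van' (r : Gam → ℝ) (x : X) (γ : Gam) {ε : ℝ} (hε : 0 < ε) :
    {j : J | ε ≤ |fib r x γ j|}.Finite := by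
  have h2 := (co_van x hε).image (fun q : ℕ × ℕ × Gam => (some (q.1, q.2.1) : J))
  refine ((Set.finite_singleton (none : J)).union h2).subset ?_
  intro j hj
  rcases j with _ | ⟨i, m⟩
  · exact Or.inl rfl
  · exact Or.inr ⟨(i, m, γ), hj, rfl⟩

theorem fib_bdd {s : Gam → J → ℝ} (hs : Van s) (γ : Gam) : Bdd (s γ) := by
  obtain ⟨M, hM⟩ := hs.bdd
  exact ⟨M, hM γ⟩

/-! ## Facts on solutions of the coupled system -/

theorem sys_pos {s : Gam → J → ℝ} (hs : Van s) {T : Gam → ℝ} (hT : IsSys s T) {γ : Gam}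
    (h : 0 < T γ) : NF (kk T γ) (pp T γ) (fun j => G (s γ j / T γ)) = 14 := by
  have hw := win_win hT.c0 γ
  have hb := fib_bdd hs γ
  by_cases h0 : ∃ j, s γ j ≠ 0
  · have := (gauge_spec (NF_isN hw) hb h0).2
    rwa [← hT.eq γ] at this
  · push Not at h0
    have := gauge_zero (NF_isN hw) h0
    rw [← hT.eq γ] at this
    exact absurd this h.ne'

theorem sys_le {s : Gam → J → ℝ} (hs : Van s) {T : Gam → ℝ} (hT : IsSys s T) (γ : Gam) (j : J) :
    |s γ j| ≤ 2 * T γ := by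
  rw [hT.eq γ]
  exact le_gauge (NF_isN (win_win hT.c0 γ)) (fib_bdd hs γ) j

theorem sys_of {s : Gam → J → ℝ} (hs : Van s) {T : Gam → ℝ} (hc : C0p T)
    (h0 : ∀ γ, T γ = 0 → ∀ j, s γ j = 0)
    (h1 : ∀ γ, 0 < T γ → NF (kk T γ) (pp T γ) (fun j => G (s γ j / T γ)) = 14) : IsSys s T := by
  refine ⟨hc, ?_⟩
  intro γ
  have hw := win_win hc γ
  rcases (hc.nonneg γ).eq_or_lt with h | h
  · rw [gauge_zero (NF_isN hw) (h0 γ h.symm), ← h]
  · rw [gauge_unique (NF_isN hw) (fib_bdd hs γ) h (h1 γ h)]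

theorem sys_unique {s : Gam → J → ℝ} (hs : Van s) {T T' : Gam → ℝ} (hT : IsSys s T)
    (hT' : IsSys s T') : T = T' := by
  funext γ
  have := sys_lip hs hs hT hT' (δ := 0) le_rfl (fun γ j => by simp) γ
  rw [mul_zero] at this
  exact sub_eq_zero.1 (abs_nonpos_iff.1 this)

/-! ## The two fibre maps as one -/

/-- a fibre map with the properties common to `fwd` and `bwd` -/
structure FMap (Q : (ℕ → ℝ) → (ℕ → ℝ) → ℝ → (J → ℝ) → J → ℝ) : Prop where
  of_k : ∀ (k p : ℕ → ℝ) (T : ℝ), 0 < T → ∀ (s : J → ℝ) (m : ℕ), k m = 0 → ∀ i : ℕ,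
    Q k p T s (some (i, m)) = s (some (i, m))
  bound : ∀ (k p : ℕ → ℝ), Win k p → ∀ T : ℝ, 0 ≤ T → ∀ s : J → ℝ, Bdd s →
    NF k p (fun j => G (s j / T)) ≤ 14 → ∀ j, |Q k p T s j| ≤ 2 * T
  lip : ∀ (k p k' p' : ℕ → ℝ), Win k p → Win k' p' → ∀ T T' : ℝ, 0 < T → 0 < T' →
    ∀ s s' : J → ℝ, Bdd s → Bdd s' → NF k p (fun j => G (s j / T)) ≤ 14 →
    NF k' p' (fun j => G (s' j / T')) ≤ 14 → ∀ η D δ : ℝ, 0 ≤ δ → (∀ m, |k m - k' m| ≤ η) →
    (∀ m, |p m - p' m| ≤ η) → η * max T T' ≤ D → |T - T'| ≤ D → (∀ j, |s j - s' j| ≤ δ) →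
    ∀ j, |Q k p T s j - Q k' p' T' s' j| ≤ 100 * LG * (D + δ)
  van : ∀ (k p : ℕ → ℝ), Win k p → (∃ M : ℕ, ∀ m, M ≤ m → k m = 0) → ∀ T : ℝ, 0 < T →
    ∀ s : J → ℝ, Bdd s → (∀ ε : ℝ, 0 < ε → {j : J | ε ≤ |s j|}.Finite) → ∀ ε : ℝ, 0 < ε →
    {j : J | ε ≤ |Q k p T s j|}.Finite
  zero : ∀ (k p : ℕ → ℝ) (s : J → ℝ) (j : J), Q k p 0 s j = 0

theorem fwd_FMap : FMap fwd where
  of_k := fun k p T hT s m hm i => fwd_of_k hT s hm i
  bound := fun k p hw T hT s hs hN j => fwd_bound hw hT hs hN j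
  lip := fun k p k' p' hw hw' T T' hT hT' s s' hs hs' hN hN' η D δ hδ hk hp hη hD hd j =>
    fwd_lip hw hw' hT hT' hs hs' hN hN' hδ hk hp hη hD hd j
  van := fun k p hw hk T hT s hs hv ε hε => fwd_van hw hk hT hs hv hε
  zero := by
    intro k p s j
    rcases j with _ | ⟨i, m⟩ <;> simp [fwd]

theorem bwd_FMap : FMap bwd where
  of_k := fun k p T hT s m hm i => bwd_of_k hT s hm i
  bound := fun k p hw T hT s hs hN j => bwd_bound hw hT hs hN j
  lip := fun k p k' p' hw hw' T T' hT hT' s s' hs hs' hN hN' η D δ hδ hk hp hη hD hd j =>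
    bwd_lip hw hw' hT hT' hs hs' hN hN' hδ hk hp hη hD hd j
  van := fun k p hw hk T hT s hs hv ε hε => bwd_van hw hk hT hs hv hε
  zero := by
    intro k p s j
    rcases j with _ | ⟨i, m⟩ <;> simp [bwd]

section maps

variable {Q : (ℕ → ℝ) → (ℕ → ℝ) → ℝ → (J → ℝ) → J → ℝ}

/-- the image fibres -/
noncomputable def img (Q : (ℕ → ℝ) → (ℕ → ℝ) → ℝ → (J → ℝ) → J → ℝ) (T : Gam → ℝ)
    (s : Gam → J → ℝ) (γ : Gam) : J → ℝ := Q (kk T γ) (pp T γ) (T γ) (s γ)

theorem img_bound (hQ : FMap Q) {s : Gam → J → ℝ} (hs : Van s) {T : Gam → ℝ} (hT : IsSys s T)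
    (γ : Gam) (j : J) : |img Q T s γ j| ≤ 2 * T γ := by
  rcases (hT.c0.nonneg γ).eq_or_lt with h | h
  · have : img Q T s γ j = 0 := by
      unfold img; rw [← h]; exact hQ.zero _ _ _ _
    rw [this, ← h]; simp
  · exact hQ.bound _ _ (win_win hT.c0 γ) _ h.le _ (fib_bdd hs γ) (sys_pos hs hT h).le j

theorem T_bound {s : Gam → J → ℝ} (hs : Van s) {T : Gam → ℝ} (hT : IsSys s T) {M : ℝ}
    (hM : 0 ≤ M) (h : ∀ γ j, |s γ j| ≤ M) (γ : Gam) : T γ ≤ M := by
  rw [hT.eq γ]
  exact gauge_le (NF_isN (win_win hT.c0 γ)) hM (h γ)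

/-- in block `(i, m)` at most `2 ^ m` coordinates change -/
theorem img_card (hQ : FMap Q) {s : Gam → J → ℝ} (hs : Van s) {T : Gam → ℝ} (hT : IsSys s T)
    (i m : ℕ) : ∃ S : Finset Gam, S.card ≤ 2 ^ m ∧ ∀ γ, γ ∉ S →
      img Q T s γ (some (i, m)) - s γ (some (i, m)) = 0 := by
  classical
  have hfin : {γ : Gam | 0 < T γ ∧ kk T γ m ≠ 0}.Finite := by
    by_contra hinf
    obtain ⟨F, hF, hcard⟩ := Set.Infinite.exists_subset_card_eq hinf (2 ^ m + 1)
    have := win_card hT.c0 m F (fun γ hγ => hF hγ)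
    omega
  refine ⟨hfin.toFinset, win_card hT.c0 m _ (fun γ hγ => by simpa using hγ), ?_⟩
  intro γ hγ
  simp only [Set.Finite.mem_toFinset, Set.mem_ofPred_eq, not_and, not_not] at hγ
  rcases (hT.c0.nonneg γ).eq_or_lt with h | h
  · have h1 : img Q T s γ (some (i, m)) = 0 := by
      unfold img; rw [← h]; exact hQ.zero _ _ _ _
    have h2 : s γ (some (i, m)) = 0 := by
      have := sys_le hs hT γ (some (i, m))
      rw [← h, mul_zero] at this
      exact abs_nonpos_iff.1 this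
    rw [h1, h2, sub_zero]
  · have : img Q T s γ (some (i, m)) = s γ (some (i, m)) := by
      unfold img
      exact hQ.of_k _ _ _ h _ _ (hγ h) i
    rw [this, sub_self]

theorem img_fin (hQ : FMap Q) {s : Gam → J → ℝ} (hs : Van s) {T : Gam → ℝ} (hT : IsSys s T)
    (hv : ∀ γ, ∀ ε : ℝ, 0 < ε → {j : J | ε ≤ |s γ j|}.Finite) {ε : ℝ} (hε : 0 < ε) :
    {q : Gam × J | ε ≤ |img Q T s q.1 q.2|}.Finite := by
  classical
  have h1 : {γ : Gam | ε / 2 ≤ T γ}.Finite := hT.c0.van _ (by positivity)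
  have h2 : (⋃ γ ∈ {γ : Gam | ε / 2 ≤ T γ},
      (fun j : J => (γ, j)) '' {j : J | ε ≤ |img Q T s γ j|}).Finite := by
    refine h1.biUnion ?_
    intro γ hγ
    refine Set.Finite.image _ ?_
    have hpos : 0 < T γ := lt_of_lt_of_le (by positivity) hγ
    exact hQ.van _ _ (win_win hT.c0 γ) (win_tail hT.c0 γ) _ hpos _ (fib_bdd hs γ) (hv γ) ε hε
  refine h2.subset ?_
  rintro ⟨γ, j⟩ hj
  simp only [Set.mem_ofPred_eq] at hj
  simp only [Set.mem_ofPred_eq, Set.mem_iUnion, Set.mem_image, Prod.mk.injEq, exists_prop]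
  refine ⟨γ, ?_, j, hj, rfl, rfl⟩
  have := img_bound hQ hs hT γ j
  linarith

theorem img_lip (hQ : FMap Q) {s s' : Gam → J → ℝ} (hs : Van s) (hs' : Van s')
    {T T' : Gam → ℝ} (hT : IsSys s T) (hT' : IsSys s' T') {δ : ℝ} (hδ : 0 ≤ δ)
    (h : ∀ γ j, |s γ j - s' γ j| ≤ δ) (γ : Gam) (j : J) :
    |img Q T s γ j - img Q T' s' γ j| ≤ 100 * LG * (64 * LG * δ + δ) := by
  have hLG : (100 : ℝ) ≤ LG := LG_ge
  have hD : ∀ β, |T β - T' β| ≤ 2 * LG * δ := sys_lip hs hs' hT hT' hδ h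
  have hD0 : 0 ≤ 2 * LG * δ := by positivity
  have hbig : 4 * LG * δ ≤ 100 * LG * (64 * LG * δ + δ) := by nlinarith [mul_nonneg hδ (by linarith : (0:ℝ) ≤ LG)]
  rcases (hT.c0.nonneg γ).eq_or_lt with h0 | h0
  · have h1 : img Q T s γ j = 0 := by
      unfold img; rw [← h0]; exact hQ.zero _ _ _ _
    have h2 := img_bound hQ hs' hT' γ j
    have h3 := hD γ
    rw [← h0, zero_sub, abs_neg] at h3
    have h4 := le_abs_self (T' γ)
    rw [h1, zero_sub, abs_neg]
    linarith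
  rcases (hT'.c0.nonneg γ).eq_or_lt with h0' | h0'
  · have h1 : img Q T' s' γ j = 0 := by
      unfold img; rw [← h0']; exact hQ.zero _ _ _ _
    have h2 := img_bound hQ hs hT γ j
    have h3 := hD γ
    rw [← h0', sub_zero] at h3
    have h4 := le_abs_self (T γ)
    rw [h1, sub_zero]
    linarith
  · set D : ℝ := 2 * LG * δ with hDdef
    -- the bound for the change of windows
    by_cases hcase : max (T γ) (T' γ) ≤ 2 * min (T γ) (T' γ)
    · have hmin : 0 < min (T γ) (T' γ) := lt_min h0 h0'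
      refine (hQ.lip _ _ _ _ (win_win hT.c0 γ) (win_win hT'.c0 γ) _ _ h0 h0' _ _ (fib_bdd hs γ)
        (fib_bdd hs' γ) (sys_pos hs hT h0).le (sys_pos hs' hT' h0').le
        (16 * D / min (T γ) (T' γ)) (32 * D) δ hδ (fun m => (win_lip hT.c0 hT'.c0 hD h0 h0' m).1)
        (fun m => (win_lip hT.c0 hT'.c0 hD h0 h0' m).2) ?_ ?_ (h γ) j).trans (le_of_eq ?_)
      · rw [div_mul_eq_mul_div, div_le_iff₀ hmin]
        nlinarith [mul_le_mul_of_nonneg_left hcase (mul_nonneg (by norm_num : (0:ℝ) ≤ 16) hD0)]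
      · have := hD γ
        linarith
      · rw [hDdef]; ring
    · -- then both scales are at most `4 D`
      have h1 := img_bound hQ hs hT γ j
      have h2 := img_bound hQ hs' hT' γ j
      have h3 := hD γ
      have h4 : T γ ≤ 2 * D ∧ T' γ ≤ 2 * D := by
        rcases le_total (T γ) (T' γ) with hle | hle
        · rw [max_eq_right hle, min_eq_left hle] at hcase
          push Not at hcase
          rw [abs_sub_comm, abs_of_nonneg (sub_nonneg.2 hle)] at h3
          constructor <;> linarith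
        · rw [max_eq_left hle, min_eq_right hle] at hcase
          push Not at hcase
          rw [abs_of_nonneg (sub_nonneg.2 hle)] at h3
          constructor <;> linarith
      have h5 := abs_sub (img Q T s γ j) (img Q T' s' γ j)
      have h6 : |img Q T s γ j - img Q T' s' γ j| ≤ 8 * D := by linarith [h4.1, h4.2]
      refine h6.trans ?_
      rw [hDdef]
      nlinarith [mul_nonneg hδ (by linarith : (0:ℝ) ≤ LG)]

/-- the element of `X` with given difference to `x` -/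
theorem exists_img (hQ : FMap Q) (r : Gam → ℝ) (x : X) (hs : Van (fib r x)) {T : Gam → ℝ}
    (hT : IsSys (fib r x) T) :
    ∃ y : X, ∀ i m γ, co y i m γ = img Q T (fib r x) γ (some (i, m)) := by
  classical
  obtain ⟨e, he⟩ := exists_few (fun i m γ => img Q T (fib r x) γ (some (i, m)) - co x i m γ)
    (fun i m => img_card hQ hs hT i m) (by
      intro ε hε
      have h1 := (img_fin hQ hs hT (fun γ ε hε => fib_van' r x γ hε) (half_pos hε)).image
        (fun q : Gam × J => ((q.2.getD (0, 0)).1, (q.2.getD (0, 0)).2, q.1))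
      have h2 := co_van x (half_pos hε)
      refine (h1.union h2).subset ?_
      rintro ⟨i, m, γ⟩ hq
      simp only [Set.mem_ofPred_eq] at hq
      by_cases hc : ε / 2 ≤ |co x i m γ|
      · exact Or.inr hc
      · refine Or.inl ⟨(γ, some (i, m)), ?_, rfl⟩
        push Not at hc
        simp only [Set.mem_ofPred_eq]
        have := abs_sub (img Q T (fib r x) γ (some (i, m))) (co x i m γ)
        linarith)
  refine ⟨x + e, ?_⟩
  intro i m γ
  rw [co_add, he]
  ring

end maps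

/-! ## The homeomorphism -/

theorem van_zero (x : X) : Van (fib (fun _ => 0) x) :=
  fib_van x ⟨0, fun γ => by simp⟩ (fun ε hε => by
    have : {γ : Gam | ε ≤ |(0 : ℝ)|} = ∅ := by
      ext γ
      simp only [abs_zero, Set.mem_ofPred_eq, Set.mem_empty_iff_false, iff_false, not_le]
      exact hε
    rw [this]
    exact Set.finite_empty)

theorem c0Y_van (r : ZeroAtInftyContinuousMap Gam ℝ) {ε : ℝ} (hε : 0 < ε) :
    {γ : Gam | ε ≤ |r γ|}.Finite := by
  have h := r.zero_at_infty'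
  rw [Filter.cocompact_eq_cofinite] at h
  have h2 := h (Metric.ball_mem_nhds (0 : ℝ) hε)
  rw [Filter.mem_map, Filter.mem_cofinite] at h2
  refine h2.subset ?_
  intro γ hγ
  simp only [Set.mem_ofPred_eq] at hγ
  simp only [Set.mem_compl_iff, Set.mem_preimage, Metric.mem_ball, dist_zero_right,
    Real.norm_eq_abs, not_lt]
  exact hγ

theorem c0Y_le (r : ZeroAtInftyContinuousMap Gam ℝ) (γ : Gam) : |r γ| ≤ ‖r‖ :=
  (ZeroAtInftyContinuousMap.toBCF r).norm_coe_le_norm γ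

theorem van_Y (y : Y) : Van (fib (fun γ => y.1 γ) y.2) :=
  fib_van y.2 ⟨‖y.1‖, fun γ => c0Y_le y.1 γ⟩ (fun _ hε => c0Y_van y.1 hε)

/-- the scales of an element of `Y` -/
theorem exists_TY (y : Y) : ∃ T : Gam → ℝ, IsSys (fib (fun γ => y.1 γ) y.2) T :=
  sys_exists (van_Y y)

theorem exists_TX (x : X) : ∃ T : Gam → ℝ, IsSys (fib (fun _ => 0) x) T :=
  sys_exists (van_zero x)

/-- an element of `c₀(Γ)` from a function vanishing at infinity -/
theorem exists_c0 (f : Gam → ℝ) (hf : ∀ ε : ℝ, 0 < ε → {γ : Gam | ε ≤ |f γ|}.Finite) :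
    ∃ r : ZeroAtInftyContinuousMap Gam ℝ, ∀ γ, r γ = f γ := by
  refine ⟨⟨⟨f, continuous_of_discreteTopology⟩, ?_⟩, fun γ => rfl⟩
  rw [Filter.cocompact_eq_cofinite, Metric.tendsto_nhds]
  intro ε hε
  rw [Filter.eventually_cofinite]
  refine (hf ε hε).subset ?_
  intro γ hγ
  simp only [Set.mem_ofPred_eq, dist_zero_right, Real.norm_eq_abs, not_lt] at hγ
  exact hγ

theorem exists_Phi (x : X) : ∃ y : Y, ∃ T : Gam → ℝ, IsSys (fib (fun _ => 0) x) T ∧
    ∀ γ, fib (fun γ => y.1 γ) y.2 γ = img fwd T (fib (fun _ => 0) x) γ := by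
  obtain ⟨T, hT⟩ := exists_TX x
  have hs := van_zero x
  obtain ⟨y2, hy2⟩ := exists_img fwd_FMap _ x hs hT
  obtain ⟨y1, hy1⟩ := exists_c0 (fun γ => img fwd T (fib (fun _ => 0) x) γ none) (by
    intro ε hε
    have h1 : {γ : Gam | ε / 2 ≤ T γ}.Finite := hT.c0.van _ (half_pos hε)
    refine h1.subset ?_
    intro γ hγ
    simp only [Set.mem_ofPred_eq] at hγ ⊢
    have := img_bound fwd_FMap hs hT γ none
    linarith)
  refine ⟨(y1, y2), T, hT, ?_⟩
  intro γ
  funext j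
  rcases j with _ | ⟨i, m⟩
  · exact hy1 γ
  · exact hy2 i m γ

theorem exists_Psi (y : Y) : ∃ x : X, ∃ T : Gam → ℝ, IsSys (fib (fun γ => y.1 γ) y.2) T ∧
    ∀ γ, fib (fun _ => 0) x γ = img bwd T (fib (fun γ => y.1 γ) y.2) γ := by
  obtain ⟨T, hT⟩ := exists_TY y
  have hs := van_Y y
  obtain ⟨x, hx⟩ := exists_img bwd_FMap _ y.2 hs hT
  refine ⟨x, T, hT, ?_⟩
  intro γ
  funext j
  rcases j with _ | ⟨i, m⟩
  · simp [img, bwd, fib]
  · exact hx i m γ

/-- the map `X → Y` -/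
noncomputable def Phi (x : X) : Y := (exists_Phi x).choose

/-- its scales -/
noncomputable def TX (x : X) : Gam → ℝ := (exists_Phi x).choose_spec.choose

theorem TX_sys (x : X) : IsSys (fib (fun _ => 0) x) (TX x) :=
  (exists_Phi x).choose_spec.choose_spec.1

theorem Phi_fib (x : X) (γ : Gam) :
    fib (fun γ => (Phi x).1 γ) (Phi x).2 γ = img fwd (TX x) (fib (fun _ => 0) x) γ :=
  (exists_Phi x).choose_spec.choose_spec.2 γ

/-- the map `Y → X` -/
noncomputable def Psi (y : Y) : X := (exists_Psi y).choose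

/-- its scales -/
noncomputable def TY (y : Y) : Gam → ℝ := (exists_Psi y).choose_spec.choose

theorem TY_sys (y : Y) : IsSys (fib (fun γ => y.1 γ) y.2) (TY y) :=
  (exists_Psi y).choose_spec.choose_spec.1

theorem Psi_fib (y : Y) (γ : Gam) :
    fib (fun _ => 0) (Psi y) γ = img bwd (TY y) (fib (fun γ => y.1 γ) y.2) γ :=
  (exists_Psi y).choose_spec.choose_spec.2 γ

theorem X_ext {x x' : X} (h : ∀ γ, fib (fun _ => 0) x γ = fib (fun _ => 0) x' γ) : x = x' := by
  apply co_ext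
  intro i m γ
  exact congrFun (h γ) (some (i, m))

theorem Y_ext {y y' : Y} (h : ∀ γ, fib (fun γ => y.1 γ) y.2 γ = fib (fun γ => y'.1 γ) y'.2 γ) :
    y = y' := by
  have h1 : y.1 = y'.1 := by
    ext γ
    exact congrFun (h γ) none
  have h2 : y.2 = y'.2 := by
    apply co_ext
    intro i m γ
    exact congrFun (h γ) (some (i, m))
  exact Prod.ext h1 h2

theorem TY_Phi (x : X) : TY (Phi x) = TX x := by
  have hX := TX_sys x
  have hs := van_zero x
  have hsY := van_Y (Phi x)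
  refine sys_unique hsY (TY_sys (Phi x)) (sys_of hsY hX.c0 ?_ ?_)
  · intro γ h0 j
    rw [Phi_fib]
    have := img_bound fwd_FMap hs hX γ j
    rw [h0, mul_zero] at this
    exact abs_nonpos_iff.1 this
  · intro γ hpos
    rw [Phi_fib]
    unfold img
    rw [NF_fwd (win_win hX.c0 γ) hpos (fib_bdd hs γ) rfl]
    exact sys_pos hs hX hpos

theorem TX_Psi (y : Y) : TX (Psi y) = TY y := by
  have hY := TY_sys y
  have hs := van_Y y
  have hsX := van_zero (Psi y)
  refine sys_unique hsX (TX_sys (Psi y)) (sys_of hsX hY.c0 ?_ ?_)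
  · intro γ h0 j
    rw [Psi_fib]
    have := img_bound bwd_FMap hs hY γ j
    rw [h0, mul_zero] at this
    exact abs_nonpos_iff.1 this
  · intro γ hpos
    rw [Psi_fib]
    unfold img
    rw [NF_bwd (win_win hY.c0 γ) hpos (fib_bdd hs γ)]
    exact sys_pos hs hY hpos

theorem Psi_Phi (x : X) : Psi (Phi x) = x := by
  apply X_ext
  intro γ
  rw [Psi_fib, TY_Phi]
  have hX := TX_sys x
  have hs := van_zero x
  rcases (hX.c0.nonneg γ).eq_or_lt with h0 | h0
  · funext j
    have h1 : img bwd (TX x) (fib (fun γ => (Phi x).1 γ) (Phi x).2) γ j = 0 := by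
      unfold img; rw [← h0]; exact bwd_FMap.zero _ _ _ _
    rw [h1]
    have := sys_le hs hX γ j
    rw [← h0, mul_zero] at this
    exact (abs_nonpos_iff.1 this).symm
  · unfold img
    rw [Phi_fib]
    unfold img
    exact bwd_fwd (win_win hX.c0 γ) h0 (fib_bdd hs γ) rfl

theorem Phi_Psi (y : Y) : Phi (Psi y) = y := by
  apply Y_ext
  intro γ
  rw [Phi_fib, TX_Psi]
  have hY := TY_sys y
  have hs := van_Y y
  rcases (hY.c0.nonneg γ).eq_or_lt with h0 | h0
  · funext j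
    have h1 : img fwd (TY y) (fib (fun _ => 0) (Psi y)) γ j = 0 := by
      unfold img; rw [← h0]; exact fwd_FMap.zero _ _ _ _
    rw [h1]
    have := sys_le hs hY γ j
    rw [← h0, mul_zero] at this
    exact (abs_nonpos_iff.1 this).symm
  · unfold img
    rw [Psi_fib]
    unfold img
    exact fwd_bwd (win_win hY.c0 γ) h0 (fib_bdd hs γ)

/-- the Lipschitz constant -/
noncomputable def KK : ℝ := 100 * LG * (64 * LG + 1)

theorem KK_ge : 1 ≤ KK := by
  have hLG : (100 : ℝ) ≤ LG := LG_ge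
  unfold KK
  nlinarith

/-- norm estimate in `X` for a difference of images -/
theorem norm_img_sub {Q : (ℕ → ℝ) → (ℕ → ℝ) → ℝ → (J → ℝ) → J → ℝ} (hQ : FMap Q)
    {r r' : Gam → ℝ} {x x' y y' : X} (hs : Van (fib r x)) (hs' : Van (fib r' x'))
    {T T' : Gam → ℝ} (hT : IsSys (fib r x) T) (hT' : IsSys (fib r' x') T')
    (hy : ∀ i m γ, co y i m γ = img Q T (fib r x) γ (some (i, m)))
    (hy' : ∀ i m γ, co y' i m γ = img Q T' (fib r' x') γ (some (i, m)))
    {δ : ℝ} (hδ : 0 ≤ δ) (hx : ‖x - x'‖ ≤ δ) (h : ∀ γ j, |fib r x γ j - fib r' x' γ j| ≤ δ) :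
    ‖y - y'‖ ≤ 5 * KK * δ := by
  classical
  have hK := KK_ge
  have key : ‖(y - x) - (y' - x')‖ ≤ 2 * (KK * δ + δ) := by
    apply norm_few
    · intro i m γ
      rw [co_sub, co_sub, co_sub, hy, hy']
      have h1 := img_lip hQ hs hs' hT hT' hδ h γ (some (i, m))
      have h2 := h γ (some (i, m))
      have h3 : 100 * LG * (64 * LG * δ + δ) = KK * δ := by unfold KK; ring
      rw [h3] at h1
      have h4 : img Q T (fib r x) γ (some (i, m)) - co x i m γ
          - (img Q T' (fib r' x') γ (some (i, m)) - co x' i m γ)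
          = (img Q T (fib r x) γ (some (i, m)) - img Q T' (fib r' x') γ (some (i, m)))
            - (fib r x γ (some (i, m)) - fib r' x' γ (some (i, m))) := by
        simp only [fib]; ring
      rw [h4]
      exact (abs_sub _ _).trans (add_le_add h1 h2)
    · intro i m
      obtain ⟨S, hS, hS'⟩ := img_card hQ hs hT i m
      obtain ⟨S1, hS1, hS1'⟩ := img_card hQ hs' hT' i m
      refine ⟨S ∪ S1, ?_, ?_⟩
      · have := Finset.card_union_le S S1
        omega
      · intro γ hγ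
        rw [Finset.mem_union, not_or] at hγ
        rw [co_sub, co_sub, co_sub, hy, hy']
        have h1 := hS' γ hγ.1
        have h2 := hS1' γ hγ.2
        simp only [fib] at h1 h2 ⊢
        linarith
  have hdec : y - y' = (x - x') + ((y - x) - (y' - x')) := by abel
  have htri : ‖y - y'‖ ≤ ‖x - x'‖ + ‖(y - x) - (y' - x')‖ := by
    rw [hdec]; exact norm_add_le (x - x') ((y - x) - (y' - x'))
  nlinarith [mul_nonneg hδ (by linarith : (0:ℝ) ≤ KK - 1)]

theorem norm_c0Y_le {r : ZeroAtInftyContinuousMap Gam ℝ} {C : ℝ} (hC : 0 ≤ C)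
    (h : ∀ γ, |r γ| ≤ C) : ‖r‖ ≤ C :=
  (BoundedContinuousFunction.norm_le (f := ZeroAtInftyContinuousMap.toBCF r) hC).2 h

theorem Phi_lip (x x' : X) : ‖Phi x - Phi x'‖ ≤ 5 * KK * ‖x - x'‖ := by
  have hs := van_zero x
  have hs' := van_zero x'
  have hT := TX_sys x
  have hT' := TX_sys x'
  have hK := KK_ge
  have hn := norm_nonneg (x - x')
  have h : ∀ γ j, |fib (fun _ => 0) x γ j - fib (fun _ => 0) x' γ j| ≤ ‖x - x'‖ := by
    intro γ j
    rcases j with _ | ⟨i, m⟩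
    · have h0 : |(0 : ℝ) - 0| ≤ ‖x - x'‖ := by rw [sub_zero, abs_zero]; exact hn
      exact h0
    · have := co_le (x - x') i m γ
      rwa [co_sub] at this
  rw [Prod.norm_def]
  apply max_le
  · apply norm_c0Y_le (by positivity)
    intro γ
    have h1 := img_lip fwd_FMap hs hs' hT hT' hn h γ none
    have h3 : 100 * LG * (64 * LG * ‖x - x'‖ + ‖x - x'‖) = KK * ‖x - x'‖ := by unfold KK; ring
    rw [h3, ← Phi_fib, ← Phi_fib] at h1
    have h4 : (Phi x - Phi x').1 γ = (Phi x).1 γ - (Phi x').1 γ := rfl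
    rw [h4]
    refine h1.trans ?_
    nlinarith
  · refine norm_img_sub fwd_FMap hs hs' hT hT' ?_ ?_ hn le_rfl h
    · intro i m γ
      exact congrFun (Phi_fib x γ) (some (i, m))
    · intro i m γ
      exact congrFun (Phi_fib x' γ) (some (i, m))

theorem Psi_lip (y y' : Y) : ‖Psi y - Psi y'‖ ≤ 5 * KK * ‖y - y'‖ := by
  have hs := van_Y y
  have hs' := van_Y y'
  have hT := TY_sys y
  have hT' := TY_sys y'
  have hK := KK_ge
  have hn := norm_nonneg (y - y')
  have h : ∀ γ j, |fib (fun γ => y.1 γ) y.2 γ j - fib (fun γ => y'.1 γ) y'.2 γ j| ≤ ‖y - y'‖ := by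
    intro γ j
    rcases j with _ | ⟨i, m⟩
    · have := c0Y_le (y.1 - y'.1) γ
      exact this.trans (norm_fst_le (y - y'))
    · have := co_le (y.2 - y'.2) i m γ
      rw [co_sub] at this
      exact this.trans (norm_snd_le (y - y'))
  refine norm_img_sub bwd_FMap hs hs' hT hT' ?_ ?_ hn (norm_snd_le (y - y')) h
  · intro i m γ
    exact congrFun (Psi_fib y γ) (some (i, m))
  · intro i m γ
    exact congrFun (Psi_fib y' γ) (some (i, m))

theorem lip_homeo : ∃ (e : X ≃ Y) (K L : NNReal), LipschitzWith K (⇑e) ∧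
    LipschitzWith L (⇑e.symm) := by
  have hK : 0 ≤ 5 * KK := by have := KK_ge; positivity
  refine ⟨⟨Phi, Psi, Psi_Phi, Phi_Psi⟩, Real.toNNReal (5 * KK), Real.toNNReal (5 * KK), ?_, ?_⟩
  · have h : LipschitzWith (Real.toNNReal (5 * KK)) Phi := by
      apply LipschitzWith.of_dist_le_mul
      intro x x'
      rw [Real.coe_toNNReal _ hK]
      have h1 : dist (Phi x) (Phi x') = ‖Phi x - Phi x'‖ := dist_eq_norm (E := Y) _ _
      have h2 : dist x x' = ‖x - x'‖ := dist_eq_norm (E := X) _ _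
      have h3 := Phi_lip x x'
      rw [← h1, ← h2] at h3
      exact h3
    exact h
  · have h : LipschitzWith (Real.toNNReal (5 * KK)) Psi := by
      apply LipschitzWith.of_dist_le_mul
      intro y y'
      rw [Real.coe_toNNReal _ hK]
      have h1 : dist (Psi y) (Psi y') = ‖Psi y - Psi y'‖ := dist_eq_norm (E := X) _ _
      have h2 : dist y y' = ‖y - y'‖ := dist_eq_norm (E := Y) _ _
      have h3 := Psi_lip y y'
      rw [← h1, ← h2] at h3
      exact h3
    exact h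

end Pool.Agent.Helper94.WUR
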