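import Pool.Agent.Helper94.WUR.Defs

/-!
Module NOTWUR: `c₀(2^ω) × Z` has no equivalent WUR norm.
-/

set_option autoImplicit false

namespace Pool.Agent.Helper94.WUR

namespace NotWur

open Filter Topology

abbrev C0 : Type := ZeroAtInftyContinuousMap Gam ℝ

theorem nrm_le {f : C0} {M : ℝ} (hM : 0 ≤ M) (h : ∀ x, |f x| ≤ M) : ‖f‖ ≤ M := by
  rw [← ZeroAtInftyContinuousMap.norm_toBCF_eq_norm]
  refine (BoundedContinuousFunction.norm_le hM).2 ?_
  intro x
  rw [Real.norm_eq_abs]
  exact h x

theorem le_nrm (f : C0) (x : Gam) : |f x| ≤ ‖f‖ := by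
  rw [← ZeroAtInftyContinuousMap.norm_toBCF_eq_norm]
  have := BoundedContinuousFunction.norm_coe_le_norm f.toBCF x
  rw [Real.norm_eq_abs] at this
  exact this

open Classical in
/-- unit vector of `c₀` -/
noncomputable def sg (g : Gam) : C0 where
  toFun := fun x => if x = g then 1 else 0
  continuous_toFun := continuous_of_discreteTopology
  zero_at_infty' := by
    refine tendsto_const_nhds.congr' ?_
    rw [Filter.cocompact_eq_cofinite]
    have h : ({g} : Set Gam)ᶜ ∈ (cofinite : Filter Gam) :=
      (Set.finite_singleton g).compl_mem_cofinite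
    filter_upwards [h] with x hx
    have : x ≠ g := fun h' => hx (by rw [h']; exact Set.mem_singleton g)
    show (0 : ℝ) = if x = g then 1 else 0
    rw [if_neg this]

open Classical in
theorem sg_self (g : Gam) : sg g g = 1 := by
  show (if g = g then (1 : ℝ) else 0) = 1
  rw [if_pos rfl]

open Classical in
theorem sg_ne {g x : Gam} (h : x ≠ g) : sg g x = 0 := by
  show (if x = g then (1 : ℝ) else 0) = 0
  rw [if_neg h]

theorem gam_uncountable : ¬ Countable Gam := by
  intro h
  have h' : Countable (ℕ → Bool) := h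
  obtain ⟨f, hf⟩ := exists_injective_nat (ℕ → Bool)
  -- surjection from ℕ onto Set ℕ contradicts Cantor
  obtain ⟨g, hg⟩ := exists_surjective_nat (ℕ → Bool)
  let φ : ℕ → Set ℕ := fun n => {k | g n k = true}
  have : Function.Surjective φ := by
    intro s
    classical
    obtain ⟨n, hn⟩ := hg (fun k => decide (k ∈ s))
    refine ⟨n, ?_⟩
    ext k
    simp [φ, hn]
  exact Function.cantor_surjective φ this

section main

variable {Z : Type} [NormedAddCommGroup Z] [NormedSpace ℝ Z]

/-- evaluation -/
noncomputable def ev (Z : Type) [NormedAddCommGroup Z] [NormedSpace ℝ Z] (g : Gam) :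
    (C0 × Z) →L[ℝ] ℝ :=
  LinearMap.mkContinuous
    { toFun := fun x => x.1 g
      map_add' := by intro x y; simp
      map_smul' := by intro c x; simp } 1 (by
    intro x
    rw [one_mul, Real.norm_eq_abs]
    exact (le_nrm x.1 g).trans (norm_fst_le x))

theorem ev_apply (g : Gam) (x : C0 × Z) : ev Z g x = x.1 g := rfl

/-- uniformity at one coordinate -/
theorem unif {N : C0 × Z → ℝ} (hadd : ∀ x y, N (x + y) ≤ N x + N y)
    (hwur : ∀ u v : ℕ → C0 × Z, (∀ n, N (u n) = 1) → (∀ n, N (v n) = 1) →
            Filter.Tendsto (fun n => N (u n + v n)) Filter.atTop (nhds 2) →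
            ∀ f : (C0 × Z) →L[ℝ] ℝ, Filter.Tendsto (fun n => f (u n - v n)) Filter.atTop (nhds 0))
    {ρ : ℝ} (hρ : 0 < ρ) (g : Gam) :
    ∃ n : ℕ, ∀ x y : C0 × Z, N x = 1 → N y = 1 → ρ ≤ |x.1 g - y.1 g| →
      N (x + y) ≤ 2 - 1 / ((n : ℝ) + 1) := by
  by_contra hcon
  push Not at hcon
  choose u v hu hv huv hN using hcon
  have ht : Tendsto (fun n => N (u n + v n)) atTop (nhds 2) := by
    have h1 : Tendsto (fun n : ℕ => (2 : ℝ) - 1 / ((n : ℝ) + 1)) atTop (nhds (2 - 0)) :=
      tendsto_const_nhds.sub tendsto_one_div_add_atTop_nhds_zero_nat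
    rw [sub_zero] at h1
    refine tendsto_of_tendsto_of_tendsto_of_le_of_le h1 tendsto_const_nhds ?_ ?_
    · intro n; exact (hN n).le
    · intro n
      have := hadd (u n) (v n)
      rw [hu n, hv n] at this
      show N (u n + v n) ≤ 2
      linarith
  have h0 := hwur u v hu hv ht (ev Z g)
  have h1 := h0.abs
  rw [abs_zero] at h1
  have h2 := (h1.eventually (gt_mem_nhds hρ)).exists
  obtain ⟨n, hn⟩ := h2
  have h3 := huv n
  have h4 : ev Z g (u n - v n) = (u n).1 g - (v n).1 g := by
    rw [ev_apply]; rfl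
  rw [h4] at hn
  linarith

end main

end NotWur

open NotWur in
theorem not_hasWUR (Z : Type) [NormedAddCommGroup Z] [NormedSpace ℝ Z] :
    ¬ HasWUR (ZeroAtInftyContinuousMap Gam ℝ × Z) := by
  rintro ⟨N, hadd, hsmul, ⟨c, C, hc, hC, hcC⟩, hwur⟩
  have hneg : ∀ x, N (-x) = N x := by
    intro x
    have := hsmul (-1) x
    rw [abs_neg, abs_one, one_mul, neg_one_smul] at this
    exact this
  have hnn : ∀ x, 0 ≤ N x := fun x => (mul_nonneg hc.le (norm_nonneg x)).trans (hcC x).1
  have hρ : 0 < 1 / C := by positivity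
  choose n hn using fun g => unif hadd hwur hρ g
  -- an infinite set with constant n
  obtain ⟨k, hk⟩ : ∃ k : ℕ, {g | n g = k}.Infinite := by
    by_contra hcon
    push Not at hcon
    apply gam_uncountable
    have hun : (Set.univ : Set Gam) = ⋃ k : ℕ, {g | n g = k} := by
      ext g; simp
    have hcu : (Set.univ : Set Gam).Countable := by
      rw [hun]
      refine Set.countable_iUnion fun k => ?_
      exact (Set.not_infinite.1 (by simpa using hcon k)).countable
    exact Set.countable_univ_iff.1 hcu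
  set A : Set Gam := {g | n g = k} with hA
  -- the set of admissible vectors
  set P : Set (C0 × Z) := {v | v.2 = 0 ∧ {g | v.1 g ≠ 0}.Finite ∧ {g | v.1 g ≠ 0} ⊆ A ∧ ‖v.1‖ ≤ 1}
    with hP
  have hPC : ∀ v ∈ P, N v ≤ C := by
    rintro v ⟨h2, -, -, h1⟩
    refine (hcC v).2.trans ?_
    have : ‖v‖ ≤ 1 := by
      rw [Prod.norm_def, h2, norm_zero]
      exact max_le h1 zero_le_one
    calc C * ‖v‖ ≤ C * 1 := mul_le_mul_of_nonneg_left this hC.le
      _ = C := mul_one C
  have hbdd : BddAbove (N '' P) := by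
    refine ⟨C, ?_⟩
    rintro _ ⟨v, hv, rfl⟩
    exact hPC v hv
  obtain ⟨g₀, hg₀⟩ := hk.nonempty
  have hsgnorm : ∀ g, ‖sg g‖ = 1 := by
    intro g
    apply le_antisymm
    · refine nrm_le zero_le_one ?_
      intro x
      by_cases h : x = g
      · rw [h, sg_self, abs_one]
      · rw [sg_ne h, abs_zero]; exact zero_le_one
    · have := le_nrm (sg g) g
      rwa [sg_self, abs_one] at this
  have hmem0 : ((sg g₀, 0) : C0 × Z) ∈ P := by
    refine ⟨rfl, ?_, ?_, (hsgnorm g₀).le⟩
    · refine (Set.finite_singleton g₀).subset ?_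
      intro g hg
      by_contra h
      exact hg (sg_ne h)
    · intro g hg
      by_cases h : g = g₀
      · rw [h]; exact hg₀
      · exact absurd (sg_ne h) hg
  set S : ℝ := sSup (N '' P) with hS
  have hcS : c ≤ S := by
    refine le_trans ?_ (le_csSup hbdd ⟨_, hmem0, rfl⟩)
    refine le_trans ?_ (hcC _).1
    have : (1 : ℝ) ≤ ‖((sg g₀, 0) : C0 × Z)‖ := by
      have h := norm_fst_le ((sg g₀, 0) : C0 × Z)
      rwa [show ((sg g₀, 0) : C0 × Z).1 = sg g₀ from rfl, hsgnorm g₀] at h
    nlinarith
  have hS0 : 0 < S := lt_of_lt_of_le hc hcS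
  have hSC : S ≤ C := by
    refine csSup_le ⟨_, _, hmem0, rfl⟩ ?_
    rintro _ ⟨v, hv, rfl⟩
    exact hPC v hv
  -- choice of ε
  set ε : ℝ := S / (12 * ((k : ℝ) + 1)) with hε
  have hk1 : (0 : ℝ) < (k : ℝ) + 1 := by positivity
  have hε0 : 0 < ε := by rw [hε]; positivity
  have hεS : 12 * ε ≤ S := by
    rw [hε]
    have : S / (12 * ((k : ℝ) + 1)) ≤ S / (12 * 1) := by
      apply div_le_div_of_nonneg_left hS0.le (by norm_num)
      have : (0 : ℝ) ≤ (k : ℝ) := by positivity
      nlinarith
    linarith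
  obtain ⟨_, ⟨v, hv, rfl⟩, hvS⟩ := exists_lt_of_lt_csSup (s := N '' P) ⟨_, _, hmem0, rfl⟩
    (show S - ε < S by linarith)
  obtain ⟨hv2, hvf, hvA, hv1⟩ := hv
  obtain ⟨g, hgA, hgv⟩ := hk.exists_notMem_finite hvf
  have hvg : v.1 g = 0 := by
    by_contra h
    exact hgv h
  set e : C0 × Z := (sg g, 0) with he
  have hmem : ∀ t : ℝ, |t| = 1 → v + t • e ∈ P := by
    intro t ht
    have hco : ∀ x, (v + t • e).1 x = v.1 x + t * sg g x := by
      intro x
      simp [he]
    refine ⟨?_, ?_, ?_, ?_⟩
    · simp [he, hv2]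
    · refine (hvf.union (Set.finite_singleton g)).subset ?_
      intro x hx
      by_cases h : x = g
      · right; exact h
      · left
        intro h0
        apply hx
        rw [hco, h0, sg_ne h]; ring
    · intro x hx
      by_cases h : x = g
      · rw [h]; exact hgA
      · apply hvA
        intro h0
        apply hx
        rw [hco, h0, sg_ne h]; ring
    · refine nrm_le zero_le_one ?_
      intro x
      rw [hco]
      by_cases h : x = g
      · rw [h, hvg, sg_self, zero_add, mul_one, ht]
      · rw [sg_ne h, mul_zero, add_zero]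
        exact (le_nrm v.1 x).trans hv1
  have hup := le_csSup hbdd ⟨_, hmem 1 (by norm_num), rfl⟩
  have hum := le_csSup hbdd ⟨_, hmem (-1) (by norm_num), rfl⟩
  rw [← hS] at hup hum
  set up : C0 × Z := v + (1 : ℝ) • e with hupd
  set um : C0 × Z := v + (-1 : ℝ) • e with humd
  have hsum : up + um = (2 : ℝ) • v := by
    rw [hupd, humd]; module
  have h2v : N (up + um) = 2 * N v := by
    rw [hsum, hsmul, abs_of_pos (by norm_num : (0 : ℝ) < 2)]
  have hge : 2 * N v ≤ N up + N um := by rw [← h2v]; exact hadd up um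
  have hup0 : S - 2 * ε ≤ N up := by linarith
  have hum0 : S - 2 * ε ≤ N um := by linarith
  have hupp : 0 < N up := by linarith
  have hump : 0 < N um := by linarith
  -- normalised vectors
  have hx := hn g ((1 / N up) • up) ((1 / N um) • um) (by
      rw [hsmul, abs_of_pos (by positivity)]; field_simp) (by
      rw [hsmul, abs_of_pos (by positivity)]; field_simp) (by
      have h1 : up.1 g = 1 := by
        have : up.1 g = v.1 g + sg g g := by simp [hupd, he]
        rw [this, hvg, sg_self, zero_add]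
      have h2 : um.1 g = -1 := by
        have : um.1 g = v.1 g + -sg g g := by simp [humd, he]
        rw [this, hvg, sg_self, zero_add]
      have h3 : ((1 / N up) • up).1 g - ((1 / N um) • um).1 g = 1 / N up + 1 / N um := by
        have e1 : ((1 / N up) • up).1 g = (1 / N up) * up.1 g := rfl
        have e2 : ((1 / N um) • um).1 g = (1 / N um) * um.1 g := rfl
        rw [e1, e2, h1, h2]; ring
      rw [h3, abs_of_pos (by positivity)]
      have h4 : 1 / C ≤ 1 / N up := one_div_le_one_div_of_le hupp (hup.trans hSC)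
      have h5 : 0 < 1 / N um := by positivity
      linarith)
  have hng : n g = k := hgA
  rw [hng] at hx
  -- lower bound
  have hdec : (1 / S) • (up + um) = ((1 / N up) • up + (1 / N um) • um)
      + (-((1 / N up - 1 / S) • up) + -((1 / N um - 1 / S) • um)) := by
    module
  have hlow : N ((1 / S) • (up + um)) ≤ N ((1 / N up) • up + (1 / N um) • um)
      + ((1 / N up - 1 / S) * N up + (1 / N um - 1 / S) * N um) := by
    rw [hdec]
    refine (hadd _ _).trans ?_
    have h1 : N (-((1 / N up - 1 / S) • up) + -((1 / N um - 1 / S) • um))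
        ≤ (1 / N up - 1 / S) * N up + (1 / N um - 1 / S) * N um := by
      refine (hadd _ _).trans ?_
      rw [hneg, hneg, hsmul, hsmul,
        abs_of_nonneg (sub_nonneg.2 (one_div_le_one_div_of_le hupp hup)),
        abs_of_nonneg (sub_nonneg.2 (one_div_le_one_div_of_le hump hum))]
    linarith
  rw [hsmul, h2v, abs_of_pos (by positivity)] at hlow
  have e1 : (1 / N up - 1 / S) * N up = 1 - N up / S := by field_simp
  have e2 : (1 / N um - 1 / S) * N um = 1 - N um / S := by field_simp
  rw [e1, e2] at hlow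
  have h6 : 1 - N up / S ≤ 2 * ε / S := by
    rw [show (1 : ℝ) - N up / S = (S - N up) / S by field_simp]
    exact div_le_div_of_nonneg_right (by linarith) hS0.le
  have h7 : 1 - N um / S ≤ 2 * ε / S := by
    rw [show (1 : ℝ) - N um / S = (S - N um) / S by field_simp]
    exact div_le_div_of_nonneg_right (by linarith) hS0.le
  have h8 : 2 - 2 * ε / S ≤ 1 / S * (2 * N v) := by
    rw [show (2 : ℝ) - 2 * ε / S = (2 * (S - ε)) / S by field_simp,
      show 1 / S * (2 * N v) = (2 * N v) / S by ring]
    exact div_le_div_of_nonneg_right (by linarith) hS0.le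
  have h9 : ε / S = 1 / (12 * ((k : ℝ) + 1)) := by
    rw [hε]; field_simp
  have h10 : 2 * ε / S = 2 * (1 / (12 * ((k : ℝ) + 1))) := by
    rw [mul_div_assoc, h9]
  rw [h10] at h6 h7 h8
  have h11 : 1 / (12 * ((k : ℝ) + 1)) = (1 / 12) * (1 / ((k : ℝ) + 1)) := by
    field_simp
  rw [h11] at h6 h7 h8
  have h12 : 0 < 1 / ((k : ℝ) + 1) := by positivity
  linarith

end Pool.Agent.Helper94.WUR
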