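import Pool.Agent.Helper94.WUR.Space

/-!
Module WURX for MP_bd2462_an: `X` has an equivalent WUR norm.
-/

set_option autoImplicit false

namespace Pool.Agent.Helper94.WUR

open Filter Topology

/-! ## blocks -/

/-- the block `p` of `x`, an element of `ℓ₂` -/
noncomputable def blk (x : X) (p : ℕ × ℕ) : L2 := x.1.1 p

theorem blk_add (x y : X) (p : ℕ × ℕ) : blk (x + y) p = blk x p + blk y p := rfl

theorem blk_sub (x y : X) (p : ℕ × ℕ) : blk (x - y) p = blk x p - blk y p := rfl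

theorem blk_smul (a : ℝ) (x : X) (p : ℕ × ℕ) : blk (a • x) p = a • blk x p := rfl

theorem X_norm_def (x : X) : ‖x‖ = max ‖x.1.1‖ ‖x.1.2‖ := rfl

theorem X_norm_smul (a : ℝ) (x : X) : ‖a • x‖ = |a| * ‖x‖ := by
  change ‖a • x.1‖ = |a| * ‖x.1‖
  rw [norm_smul, Real.norm_eq_abs]

theorem X_sub_add (x y : X) : x - y + y = x := sub_add_cancel (G := X) x y

theorem blk_le (x : X) (p : ℕ × ℕ) : ‖blk x p‖ ≤ ‖x‖ :=
  (c0_apply_le x.1.1 p).trans (le_max_left _ _)

theorem X_norm_le (x : X) {C : ℝ} (hC : 0 ≤ C) (h1 : ∀ p, ‖blk x p‖ ≤ C)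
    (h2 : ∀ i m γ, |co x i m γ| ≤ C) : ‖x‖ ≤ C := by
  rw [X_norm_def]
  refine max_le (c0_norm_le x.1.1 hC h1) (c0_norm_le x.1.2 hC ?_)
  rintro ⟨i, m, γ⟩
  exact h2 i m γ

theorem co_le_blk (x : X) (i m : ℕ) (γ : Gam) : |co x i m γ| ≤ 2 ^ m * ‖blk x (i, m)‖ := by
  rw [co_eq, abs_mul, abs_of_pos (by positivity : (0 : ℝ) < 2 ^ m)]
  refine mul_le_mul_of_nonneg_left ?_ (by positivity)
  exact lp.norm_apply_le_norm (by norm_num) (blk x (i, m)) γ

theorem co_zero_of_blk {x : X} {i m : ℕ} (h : blk x (i, m) = 0) (γ : Gam) : co x i m γ = 0 := by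
  have := co_le_blk x i m γ
  rw [h, norm_zero, mul_zero] at this
  exact abs_nonpos_iff.1 this

theorem co_eq_of_blk {x y : X} {i m : ℕ} (h : blk x (i, m) = blk y (i, m)) (γ : Gam) :
    co x i m γ = co y i m γ := by
  rw [co_eq, co_eq]
  unfold blk at h
  rw [h]

/-- restriction to a set of blocks -/
theorem exists_restr (x : X) (S : Set (ℕ × ℕ)) :
    ∃ y : X, (∀ p, p ∈ S → blk y p = blk x p) ∧ (∀ p, p ∉ S → blk y p = 0) := by
  classical
  have h1 : Tendsto (fun p : ℕ × ℕ => if p ∈ S then x.1.1 p else 0)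
      (cocompact (ℕ × ℕ)) (𝓝 (0 : L2)) := by
    refine squeeze_zero_norm (a := fun p => ‖x.1.1 p‖) ?_ ?_
    · intro p
      by_cases hp : p ∈ S
      · rw [if_pos hp]
      · rw [if_neg hp, norm_zero]; exact norm_nonneg _
    · have := x.1.1.zero_at_infty'
      simpa using this.norm
  have h2 : Tendsto (fun q : ℕ × ℕ × Gam => if (q.1, q.2.1) ∈ S then x.1.2 q else 0)
      (cocompact (ℕ × ℕ × Gam)) (𝓝 (0 : ℝ)) := by
    refine squeeze_zero_norm (a := fun q => ‖x.1.2 q‖) ?_ ?_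
    · intro q
      by_cases hp : (q.1, q.2.1) ∈ S
      · rw [if_pos hp]
      · rw [if_neg hp, norm_zero]; exact norm_nonneg _
    · have := x.1.2.zero_at_infty'
      simpa using this.norm
  refine ⟨⟨(⟨⟨_, continuous_of_discreteTopology⟩, h1⟩, ⟨⟨_, continuous_of_discreteTopology⟩, h2⟩),
    ?_⟩, ?_, ?_⟩
  · intro i m γ
    change (if (i, m) ∈ S then x.1.2 (i, m, γ) else 0)
      = 2 ^ m * ((if (i, m) ∈ S then x.1.1 (i, m) else (0 : L2) : L2) : Gam → ℝ) γ
    by_cases hp : (i, m) ∈ S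
    · rw [if_pos hp, if_pos hp]
      exact x.2 i m γ
    · rw [if_neg hp, if_neg hp]
      simp
  · intro p hp
    change (if p ∈ S then x.1.1 p else 0) = x.1.1 p
    rw [if_pos hp]
  · intro p hp
    change (if p ∈ S then x.1.1 p else 0) = 0
    rw [if_neg hp]

/-- finitely many blocks carry `x` up to `δ` -/
theorem exists_finite_part (x : X) {δ : ℝ} (hδ : 0 < δ) : ∃ (S : Finset (ℕ × ℕ)) (y : X),
    (∀ p, p ∈ S → blk y p = blk x p) ∧ (∀ p, p ∉ S → blk y p = 0) ∧ ‖x - y‖ ≤ δ := by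
  classical
  have h1 : {p : ℕ × ℕ | δ ≤ ‖x.1.1 p‖}.Finite := by
    have h := x.1.1.zero_at_infty'
    rw [Filter.cocompact_eq_cofinite] at h
    have h1 := (Metric.tendsto_nhds.1 h) δ hδ
    rw [Filter.eventually_cofinite] at h1
    refine h1.subset ?_
    intro q hq
    have hq' : δ ≤ ‖x.1.1 q‖ := hq
    show ¬ dist (x.1.1.toFun q) 0 < δ
    rw [dist_zero_right, not_lt]
    exact hq'
  have h2 := (co_van x hδ).image (fun q : ℕ × ℕ × Gam => (q.1, q.2.1))
  have hfin := h1.union h2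
  obtain ⟨y, hy1, hy2⟩ := exists_restr x (hfin.toFinset : Set (ℕ × ℕ))
  refine ⟨hfin.toFinset, y, fun p hp => hy1 p hp, fun p hp => hy2 p hp, ?_⟩
  refine X_norm_le _ hδ.le ?_ ?_
  · intro p
    rw [blk_sub]
    by_cases hp : p ∈ (hfin.toFinset : Set (ℕ × ℕ))
    · rw [hy1 p hp, sub_self, norm_zero]; exact hδ.le
    · rw [hy2 p hp, sub_zero]
      by_contra hc
      push Not at hc
      apply hp
      simp only [Set.Finite.coe_toFinset]
      exact Or.inl hc.le
  · intro i m γ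
    rw [co_sub]
    by_cases hp : (i, m) ∈ (hfin.toFinset : Set (ℕ × ℕ))
    · rw [co_eq_of_blk (hy1 _ hp), sub_self, abs_zero]; exact hδ.le
    · rw [co_zero_of_blk (hy2 _ hp), sub_zero]
      by_contra hc
      push Not at hc
      apply hp
      simp only [Set.Finite.coe_toFinset]
      exact Or.inr ⟨(i, m, γ), hc.le, rfl⟩

/-- functionals are small on tails -/
theorem tail_small {f : X → ℝ} {C : ℝ} (hC : 0 ≤ C) (hadd : ∀ x y : X, f (x + y) = f x + f y)
    (hf : ∀ x : X, |f x| ≤ C * ‖x‖) {ε : ℝ} (hε : 0 < ε) : ∃ S : Finset (ℕ × ℕ), ∀ x : X,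
    (∀ p, p ∈ S → blk x p = 0) → ‖x‖ ≤ 1 → f x ≤ ε := by
  classical
  by_contra hcon
  push Not at hcon
  have key : ∀ K : ℕ, ∃ (S : Finset (ℕ × ℕ)) (v : X), (∀ p, p ∉ S → blk v p = 0) ∧ ‖v‖ ≤ 1 ∧
      K * (ε / 2) ≤ f v := by
    intro K
    induction K with
    | zero =>
      have h0 : f 0 = 0 := by
        have := hadd 0 0
        rw [add_zero] at this
        linarith
      refine ⟨∅, 0, fun p _ => rfl, ?_, ?_⟩
      · have h0 : ‖(0 : X)‖ = 0 := norm_zero (E := X)
        rw [h0]; exact zero_le_one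
      · rw [h0, Nat.cast_zero, zero_mul]
    | succ K ih =>
      obtain ⟨S, v, hv, hv1, hv2⟩ := ih
      obtain ⟨x, hx, hx1, hx2⟩ := hcon S
      have hδ : 0 < ε / (2 * (C + 1)) := by positivity
      obtain ⟨S', y, hy1, hy2, hy3⟩ := exists_finite_part x hδ
      have hfy : ε / 2 ≤ f y := by
        have h1 : f (x - y) ≤ C * ‖x - y‖ := (le_abs_self _).trans (hf _)
        have h2 : C * ‖x - y‖ ≤ C * (ε / (2 * (C + 1))) :=
          mul_le_mul_of_nonneg_left hy3 hC
        have h3 : C * (ε / (2 * (C + 1))) ≤ ε / 2 := by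
          rw [mul_div_assoc', div_le_div_iff₀ (by positivity) (by norm_num)]
          nlinarith
        have h4 : f x = f (x - y) + f y := by rw [← hadd, X_sub_add]
        linarith
      have hblk : ∀ p, (p ∈ S → blk (v + y) p = blk v p) ∧
          (p ∉ S → p ∈ S' → blk (v + y) p = blk x p) ∧ (p ∉ S → p ∉ S' → blk (v + y) p = 0) := by
        intro p
        refine ⟨?_, ?_, ?_⟩
        · intro hp
          rw [blk_add]
          by_cases hp' : p ∈ S'
          · rw [hy1 p hp', hx p hp, add_zero]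
          · rw [hy2 p hp', add_zero]
        · intro hp hp'
          rw [blk_add, hv p hp, hy1 p hp', zero_add]
        · intro hp hp'
          rw [blk_add, hv p hp, hy2 p hp', zero_add]
      refine ⟨S ∪ S', v + y, ?_, ?_, ?_⟩
      · intro p hp
        rw [Finset.mem_union, not_or] at hp
        exact (hblk p).2.2 hp.1 hp.2
      · refine X_norm_le _ zero_le_one ?_ ?_
        · intro p
          by_cases hp : p ∈ S
          · rw [(hblk p).1 hp]; exact (blk_le v p).trans hv1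
          · by_cases hp' : p ∈ S'
            · rw [(hblk p).2.1 hp hp']; exact (blk_le x p).trans hx1
            · rw [(hblk p).2.2 hp hp', norm_zero]; exact zero_le_one
        · intro i m γ
          by_cases hp : (i, m) ∈ S
          · rw [co_eq_of_blk ((hblk _).1 hp)]; exact (co_le v i m γ).trans hv1
          · by_cases hp' : (i, m) ∈ S'
            · rw [co_eq_of_blk ((hblk _).2.1 hp hp')]; exact (co_le x i m γ).trans hx1
            · rw [co_zero_of_blk ((hblk _).2.2 hp hp'), abs_zero]; exact zero_le_one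
      · rw [hadd]
        push_cast
        linarith
  obtain ⟨K, hK⟩ := exists_nat_gt (C / (ε / 2))
  obtain ⟨S, v, -, hv1, hv2⟩ := key K
  have h1 : f v ≤ C := by
    have := (le_abs_self _).trans (hf v)
    have h2 : C * ‖v‖ ≤ C * 1 := mul_le_mul_of_nonneg_left hv1 hC
    linarith
  rw [div_lt_iff₀ (by positivity)] at hK
  linarith

/-- a bounded sequence all of whose blocks tend to `0` is weakly null -/
theorem weak_null {d : ℕ → X} {M : ℝ} (hM : ∀ n, ‖d n‖ ≤ M)
    (hb : ∀ p, Tendsto (fun n => ‖blk (d n) p‖) atTop (𝓝 0)) {f : X → ℝ} {C : ℝ} (hC : 0 ≤ C)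
    (hadd : ∀ x y : X, f (x + y) = f x + f y) (hsm : ∀ (a : ℝ) (x : X), f (a • x) = a * f x)
    (hf : ∀ x : X, |f x| ≤ C * ‖x‖) :
    Tendsto (fun n => f (d n)) atTop (𝓝 0) := by
  classical
  have hM0 : 0 ≤ M := (norm_nonneg (d 0)).trans (hM 0)
  rw [Metric.tendsto_atTop]
  intro ε hε
  have hε' : 0 < ε / (2 * (M + 1)) := by positivity
  obtain ⟨S, hS⟩ := tail_small hC hadd hf hε'
  -- the finite part tends to zero
  choose y hy1 hy2 using fun n => exists_restr (d n) (S : Set (ℕ × ℕ))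
  have htail : ∀ n, |f (d n - y n)| ≤ ε / 2 := by
    intro n
    have hz : ∀ p, p ∈ S → blk (d n - y n) p = 0 := by
      intro p hp
      rw [blk_sub, hy1 n p hp, sub_self]
    have hle : ‖d n - y n‖ ≤ M := by
      refine X_norm_le _ hM0 ?_ ?_
      · intro p
        by_cases hp : p ∈ S
        · rw [hz p hp, norm_zero]; exact hM0
        · rw [blk_sub, hy2 n p hp, sub_zero]; exact (blk_le _ p).trans (hM n)
      · intro i m γ
        by_cases hp : (i, m) ∈ S
        · rw [co_zero_of_blk (hz _ hp), abs_zero]; exact hM0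
        · rw [co_sub, co_zero_of_blk (hy2 n _ hp), sub_zero]; exact (co_le _ i m γ).trans (hM n)
    have hscale : ∀ z : X, (∀ p, p ∈ S → blk z p = 0) → ‖z‖ ≤ M → f z ≤ ε / 2 := by
      intro z hz hzM
      have hns : ‖(M + 1)⁻¹ • z‖ = (M + 1)⁻¹ * ‖z‖ := by
        rw [X_norm_smul, abs_of_pos (by positivity : (0:ℝ) < (M + 1)⁻¹)]
      have h1 := hS ((M + 1)⁻¹ • z) (fun p hp => by rw [blk_smul, hz p hp, smul_zero]) (by
        rw [hns, inv_mul_le_iff₀ (by positivity)]
        linarith)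
      rw [hsm, inv_mul_le_iff₀ (by positivity)] at h1
      have h2 : (M + 1) * (ε / (2 * (M + 1))) = ε / 2 := by field_simp
      linarith
    rw [abs_le]
    constructor
    · have h := hscale ((-1 : ℝ) • (d n - y n)) (fun p hp => by
        rw [blk_smul, hz p hp, smul_zero]) (by
          rw [X_norm_smul, abs_neg, abs_one, one_mul]; exact hle)
      rw [hsm] at h
      linarith
    · exact hscale _ hz hle
  have hfin : Tendsto (fun n => C * ∑ p ∈ S, 2 ^ p.2 * ‖blk (d n) p‖) atTop (𝓝 0) := by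
    have h1 : Tendsto (fun n => ∑ p ∈ S, 2 ^ p.2 * ‖blk (d n) p‖) atTop
        (𝓝 (∑ p ∈ S, (2 : ℝ) ^ p.2 * 0)) := by
      refine tendsto_finsetSum _ fun p _ => ?_
      exact tendsto_const_nhds.mul (hb p)
    simpa using h1.const_mul C
  have hyn : ∀ n, |f (y n)| ≤ C * ∑ p ∈ S, 2 ^ p.2 * ‖blk (d n) p‖ := by
    intro n
    refine (hf (y n)).trans (mul_le_mul_of_nonneg_left ?_ hC)
    have hnn : ∀ p ∈ S, (0 : ℝ) ≤ 2 ^ p.2 * ‖blk (d n) p‖ := fun p _ => by positivity
    refine X_norm_le _ (Finset.sum_nonneg hnn) ?_ ?_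
    · intro p
      by_cases hp : p ∈ S
      · rw [hy1 n p hp]
        refine le_trans ?_ (Finset.single_le_sum hnn hp)
        have : (1 : ℝ) ≤ 2 ^ p.2 := one_le_pow₀ (by norm_num)
        nlinarith [norm_nonneg (blk (d n) p)]
      · rw [hy2 n p hp, norm_zero]; exact Finset.sum_nonneg hnn
    · intro i m γ
      by_cases hp : (i, m) ∈ S
      · rw [co_eq_of_blk (hy1 n _ hp)]
        exact (co_le_blk (d n) i m γ).trans (Finset.single_le_sum hnn hp)
      · rw [co_zero_of_blk (hy2 n _ hp), abs_zero]; exact Finset.sum_nonneg hnn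
  obtain ⟨n0, hn0⟩ := (Metric.tendsto_atTop.1 hfin) (ε / 2) (half_pos hε)
  refine ⟨n0, fun n hn => ?_⟩
  have h1 := hn0 n hn
  rw [Real.dist_eq, sub_zero] at h1 ⊢
  have h2 : f (d n) = f (y n) + f (d n - y n) := by
    rw [← hadd, add_comm (G := X) (y n), X_sub_add]
  rw [h2]
  have h3 := abs_add_le (f (y n)) (f (d n - y n))
  have h4 := le_abs_self (C * ∑ p ∈ S, 2 ^ p.2 * ‖blk (d n) p‖)
  have h5 := hyn n
  have h6 := htail n
  linarith

/-! ## The norm -/

/-- square roots of the weights -/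
noncomputable def cw (p : ℕ × ℕ) : ℝ := (1 / 2) ^ p.1 * (1 / 2) ^ p.2

theorem cw_pos (p : ℕ × ℕ) : 0 < cw p := by unfold cw; positivity

theorem cw_summable : Summable (fun p : ℕ × ℕ => cw p ^ 2) := by
  have h1 : Summable (fun n : ℕ => ((1 / 4 : ℝ)) ^ n) :=
    summable_geometric_of_lt_one (by norm_num) (by norm_num)
  have h2 := h1.mul_of_nonneg h1 (fun n => by positivity) (fun n => by positivity)
  refine h2.congr ?_
  rintro ⟨i, m⟩
  unfold cw
  have h3 : ∀ n : ℕ, ((1 / 4 : ℝ)) ^ n = ((1 / 2) ^ n) ^ 2 := by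
    intro n
    rw [← pow_mul, mul_comm n 2, pow_mul]; norm_num
  simp only
  rw [h3, h3]; ring

theorem beta_summable (x : X) : Summable (fun p : ℕ × ℕ => ‖cw p • blk x p‖ ^ 2) := by
  refine Summable.of_nonneg_of_le (fun p => by positivity) ?_ (cw_summable.mul_left (‖x‖ ^ 2))
  intro p
  rw [norm_smul, Real.norm_eq_abs, abs_of_pos (cw_pos p), mul_pow, mul_comm]
  refine mul_le_mul_of_nonneg_right ?_ (by positivity)
  exact pow_le_pow_left₀ (norm_nonneg _) (blk_le x p) 2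

theorem two_toReal : (2 : ENNReal).toReal = 2 := by norm_num

theorem beta_mem (x : X) : Memℓp (fun p : ℕ × ℕ => cw p • blk x p) 2 := by
  apply memℓp_gen
  rw [two_toReal]
  refine (beta_summable x).congr ?_
  intro p
  rw [Real.rpow_two]

/-- the Hilbertian part -/
noncomputable def beta (x : X) : lp (fun _ : ℕ × ℕ => L2) 2 := ⟨_, beta_mem x⟩

theorem beta_add (x y : X) : beta (x + y) = beta x + beta y := by
  refine lp.ext (funext fun p => ?_)
  change cw p • blk (x + y) p = cw p • blk x p + cw p • blk y p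
  rw [blk_add, smul_add]

theorem beta_sub (x y : X) : beta (x - y) = beta x - beta y := by
  refine lp.ext (funext fun p => ?_)
  change cw p • blk (x - y) p = cw p • blk x p - cw p • blk y p
  rw [blk_sub, smul_sub]

theorem beta_smul (a : ℝ) (x : X) : beta (a • x) = a • beta x := by
  refine lp.ext (funext fun p => ?_)
  change cw p • blk (a • x) p = a • (cw p • blk x p)
  rw [blk_smul, smul_comm]

theorem beta_blk (x : X) (p : ℕ × ℕ) : cw p * ‖blk x p‖ ≤ ‖beta x‖ := by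
  have h := lp.norm_apply_le_norm (by norm_num : (2 : ENNReal) ≠ 0) (beta x) p
  change ‖cw p • blk x p‖ ≤ ‖beta x‖ at h
  rw [norm_smul, Real.norm_eq_abs, abs_of_pos (cw_pos p)] at h
  exact h

theorem beta_sq (x : X) : ‖beta x‖ ^ 2 ≤ (∑' p, cw p ^ 2) * ‖x‖ ^ 2 := by
  have h := lp.norm_rpow_eq_tsum (by norm_num : 0 < (2 : ENNReal).toReal) (beta x)
  rw [two_toReal, Real.rpow_two] at h
  rw [h]
  have h1 : (fun p : ℕ × ℕ => ‖(beta x : ℕ × ℕ → L2) p‖ ^ (2 : ℝ))
      = fun p => ‖cw p • blk x p‖ ^ 2 := by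
    funext p
    rw [Real.rpow_two]
    rfl
  rw [h1, ← tsum_mul_right]
  refine (beta_summable x).tsum_le_tsum ?_ (cw_summable.mul_right _)
  intro p
  rw [norm_smul, Real.norm_eq_abs, abs_of_pos (cw_pos p), mul_pow]
  refine mul_le_mul_of_nonneg_left ?_ (by positivity)
  exact pow_le_pow_left₀ (norm_nonneg _) (blk_le x p) 2

/-- the WUR norm -/
noncomputable def NN (x : X) : ℝ := √(‖x‖ ^ 2 + ‖beta x‖ ^ 2)

theorem NN_sq (x : X) : NN x ^ 2 = ‖x‖ ^ 2 + ‖beta x‖ ^ 2 := by
  unfold NN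
  rw [Real.sq_sqrt (by positivity)]

theorem NN_nonneg (x : X) : 0 ≤ NN x := Real.sqrt_nonneg _

theorem sqrt_tri {a b a1 b1 a2 b2 : ℝ} (ha : 0 ≤ a) (hb : 0 ≤ b) (h1 : a ≤ a1 + a2)
    (h2 : b ≤ b1 + b2) : √(a ^ 2 + b ^ 2) ≤ √(a1 ^ 2 + b1 ^ 2) + √(a2 ^ 2 + b2 ^ 2) := by
  have hp : 0 ≤ a1 ^ 2 + b1 ^ 2 := by positivity
  have hq : 0 ≤ a2 ^ 2 + b2 ^ 2 := by positivity
  set p := √(a1 ^ 2 + b1 ^ 2) with hpd
  set q := √(a2 ^ 2 + b2 ^ 2) with hqd
  have hp2 : p ^ 2 = a1 ^ 2 + b1 ^ 2 := Real.sq_sqrt hp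
  have hq2 : q ^ 2 = a2 ^ 2 + b2 ^ 2 := Real.sq_sqrt hq
  have hp0 : 0 ≤ p := Real.sqrt_nonneg _
  have hq0 : 0 ≤ q := Real.sqrt_nonneg _
  rw [Real.sqrt_le_left (by positivity)]
  have hcs : a1 * a2 + b1 * b2 ≤ p * q := by
    apply le_of_abs_le
    apply abs_le_of_sq_le_sq _ (by positivity)
    rw [mul_pow, hp2, hq2]
    nlinarith [sq_nonneg (a1 * b2 - a2 * b1)]
  have h3 : a ^ 2 ≤ (a1 + a2) ^ 2 := pow_le_pow_left₀ ha h1 2
  have h4 : b ^ 2 ≤ (b1 + b2) ^ 2 := pow_le_pow_left₀ hb h2 2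
  nlinarith

theorem NN_add (x y : X) : NN (x + y) ≤ NN x + NN y := by
  unfold NN
  refine sqrt_tri (norm_nonneg (x + y)) (norm_nonneg _) (norm_add_le (E := X) x y) ?_
  rw [beta_add]
  exact norm_add_le _ _

theorem NN_smul (a : ℝ) (x : X) : NN (a • x) = |a| * NN x := by
  unfold NN
  rw [X_norm_smul, beta_smul, norm_smul, Real.norm_eq_abs, mul_pow, mul_pow, ← mul_add,
    Real.sqrt_mul (by positivity), Real.sqrt_sq (abs_nonneg a)]

theorem X_hasWUR : HasWUR X := by
  refine ⟨NN, NN_add, NN_smul, ⟨1, √(1 + ∑' p, cw p ^ 2), one_pos, ?_, ?_⟩, ?_⟩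
  · apply Real.sqrt_pos.2
    have : 0 ≤ ∑' p : ℕ × ℕ, cw p ^ 2 := tsum_nonneg (fun p => by positivity)
    linarith
  · intro x
    constructor
    · rw [one_mul]
      apply Real.le_sqrt_of_sq_le
      have := sq_nonneg ‖beta x‖
      linarith
    · have h0 : 0 ≤ ‖x‖ := norm_nonneg x
      unfold NN
      rw [show √(1 + ∑' p : ℕ × ℕ, cw p ^ 2) * ‖x‖ = √((1 + ∑' p : ℕ × ℕ, cw p ^ 2) * ‖x‖ ^ 2) by
        rw [Real.sqrt_mul' _ (by positivity), Real.sqrt_sq h0]]
      apply Real.sqrt_le_sqrt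
      have := beta_sq x
      linarith
  · intro u v hu hv huv f
    have hdle : ∀ n, ‖u n - v n‖ ≤ 2 := by
      intro n
      have h1 : ∀ x : X, ‖x‖ ≤ NN x := fun x => by
        apply Real.le_sqrt_of_sq_le
        have := sq_nonneg ‖beta x‖
        linarith
      have h2 := h1 (u n)
      have h3 := h1 (v n)
      rw [hu n] at h2
      rw [hv n] at h3
      have h4 := norm_sub_le (E := X) (u n) (v n)
      linarith
    -- the Hilbertian part of the difference tends to zero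
    have hsq : ∀ n, ‖beta (u n - v n)‖ ^ 2 ≤ 4 - NN (u n + v n) ^ 2 := by
      intro n
      have h1 := NN_sq (u n)
      have h2 := NN_sq (v n)
      have h3 := NN_sq (u n + v n)
      rw [hu n] at h1
      rw [hv n] at h2
      have h4 := norm_add_le (E := X) (u n) (v n)
      have h5 : ‖beta (u n + v n)‖ ^ 2 + ‖beta (u n - v n)‖ ^ 2
          = 2 * (‖beta (u n)‖ ^ 2 + ‖beta (v n)‖ ^ 2) := by
        rw [beta_add, beta_sub]
        have := parallelogram_law_with_norm ℝ (beta (u n)) (beta (v n))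
        nlinarith
      have h6 : ‖u n + v n‖ ^ 2 ≤ (‖u n‖ + ‖v n‖) ^ 2 := pow_le_pow_left₀ (norm_nonneg _) h4 2
      nlinarith [sq_nonneg (‖u n‖ - ‖v n‖)]
    have hlim : Tendsto (fun n => 4 - NN (u n + v n) ^ 2) atTop (𝓝 0) := by
      have h1 := (huv.pow 2).const_sub 4
      norm_num at h1
      exact h1
    have hbeta : Tendsto (fun n => ‖beta (u n - v n)‖ ^ 2) atTop (𝓝 0) :=
      squeeze_zero (fun n => by positivity) hsq hlim
    have hbeta1 : Tendsto (fun n => ‖beta (u n - v n)‖) atTop (𝓝 0) := by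
      have h1 := (Real.continuous_sqrt.tendsto 0).comp hbeta
      rw [Real.sqrt_zero] at h1
      refine h1.congr (fun n => ?_)
      simp only [Function.comp]
      rw [Real.sqrt_sq (norm_nonneg _)]
    have hb : ∀ p, Tendsto (fun n => ‖blk (u n - v n) p‖) atTop (𝓝 0) := by
      intro p
      have h1 := hbeta1.const_mul (cw p)⁻¹
      rw [mul_zero] at h1
      refine squeeze_zero (fun n => norm_nonneg _) (fun n => ?_) h1
      rw [le_inv_mul_iff₀ (cw_pos p)]
      exact beta_blk _ p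
    exact weak_null (C := ‖f‖) hdle hb (norm_nonneg f) (fun x y => map_add f x y)
      (fun a x => by rw [map_smul, smul_eq_mul])
      (fun x => by rw [← Real.norm_eq_abs]; exact f.le_opNorm x)

end Pool.Agent.Helper94.WUR
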